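import Pool.Agent.Lib.MP_5e3ef6_lc.Merge

namespace Pool.Agent.Lib.MP_5e3ef6_lc

/-- the functional `d` answers `b` at `n` on the oracle `q` joined with the finite string `τ` -/
def Out (q : ℕ → ℕ) (d : List ℕ → ℕ → Option ℕ) (τ : List ℕ) (n b : ℕ) : Prop :=
  ∃ k ≤ τ.length, d (pre (join q fun i => τ.getD i 0) k) n = some b ∧
    ∀ j < k, d (pre (join q fun i => τ.getD i 0) j) n = none

theorem pre_join_eq {q g : ℕ → ℕ} {τ : List ℕ} (h : ∀ i < τ.length, τ.getD i 0 = g i) {k : ℕ}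
    (hk : k ≤ τ.length) : pre (join q fun i => τ.getD i 0) k = pre (join q g) k :=
  Agree.pre_eq ((Agree.refl k q).join fun i hi => h i (by omega))

theorem Out.eq {q g f : ℕ → ℕ} {d : List ℕ → ℕ → Option ℕ} {τ : List ℕ} {n b : ℕ}
    (h : Out q d τ n b) (hg : ∀ i < τ.length, τ.getD i 0 = g i) (hf : Computes d (join q g) f) :
    f n = b := by
  obtain ⟨k, hk, h1, h2⟩ := h
  obtain ⟨j, h3, h4⟩ := hf n
  rw [pre_join_eq hg hk] at h1
  rcases lt_trichotomy k j with h | rfl | h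
  · rw [h4 k h] at h1
    cases h1
  · rw [h1] at h3
    exact (Option.some.inj h3).symm
  · have := h2 j h
    rw [pre_join_eq hg (by omega), h3] at this
    cases this

theorem Out.of_computes {q g f : ℕ → ℕ} {d : List ℕ → ℕ → Option ℕ}
    (hf : Computes d (join q g) f) (n m : ℕ) : ∃ k, m ≤ k ∧ Out q d (pre g k) n (f n) := by
  obtain ⟨j, h3, h4⟩ := hf n
  have hg : ∀ i < (pre g (max m j)).length, (pre g (max m j)).getD i 0 = g i := fun i hi =>
    getD_pre g (by simpa using hi)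
  refine ⟨max m j, le_max_left _ _, j, by simp, ?_, fun i hi => ?_⟩
  · rwa [pre_join_eq hg (by simp)]
  · rw [pre_join_eq hg (by simp; omega)]
    exact h4 i hi

theorem Out.mono {q : ℕ → ℕ} {d : List ℕ → ℕ → Option ℕ} {τ : List ℕ} {n b : ℕ}
    (h : Out q d τ n b) (τ' : List ℕ) : Out q d (τ ++ τ') n b := by
  obtain ⟨k, hk, h1, h2⟩ := h
  have hg : ∀ i < τ.length, τ.getD i 0 = (τ ++ τ').getD i 0 := fun i hi =>
    (List.getD_append _ _ _ _ hi).symm
  refine ⟨k, by simp; omega, ?_, fun j hj => ?_⟩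
  · rwa [← pre_join_eq hg hk]
  · rw [← pre_join_eq hg (by omega)]
    exact h2 j hj

/-- finite version of `join` -/
def joinL (m τ : List ℕ) (k : ℕ) : List ℕ :=
  (List.range k).map fun i => if i % 2 = 0 then m.getD (i / 2) 0 else τ.getD (i / 2) 0

@[fun_prop] theorem pr_joinL {α : Type} [Primcodable α] {f g : α → List ℕ} {h : α → ℕ} (hf : PR f)
    (hg : PR g) (hh : PR h) : PR fun a => joinL (f a) (g a) (h a) := by
  unfold joinL
  fun_prop

theorem ce_out (q : ℕ → ℕ) {d : List ℕ → ℕ → Option ℕ} (hd : Computable₂ d) :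
    CE q fun z : List ℕ × ℕ × ℕ => Out q d z.1 z.2.1 z.2.2 := by
  have hg : CE q fun z : (List ℕ × ℕ) × Option ℕ => d z.1.1 z.1.2 = z.2 := UCE.graph hd
  have hJ : ∀ (τ : List ℕ) k, k ≤ τ.length →
      joinL (pre q τ.length) τ k = pre (join q fun i => τ.getD i 0) k := by
    intro τ k hk
    refine List.map_congr_left fun i hi => ?_
    have := List.mem_range.1 hi
    rw [getD_pre q (by omega)]
    rfl
  have : CE q fun z : List ℕ × ℕ × ℕ => ∃ m : List ℕ, m = pre q m.length ∧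
      m.length = z.1.length ∧ ∃ k, k ≤ z.1.length ∧ d (joinL m z.1 k) z.2.1 = some z.2.2 ∧
        ∀ j < k, d (joinL m z.1 j) z.2.1 = none := by
    refine UCE.ex ?_
    refine UCE.and (UCE.isPre.comp (f := fun w : (List ℕ × ℕ × ℕ) × List ℕ => w.2)
      (by fun_prop)) (UCE.and (UCE.of_pr (by fun_prop)) ?_)
    refine UCE.ex ?_
    refine UCE.and (UCE.of_pr (by fun_prop)) (UCE.and ?_ ?_)
    · exact hg.comp (f := fun w : ((List ℕ × ℕ × ℕ) × List ℕ) × ℕ =>
        ((joinL w.1.2 w.1.1.1 w.2, w.1.1.2.1), some w.1.1.2.2)) (by fun_prop)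
    · refine UCE.blt ?_ (by fun_prop)
      exact hg.comp (f := fun w : (((List ℕ × ℕ × ℕ) × List ℕ) × ℕ) × ℕ =>
        ((joinL w.1.1.2 w.1.1.1.1 w.2, w.1.1.1.2.1), none)) (by fun_prop)
  refine this.congr fun z => ⟨fun ⟨k, hk, h1, h2⟩ => ⟨pre q z.1.length, by simp, by simp, k, hk,
    by rwa [hJ _ _ hk], fun j hj => by rw [hJ _ _ (by omega)]; exact h2 j hj⟩, ?_⟩
  rintro ⟨m, h1, h2, k, hk, h3, h4⟩
  rw [h2] at h1
  subst h1
  exact ⟨k, hk, by rwa [hJ _ _ hk] at h3, fun j hj => by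
    rw [← hJ _ _ (by omega)]; exact h4 j hj⟩

theorem ce_forall₂ {q : ℕ → ℕ} {E : ℕ → ℕ → Prop} (h : CE q fun z : ℕ × ℕ => E z.1 z.2) :
    CE q fun z : List ℕ × List ℕ => List.Forall₂ E z.1 z.2 := by
  have : CE q fun z : List ℕ × List ℕ => z.1.length = z.2.length ∧
      ∀ i < z.1.length, E (z.1.getD i 0) (z.2.getD i 0) := by
    refine UCE.and (UCE.of_pr (by fun_prop)) (UCE.blt ?_ (by fun_prop))
    exact h.comp (f := fun w : (List ℕ × List ℕ) × ℕ => (w.1.1.getD w.2 0, w.1.2.getD w.2 0))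
      (by fun_prop)
  refine this.congr fun z => ?_
  rw [List.forall₂_iff_get]
  refine and_congr_right fun hl => ⟨fun h i hi => ?_, fun h i h1 h2 => ?_⟩
  · rw [List.getD_eq_getElem _ _ hi, List.getD_eq_getElem _ _ (hl ▸ hi)]
    exact h i hi (hl ▸ hi)
  · have := h i h1
    rwa [List.getD_eq_getElem _ _ h1, List.getD_eq_getElem _ _ h2] at this

/-- forcing conditions: a stem, a c.e. set of bad strings, a finite pool with small sets -/
structure Cond (q : ℕ → ℕ) (E : ℕ → ℕ → Prop) : Type 1 where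
  σ : List ℕ
  C : List ℕ → Prop
  ι : Type
  fin : Finite ι
  y : ι → ℕ
  I : Set (Set ι)
  ce : CE q C
  mono : ∀ τ τ', C τ → C (τ ++ τ')
  inv : ∀ τ τ', C τ → List.Forall₂ E τ τ' → C τ'
  top : Set.univ ∉ I
  blk : Blk (fun γ : List ι => C (σ ++ γ.map y)) id I

variable {q : ℕ → ℕ} {E : ℕ → ℕ → Prop}

theorem f2_refl (hE : Equivalence E) (l : List ℕ) : List.Forall₂ E l l :=
  List.forall₂_same.2 fun x _ => hE.refl x

theorem f2_symm (hE : Equivalence E) {l m : List ℕ} (h : List.Forall₂ E l m) :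
    List.Forall₂ E m l := (h.imp fun _ _ h => hE.symm h).flip

theorem f2_trans (hE : Equivalence E) {l m n : List ℕ} (h : List.Forall₂ E l m)
    (h' : List.Forall₂ E m n) : List.Forall₂ E l n := by
  induction h generalizing n with
  | nil => exact h'
  | cons h _ ih =>
    cases h' with
    | cons h1 h2 => exact .cons (hE.trans h h1) (ih h2)

theorem blk_shift (hE : Equivalence E) (c : Cond q E) {K : ℕ → Set c.ι} (hK : ∀ j, K j ∈ c.I)
    (h : ∀ γ : List c.ι, c.C (c.σ ++ γ.map c.y) → ∃ j k, γ[j]? = some k ∧ id k ∈ K j)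
    {γ0 : List c.ι} (h0 : ∀ j k, γ0[j]? = some k → k ∉ K j) {τ : List ℕ}
    (hτ : List.Forall₂ E τ (c.σ ++ γ0.map c.y)) :
    Blk (fun γ : List c.ι => c.C (τ ++ γ.map c.y)) id c.I := by
  refine ⟨fun j => K (γ0.length + j), fun j => hK _, fun γ hγ => ?_⟩
  obtain ⟨j, k, h1, h2⟩ := h (γ0 ++ γ) (c.inv _ _ hγ (by
    rw [List.map_append, ← List.append_assoc]
    exact List.rel_append hτ (f2_refl hE _)))
  rcases lt_or_ge j γ0.length with hj | hj
  · rw [List.getElem?_append_left hj] at h1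
    exact absurd h2 (h0 j k h1)
  · rw [List.getElem?_append_right hj] at h1
    exact ⟨_, k, h1, by beta_reduce; rwa [Nat.add_sub_cancel' hj]⟩

theorem Cond.grow (hE : Equivalence E) (c : Cond q E) :
    ∃ c' : Cond q E, c'.C = c.C ∧ ∃ v, c'.σ = c.σ ++ [v] := by
  obtain ⟨K, hK, h⟩ := c.blk
  obtain ⟨w, hw⟩ : ∃ w, w ∉ K 0 := by
    by_contra h
    push Not at h
    exact c.top (Set.eq_univ_of_forall h ▸ hK 0)
  exact ⟨{ c with
    σ := c.σ ++ [c.y w]
    blk := blk_shift hE c hK h (γ0 := [w]) (fun j k hj => by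
      cases j with
      | zero => exact (by simpa using hj : w = k) ▸ hw
      | succ j => simp at hj) (f2_refl hE _) }, rfl, _, rfl⟩

theorem Cond.step (hE : Equivalence E) (hce : CE q fun z : ℕ × ℕ => E z.1 z.2)
    (hN : ¬ ∃ g, TRed g q ∧ ∀ x, ¬ E (g x) x) (c : Cond q E) {d : List ℕ → ℕ → Option ℕ}
    (hd : Computable₂ d) {A : ℕ → Set ℕ} {h : ℕ → ℕ} (hh : TRed h q)
    (hA : ∀ n, ∀ v ∈ A n, v ≤ h n) (hn : ¬ ∃ f, TRed f q ∧ ∀ n, f n ∈ A n) :
    ∃ c' : Cond q E, c.σ <+: c'.σ ∧ (∀ τ, c.C τ → c'.C τ) ∧ ∀ g,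
      (∀ i < c'.σ.length, c'.σ.getD i 0 = g i) → (∀ k, ¬ c'.C (pre g k)) →
        ∀ f, Computes d (join q g) f → ∃ n, f n ∉ A n := by
  classical
  have := c.fin
  let _ := finCod c.ι
  let S : ℕ → ℕ → List ℕ → Prop := fun n b τ => c.C τ ∨
    ∃ τ', List.Forall₂ E (c.σ ++ τ') τ ∧ Out q d (c.σ ++ τ') n b
  have hS : CE q fun z : (ℕ × ℕ) × List ℕ => S z.1.1 z.1.2 z.2 := by
    refine UCE.or (c.ce.comp (by fun_prop)) ?_
    refine UCE.ex ?_
    exact UCE.and ((ce_forall₂ hce).comp (f := fun w : ((ℕ × ℕ) × List ℕ) × List ℕ =>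
      (c.σ ++ w.2, w.1.2)) (by fun_prop)) ((ce_out q hd).comp
        (f := fun w : ((ℕ × ℕ) × List ℕ) × List ℕ => (c.σ ++ w.2, w.1.1.1, w.1.1.2))
        (by fun_prop))
  have hinv : ∀ n b τ τ', S n b τ → List.Forall₂ E τ τ' → S n b τ' := by
    rintro n b τ τ' (h | ⟨τ1, h1, h2⟩) h'
    · exact Or.inl (c.inv _ _ h h')
    · exact Or.inr ⟨τ1, f2_trans hE h1 h', h2⟩
  have hmono : ∀ n b τ τ', S n b τ → S n b (τ ++ τ') := by
    rintro n b τ τ' (h | ⟨τ1, h1, h2⟩)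
    · exact Or.inl (c.mono _ _ h)
    · refine Or.inr ⟨τ1 ++ τ', ?_, ?_⟩ <;> rw [← List.append_assoc]
      · exact List.rel_append h1 (f2_refl hE _)
      · exact h2.mono _
  have hy : PR c.y := PR.finite _
  by_cases hcase : ∀ n, ∃ b, b ≤ h n ∧
      ¬ Blk (fun γ : List c.ι => S n b (c.σ ++ γ.map c.y)) id c.I
  · have h1 : CE q fun z : ℕ × ℕ => ∃ v, h z.1 = v ∧ z.2 ≤ v := by
      refine UCE.ex ?_
      exact UCE.and (hh.ce.comp (f := fun w : (ℕ × ℕ) × ℕ => (w.1.1, w.2)) (by fun_prop))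
        (UCE.of_pr (by fun_prop))
    have h2 : CE q fun z : ℕ × ℕ =>
        ¬ Blk (fun γ : List c.ι => S z.1 z.2 (c.σ ++ γ.map c.y)) id c.I :=
      ce_not_blk (D := fun (z : ℕ × ℕ) (γ : List c.ι) => S z.1 z.2 (c.σ ++ γ.map c.y))
        (hS.comp (f := fun w : (ℕ × ℕ) × List c.ι => (w.1, c.σ ++ w.2.map c.y)) (by fun_prop)) _ _
    have h3 : CE q fun z : ℕ × ℕ => z.2 ≤ h z.1 ∧
        ¬ Blk (fun γ : List c.ι => S z.1 z.2 (c.σ ++ γ.map c.y)) id c.I :=
      UCE.and (h1.congr fun z => by simp) h2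
    obtain ⟨f0, hf0, hf0'⟩ := CE.select (R := fun n b => b ≤ h n ∧
      ¬ Blk (fun γ : List c.ι => S n b (c.σ ++ γ.map c.y)) id c.I) h3 hcase
    obtain ⟨n, hn'⟩ : ∃ n, f0 n ∉ A n := by
      by_contra h
      push Not at h
      exact hn ⟨f0, hf0, h⟩
    obtain ⟨K, hK, hb⟩ := c.blk
    have := (hf0' n).2
    simp only [Blk, not_exists, not_and, not_forall] at this
    obtain ⟨γ0, hγ0, h0⟩ := this K hK
    rcases hγ0 with hγ0 | ⟨τ', h3, h4⟩
    · obtain ⟨j, k, h5, h6⟩ := hb γ0 hγ0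
      exact absurd h6 (h0 j k h5)
    · refine ⟨{ c with
        σ := c.σ ++ τ'
        blk := blk_shift hE c hK hb h0 h3 }, List.prefix_append _ _, fun _ h => h,
        fun g hg _ f hf => ⟨n, ?_⟩⟩
      rwa [h4.eq hg hf]
  · push Not at hcase
    obtain ⟨n, hb⟩ := hcase
    obtain ⟨z, hz⟩ := merge hE hN c.y c.I (B := Fin (h n + 1))
      (fun b τ => S n b (c.σ ++ τ))
      (fun b => hS.comp (f := fun τ : List ℕ => ((n, (b : ℕ)), c.σ ++ τ)) (by fun_prop))
      (fun b τ τ' h h' => hinv _ _ _ _ h (List.rel_append (f2_refl hE _) h'))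
      (fun b => hb b (Nat.lt_succ_iff.1 b.2))
    choose K hK hz using hz
    refine ⟨⟨c.σ, fun τ => ∃ b : Fin (h n + 1), S n b τ, Fin (h n + 1) → c.ι, inferInstance, z,
      {Z | ∃ T : Fin (h n + 1) → Set c.ι, (∀ b, T b ∈ c.I) ∧ Z = {w | ∃ b, w b ∈ T b}},
      UCE.finEx (U := fun (b : Fin (h n + 1)) _ τ => S n b τ) fun b =>
        hS.comp (f := fun τ : List ℕ => ((n, (b : ℕ)), τ)) (by fun_prop),
      fun τ τ' ⟨b, h⟩ => ⟨b, hmono _ _ _ _ h⟩, fun τ τ' ⟨b, h⟩ h' => ⟨b, hinv _ _ _ _ h h'⟩,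
      ?_, ?_⟩, List.prefix_rfl, fun τ h => ⟨0, Or.inl h⟩, fun g hg hC f hf => ⟨n, fun hfn => ?_⟩⟩
    · rintro ⟨T, hT, h⟩
      have : ∀ b, ∃ w, w ∉ T b := by
        intro b
        by_contra h
        push Not at h
        exact c.top (Set.eq_univ_of_forall h ▸ hT b)
      choose w hw using this
      obtain ⟨b, hb⟩ : w ∈ {w : Fin _ → c.ι | ∃ b, w b ∈ T b} := h ▸ Set.mem_univ w
      exact hw b hb
    · refine ⟨fun j => {w | ∃ b, w b ∈ K b j}, fun j => ⟨fun b => K b j, fun b => hK b j, rfl⟩,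
        fun γ ⟨b, h⟩ => ?_⟩
      obtain ⟨j, k, h1, h2⟩ := hz b γ h
      exact ⟨j, k, h1, b, h2⟩
    · obtain ⟨k, hk, ho⟩ := Out.of_computes hf n c.σ.length
      have : c.σ ++ (pre g k).drop c.σ.length = pre g k := by
        conv_rhs => rw [← List.take_append_drop c.σ.length (pre g k), take_pre g hk]
        congr 1
        refine List.ext_getElem (by simp) fun i h1 h2 => ?_
        simp only [pre, List.getElem_map, List.getElem_range]
        rw [← hg i h1, List.getD_eq_getElem _ _ h1]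
      exact hC k ⟨⟨f n, Nat.lt_succ_of_le (hA n _ hfn)⟩, Or.inr ⟨(pre g k).drop c.σ.length,
        by rw [this]; exact f2_refl hE _, by rwa [this]⟩⟩

theorem generic1 {C : Type 1} (le : C → C → Prop) (R : ℕ → C → Prop)
    (h : ∀ i c, ∃ c', le c c' ∧ R i c') (c0 : C) :
    ∃ s : ℕ → C, s 0 = c0 ∧ (∀ i, le (s i) (s (i + 1))) ∧ ∀ i, R i (s (i + 1)) := by
  choose f hf using h
  refine ⟨fun n => Nat.rec c0 (fun i c => f i c) n, rfl, fun i => (hf _ _).1, fun i => (hf _ _).2⟩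

theorem avoid (hE : Equivalence E) (hce : CE q fun z : ℕ × ℕ => E z.1 z.2)
    (h2 : ∃ a a', ¬ E a a') (A : ℕ → ℕ → Set ℕ) (h : ℕ → ℕ → ℕ) (hh : ∀ i, TRed (h i) q)
    (hA : ∀ i n, ∀ v ∈ A i n, v ≤ h i n) (hn : ∀ i, ¬ ∃ f, TRed f q ∧ ∀ n, f n ∈ A i n) :
    ∃ g, (∀ x, ¬ E (g x) x) ∧ ∀ i, ¬ ∃ f, TRed f (join q g) ∧ ∀ n, f n ∈ A i n := by
  classical
  by_cases hN : ∃ g, TRed g q ∧ ∀ x, ¬ E (g x) x
  · obtain ⟨g, hg, hg'⟩ := hN
    exact ⟨g, hg', fun i ⟨f, hf, hf'⟩ => hn i ⟨f, hf.trans ((TRed.refl q).join hg), hf'⟩⟩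
  obtain ⟨a, a', ha⟩ := h2
  obtain ⟨e, he⟩ := exists_enum
  let c0 : Cond q E := ⟨[], fun τ => ∃ x, x < τ.length ∧ E (τ.getD x 0) x, Bool, inferInstance,
    fun b => cond b a a', {Z | Z ≠ Set.univ}, by
      refine UCE.ex ?_
      exact UCE.and (UCE.of_pr (by fun_prop)) (hce.comp
        (f := fun w : List ℕ × ℕ => (w.1.getD w.2 0, w.2)) (by fun_prop)),
    fun τ τ' ⟨x, hx, h⟩ => ⟨x, by simp; omega, by rwa [List.getD_append _ _ _ _ hx]⟩,
    fun τ τ' ⟨x, hx, h⟩ h' => by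
      obtain ⟨h1, h2⟩ := List.forall₂_iff_get.1 h'
      refine ⟨x, h1 ▸ hx, hE.trans (hE.symm ?_) h⟩
      rw [List.getD_eq_getElem _ _ hx, List.getD_eq_getElem _ _ (h1 ▸ hx)]
      exact h2 x hx (h1 ▸ hx),
    by simp, ⟨fun x => {b | E (cond b a a') x}, fun x h => ha (by
      exact hE.trans (Set.eq_univ_iff_forall.1 h true)
        (hE.symm (Set.eq_univ_iff_forall.1 h false))), fun γ ⟨x, hx, h⟩ => by
        have hx' : x < γ.length := by simpa using hx
        refine ⟨x, γ[x], by simp, ?_⟩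
        rw [List.getD_eq_getElem _ _ hx] at h
        simpa using h⟩⟩
  obtain ⟨s, hs0, hs1, hs2⟩ := generic1 (C := Cond q E)
    (fun c c' => c.σ <+: c'.σ ∧ c.σ.length < c'.σ.length ∧ ∀ τ, c.C τ → c'.C τ)
    (fun i c' => Computable₂ (e i.unpair.1) → ∀ g, (∀ i < c'.σ.length, c'.σ.getD i 0 = g i) →
      (∀ k, ¬ c'.C (pre g k)) → ∀ f, Computes (e i.unpair.1) (join q g) f →
        ∃ n, f n ∉ A i.unpair.2 n) (by
      intro i c
      obtain ⟨c1, h1, v, h2⟩ := c.grow hE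
      by_cases hd : Computable₂ (e i.unpair.1)
      · obtain ⟨c2, h3, h4, h5⟩ := c1.step hE hce hN hd (hh _) (hA _) (hn i.unpair.2)
        have := h3.length_le
        refine ⟨c2, ⟨(h2 ▸ List.prefix_append _ _).trans h3, ?_, fun τ h => h4 τ (h1 ▸ h)⟩,
          fun _ => h5⟩
        rw [h2] at this
        simpa using this
      · exact ⟨c1, ⟨h2 ▸ List.prefix_append _ _, by simp [h2], fun τ h => h1 ▸ h⟩,
          fun h => absurd h hd⟩) c0
  obtain ⟨g, hg1, hg2⟩ := exists_limit (fun i n => (s i).σ.getD n 0) (fun i => (s i).σ.length)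
    (fun i => (hs1 i).2.1) (fun i n hn => by
      obtain ⟨t, ht⟩ := (hs1 i).1
      beta_reduce
      rw [← ht, List.getD_append _ _ _ _ hn])
  have hC : ∀ i j, i ≤ j → ∀ τ, (s i).C τ → (s j).C τ := by
    intro i j hij
    induction j, hij using Nat.le_induction with
    | base => exact fun _ h => h
    | succ j _ ih => exact fun τ h => (hs1 j).2.2 τ (ih τ h)
  have hno : ∀ i k, ¬ (s i).C (pre g k) := by
    intro i k hk
    have h1 := hC i (i + k) (by omega) _ hk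
    have h2 := hg2 (i + k)
    have h3 : (s (i + k)).σ = pre g (s (i + k)).σ.length := by
      refine List.ext_getElem (by simp) fun n h1 h2 => ?_
      simp only [pre, List.getElem_map, List.getElem_range]
      rw [← hg1 (i + k) n h1]
      exact (List.getD_eq_getElem _ _ h1).symm
    obtain ⟨K, -, hK⟩ := (s (i + k)).blk
    obtain ⟨j, k', h4, -⟩ := hK [] (by
      have := (s (i + k)).mono _ ((s (i + k)).σ.drop k) h1
      rw [← take_pre g (show k ≤ (s (i + k)).σ.length by omega), ← h3,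
        List.take_append_drop] at this
      simpa using this)
    simp at h4
  refine ⟨g, fun x hx => hno 0 (x + 1) ?_, fun i ⟨f, ⟨d, hd, hf⟩, hf'⟩ => ?_⟩
  · rw [hs0]
    exact ⟨x, by simp, by rwa [getD_pre g (Nat.lt_succ_self x)]⟩
  · obtain ⟨j, rfl⟩ := he d hd
    obtain ⟨n, hn⟩ := hs2 (Nat.pair j i) (by simpa using hd) g (hg1 _) (hno _) f
      (by simpa using hf)
    exact hn (by simpa using hf' n)

end Pool.Agent.Lib.MP_5e3ef6_lc
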