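import Pool.Agent.Lib.MP_5e3ef6_lc.NegDNC

namespace Pool.Agent.Lib.MP_5e3ef6_lc

def PP : Set (ℕ → ℕ) := {p | Equivalence (rel p) ∧ ¬ rel p 0 1}

theorem PP.dom {p : ℕ → ℕ} (h : p ∈ PP) : p ∈ DIAG.dom := ⟨h.1, 0, 1, h.2⟩

theorem exists_name (p : ℕ → ℕ) (k : ℕ) (E : ℕ → ℕ → Prop)
    (h : ∀ i < k, ∀ x y, p i = Nat.pair x y + 1 → E x y) :
    ∃ q, Agree k p q ∧ rel q = E := by
  classical
  refine ⟨fun i => if i < k then p i else
    if E (Nat.unpair (i - k)).1 (Nat.unpair (i - k)).2 then i - k + 1 else 0,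
    fun i hi => by simp [hi], ?_⟩
  funext x y
  apply propext
  constructor
  · rintro ⟨i, hi⟩
    dsimp only at hi
    split_ifs at hi with h1 h2
    · exact h i h1 x y hi
    · rw [Nat.succ_injective hi, Nat.unpair_pair] at h2
      exact h2
  · intro hE
    exact ⟨Nat.pair x y + k, by simp [hE]⟩

theorem baire (A : ℕ → Set (ℕ → ℕ)) (hcov : ∀ p ∈ PP, ∃ m, p ∈ A m)
    (hcl : ∀ m, ∀ p ∈ PP, p ∉ A m → ∃ k, ∀ p' ∈ PP, Agree k p p' → p' ∉ A m) :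
    ∃ m, ∃ p ∈ PP, ∃ k, ∀ p' ∈ PP, Agree k p p' → p' ∈ A m := by
  classical
  by_contra hcon
  push Not at hcon
  obtain ⟨p0, -, hp0⟩ := exists_name (fun _ => 0) 0 (fun x y => x = y) (by simp)
  have hp0' : p0 ∈ PP := by
    refine ⟨?_, ?_⟩ <;> rw [hp0]
    · exact eq_equivalence
    · simp
  obtain ⟨s, -, hs1, hs2⟩ := generic (C := PP × ℕ)
    (fun c c' => c.2 < c'.2 ∧ Agree c.2 c.1.1 c'.1.1)
    (fun i c' => (∀ q ∈ PP, Agree c'.2 c'.1.1 q → q ∉ A i) ∧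
      ∀ x < i, ∀ y < i, rel c'.1.1 x y → ∃ j < c'.2, c'.1.1 j = Nat.pair x y + 1)
    (by
      intro i c
      obtain ⟨p', hp', hA, hn⟩ := hcon i c.1.1 c.1.2 c.2
      obtain ⟨k1, hk1⟩ := hcl i p' hp' hn
      have : ∀ a : ℕ × ℕ, ∃ j, rel p' a.1 a.2 → p' j = Nat.pair a.1 a.2 + 1 := by
        intro a
        by_cases h : rel p' a.1 a.2
        · obtain ⟨j, hj⟩ := h
          exact ⟨j, fun _ => hj⟩
        · exact ⟨0, fun h' => absurd h' h⟩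
      choose I hI using this
      refine ⟨(⟨p', hp'⟩, c.2 + 1 + k1 + (Finset.range i ×ˢ Finset.range i).sup I),
        ⟨by dsimp only; omega, hA⟩, fun q hq h => hk1 q hq (h.mono (by dsimp only; omega)),
        fun x hx y hy h => ⟨I (x, y), ?_, hI (x, y) h⟩⟩
      have := Finset.le_sup (f := I) (s := Finset.range i ×ˢ Finset.range i) (b := (x, y))
        (by simp [hx, hy])
      dsimp only
      omega) (⟨p0, hp0'⟩, 0)
  obtain ⟨q, hq1, hq2⟩ := exists_limit (fun i => (s i).1.1) (fun i => (s i).2)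
    (fun i => (hs1 i).1) (fun i => (hs1 i).2)
  have up : ∀ i x y, x < i → y < i → rel (s (i + 1)).1.1 x y → rel q x y := by
    intro i x y hx hy h
    obtain ⟨j, hj, h⟩ := (hs2 i).2 x hx y hy h
    exact rel_of_agree (hq1 _) hj h
  have down : ∀ i j x y, j < i → q j = Nat.pair x y + 1 → rel (s (i + 1)).1.1 x y := by
    intro i j x y hj h
    have := hq2 (i + 1)
    exact rel_of_agree (hq1 _).symm (by omega) h
  have hq : q ∈ PP := by
    refine ⟨⟨fun x => up (x + 1) x x (by omega) (by omega) ((s _).1.2.1.refl x), ?_, ?_⟩, ?_⟩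
    · rintro x y ⟨j, hj⟩
      exact up (j + x + y + 1) y x (by omega) (by omega)
        ((s _).1.2.1.symm (down _ j x y (by omega) hj))
    · rintro x y z ⟨j, hj⟩ ⟨j', hj'⟩
      exact up (j + j' + x + z + 1) x z (by omega) (by omega)
        ((s _).1.2.1.trans (down _ j x y (by omega) hj) (down _ j' y z (by omega) hj'))
    · rintro ⟨j, hj⟩
      exact (s (j + 1 + 1)).1.2.2 (down (j + 1) j 0 1 (by omega) hj)
  obtain ⟨m, hm⟩ := hcov q hq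
  exact (hs2 m).1 q hq (hq1 _) hm

theorem join_ev (p q : ℕ → ℕ) : (fun n => join p q (2 * n)) = p := by
  funext n
  simp [join]

theorem join_od (p q : ℕ → ℕ) : (fun n => join p q (2 * n + 1)) = q := by
  funext n
  have h1 : (2 * n + 1) % 2 = 1 := by omega
  have h2 : (2 * n + 1) / 2 = n := by omega
  simp [join, h1, h2]

theorem split {Q : Problem} (R : CRed DIAG (prod CN Q)) (b m : ℕ)
    (hQ : ∀ r ∈ Q.dom, ∀ X : ℕ → Fin b, (fun n => (X n : ℕ)) ∉ Q.sol r →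
      ∃ j, ∀ r' ∈ Q.dom, ∀ X' : ℕ → Fin b, Agree j r r' → Agree j X X' →
        (fun n => (X' n : ℕ)) ∉ Q.sol r')
    {p0 : ℕ → ℕ} (hp0 : p0 ∈ PP) (k0 : ℕ)
    (hm : ∀ p ∈ PP, Agree k0 p0 p → ∀ i, R.Φ p (2 * i) ≠ m + 1) :
    ∃ pa ∈ PP, ∃ pb ∈ PP, Agree k0 p0 pa ∧ Agree k0 p0 pb ∧ ∀ X : ℕ → Fin b,
      (fun n => (X n : ℕ)) ∈ Q.sol (fun n => R.Φ pa (2 * n + 1)) →
      (fun n => (X n : ℕ)) ∉ Q.sol (fun n => R.Φ pb (2 * n + 1)) := by
  classical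
  obtain ⟨x, hx2, hx⟩ : ∃ x, 2 ≤ x ∧ ∀ i < k0, ∀ u v, p0 i = Nat.pair u v + 1 → u ≠ x ∧ v ≠ x := by
    refine ⟨(Finset.range k0).sup p0 + 2, by omega, fun i hi u v h => ?_⟩
    have h1 := Finset.le_sup (f := p0) (Finset.mem_range.2 hi)
    have h2 := Nat.left_le_pair u v
    have h3 := Nat.right_le_pair u v
    omega
  obtain ⟨p1, hA1, hp1⟩ := exists_name p0 k0 (fun u v => u = v ∨ (u ≠ x ∧ v ≠ x ∧ rel p0 u v))
    (fun i hi u v h => Or.inr ⟨(hx i hi u v h).1, (hx i hi u v h).2, i, h⟩)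
  have hE1 : Equivalence (rel p1) := by
    rw [hp1]
    refine ⟨fun _ => Or.inl rfl, ?_, ?_⟩
    · rintro u v (h | ⟨h1, h2, h3⟩)
      · exact Or.inl h.symm
      · exact Or.inr ⟨h2, h1, hp0.1.symm h3⟩
    · rintro u v w (h | ⟨h1, h2, h3⟩) (h' | ⟨h4, h5, h6⟩)
      · exact Or.inl (h.trans h')
      · exact Or.inr ⟨h ▸ h4, h5, h ▸ h6⟩
      · exact Or.inr ⟨h1, h' ▸ h2, h' ▸ h3⟩
      · exact Or.inr ⟨h1, h5, hp0.1.trans h3 h6⟩
  have h01 : ¬ rel p1 0 1 := by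
    rw [hp1]
    rintro (h | ⟨-, -, h⟩)
    · omega
    · exact hp0.2 h
  have hxs : ∀ u, rel p1 u x → u = x := by
    rw [hp1]
    rintro u (h | ⟨-, h, -⟩)
    · exact h
    · exact absurd rfl h
  have hP1 : p1 ∈ PP := ⟨hE1, h01⟩
  let J : (ℕ → Fin b) → ℕ → ℕ := fun X => join (fun _ => m) (fun n => (X n : ℕ))
  have hJ : ∀ p ∈ PP, Agree k0 p0 p → ∀ X : ℕ → Fin b,
      (fun n => (X n : ℕ)) ∈ Q.sol (fun n => R.Φ p (2 * n + 1)) →
      J X ∈ (prod CN Q).sol (R.Φ p) := by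
    intro p hp hA X hX
    refine ⟨?_, ?_⟩
    · simp only [J, join_ev]
      exact hm p hp hA
    · simp only [J, join_od]
      exact hX
  obtain ⟨l, hl⟩ := uniform (α := Fin b) (fun X k =>
      (∀ p' ∈ DIAG.dom, ∀ q' ∈ (prod CN Q).sol (R.Φ p'), Agree k p1 p' → Agree k (J X) q' →
        R.Ψ p1 (J X) x = R.Ψ p' q' x) ∨
      ∀ p' ∈ DIAG.dom, ∀ X' : ℕ → Fin b, Agree k p1 p' → Agree k X X' →
        (fun n => (X' n : ℕ)) ∉ Q.sol (fun n => R.Φ p' (2 * n + 1))) (by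
    intro X
    by_cases hX : (fun n => (X n : ℕ)) ∈ Q.sol (fun n => R.Φ p1 (2 * n + 1))
    · obtain ⟨k, hk⟩ := R.cΨ p1 (PP.dom hP1) _ (hJ p1 hP1 hA1 X hX) (x + 1)
      exact ⟨k, Or.inl fun p' hp' q' hq' h1 h2 => hk p' hp' q' hq' h1 h2 x (Nat.lt_succ_self x)⟩
    · obtain ⟨j, hj⟩ := hQ _ (R.dom p1 (PP.dom hP1)).2 X hX
      obtain ⟨k, hk⟩ := R.cΦ p1 (PP.dom hP1) (2 * j + 2)
      refine ⟨max j k, Or.inr fun p' hp' X' h1 h2 => hj _ (R.dom p' hp').2 X' ?_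
        (h2.mono (le_max_left _ _))⟩
      intro i hi
      exact hk p' hp' (h1.mono (le_max_right _ _)) _ (by omega))
  obtain ⟨pa, hAa, hpa⟩ := exists_name p1 (max l k0) (fun u v => rel p1 u 1 ↔ rel p1 v 1)
    (fun i _ u v h => ⟨fun h' => hE1.trans (hE1.symm ⟨i, h⟩) h', fun h' => hE1.trans ⟨i, h⟩ h'⟩)
  obtain ⟨pb, hAb, hpb⟩ := exists_name p1 (max l k0)
    (fun u v => (rel p1 u 1 ∨ rel p1 u x) ↔ (rel p1 v 1 ∨ rel p1 v x))
    (fun i _ u v h => ⟨fun h' => h'.imp (hE1.trans (hE1.symm ⟨i, h⟩)) (hE1.trans (hE1.symm ⟨i, h⟩)),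
      fun h' => h'.imp (hE1.trans ⟨i, h⟩) (hE1.trans ⟨i, h⟩)⟩)
  have hPa : pa ∈ PP := by
    refine ⟨?_, ?_⟩ <;> rw [hpa]
    · exact ⟨fun _ => Iff.rfl, Iff.symm, Iff.trans⟩
    · exact fun h => h01 (h.2 (hE1.refl 1))
  have hPb : pb ∈ PP := by
    refine ⟨?_, ?_⟩ <;> rw [hpb]
    · exact ⟨fun _ => Iff.rfl, Iff.symm, Iff.trans⟩
    · intro h
      rcases h.2 (Or.inl (hE1.refl 1)) with h | h
      · exact h01 h
      · have := hxs 0 h
        omega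
  have hAa' : Agree k0 p0 pa := hA1.trans (hAa.mono (le_max_right _ _))
  have hAb' : Agree k0 p0 pb := hA1.trans (hAb.mono (le_max_right _ _))
  refine ⟨pa, hPa, pb, hPb, hAa', hAb', fun X hXa hXb => ?_⟩
  obtain ⟨X0, k, hk, h | h, hX0⟩ := hl X
  · have hJA : Agree k (J X0) (J X) :=
      (Agree.refl k _).join (fun i hi => by rw [hX0 i hi])
    have ha := h pa (PP.dom hPa) _ (hJ pa hPa hAa' X hXa)
      (hAa.mono (hk.trans (le_max_left _ _))) hJA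
    have hb := h pb (PP.dom hPb) _ (hJ pb hPb hAb' X hXb)
      (hAb.mono (hk.trans (le_max_left _ _))) hJA
    have sa := R.sol pa (PP.dom hPa) _ (hJ pa hPa hAa' X hXa) x
    have sb := R.sol pb (PP.dom hPb) _ (hJ pb hPb hAb' X hXb) x
    rw [← ha, hpa] at sa
    rw [← hb, hpb] at sb
    have hx1 : ¬ rel p1 x 1 := fun h => by
      have := hxs 1 (hE1.symm h)
      omega
    by_cases hy : rel p1 (R.Ψ p1 (J X0) x) 1
    · exact sb ⟨fun _ => Or.inr (hE1.refl x), fun _ => Or.inl hy⟩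
    · exact sa ⟨fun h => absurd h hy, fun h => absurd h hx1⟩
  · exact h pa (PP.dom hPa) X (hAa.mono (hk.trans (le_max_left _ _))) hX0 hXa

theorem cn_closed {Q : Problem} (R : CRed DIAG (prod CN Q)) (m : ℕ) {p : ℕ → ℕ} (hp : p ∈ PP)
    (h : ¬ ∀ i, R.Φ p (2 * i) ≠ m + 1) :
    ∃ k, ∀ p' ∈ PP, Agree k p p' → ¬ ∀ i, R.Φ p' (2 * i) ≠ m + 1 := by
  push Not at h
  obtain ⟨i, hi⟩ := h
  obtain ⟨k, hk⟩ := R.cΦ p (PP.dom hp) (2 * i + 1)
  refine ⟨k, fun p' hp' hA h => h i ?_⟩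
  rw [← hk p' (PP.dom hp') hA _ (Nat.lt_succ_self _), hi]

theorem not_diag_cn_dnc (K : ℕ∞) (hK : 3 ≤ K) (R : CRed DIAG (prod CN (DNC K))) : False := by
  obtain ⟨m, p0, hp0, k0, hm⟩ := baire (fun m => {p | ∀ i, R.Φ p (2 * i) ≠ m + 1})
    (fun p hp => (R.dom p (PP.dom hp)).1) (fun m p hp h => cn_closed R m hp h)
  have hlt : ∀ a : Fin 3, ((a : ℕ) : ℕ∞) < K := fun a =>
    lt_of_lt_of_le (by exact_mod_cast a.2) hK
  obtain ⟨pa, hpa, pb, hpb, -, -, h⟩ := split R 3 m (by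
    intro r _ X hX
    have : ∃ n, rel r n (X n) := by
      by_contra hc
      push Not at hc
      exact hX fun n => ⟨hlt _, hc n⟩
    obtain ⟨n, i, hi⟩ := this
    refine ⟨n + i + 1, fun r' _ X' h1 h2 h => (h n).2 ⟨i, ?_⟩⟩
    rw [← h1 i (by omega), hi, h2 n (by omega)]) hp0 k0 hm
  have ha := (R.dom pa (PP.dom hpa)).2
  have hb := (R.dom pb (PP.dom hpb)).2
  have : ∀ n, ∃ a : Fin 3, ¬ rel (fun n => R.Φ pa (2 * n + 1)) n a ∧
      ¬ rel (fun n => R.Φ pb (2 * n + 1)) n a := by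
    intro n
    by_contra hc
    push Not at hc
    by_cases h0 : rel (fun n => R.Φ pa (2 * n + 1)) n (0 : Fin 3)
    · have h1 : ¬ rel (fun n => R.Φ pa (2 * n + 1)) n (1 : Fin 3) := fun h =>
        absurd (ha n _ _ h0 h) (by simp)
      have h2 : ¬ rel (fun n => R.Φ pa (2 * n + 1)) n (2 : Fin 3) := fun h =>
        absurd (ha n _ _ h0 h) (by simp)
      exact absurd (hb n _ _ (hc 1 h1) (hc 2 h2)) (by simp)
    · by_cases h1 : rel (fun n => R.Φ pa (2 * n + 1)) n (1 : Fin 3)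
      · have h2 : ¬ rel (fun n => R.Φ pa (2 * n + 1)) n (2 : Fin 3) := fun h =>
          absurd (ha n _ _ h1 h) (by simp)
        exact absurd (hb n _ _ (hc 0 h0) (hc 2 h2)) (by simp)
      · exact absurd (hb n _ _ (hc 0 h0) (hc 1 h1)) (by simp)
  choose X hX using this
  exact h X (fun n => ⟨hlt _, (hX n).1⟩) (fun n => ⟨hlt _, (hX n).2⟩)

end Pool.Agent.Lib.MP_5e3ef6_lc
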