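import Pool.Agent.Lib.MP_5e3ef6_lc.DefsM

namespace Pool.Agent.Lib.MP_5e3ef6_lc

/-- Turing reducibility of `f` to the oracle `p` -/
def TRed (f p : ℕ → ℕ) : Prop :=
  ∃ c : List ℕ → ℕ → Option ℕ, Computable₂ c ∧ Computes c p f

/-- diagonally non-recursive functions -/
def DNR (f : ℕ → ℕ) : Prop := ∀ n, f n ∉ (Denumerable.ofNat Nat.Partrec.Code n).eval n

/-- Turing ideals -/
def TIdeal (J : Set (ℕ → ℕ)) : Prop :=
  J.Nonempty ∧ (∀ f ∈ J, ∀ g ∈ J, join f g ∈ J) ∧ ∀ g ∈ J, ∀ f, TRed f g → f ∈ J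

end Pool.Agent.Lib.MP_5e3ef6_lc
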