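import Pool.Agent.Lib.MP_5e3ef6_lc.Upper
import Pool.Agent.Lib.MP_5e3ef6_lc.DefsT

namespace Pool.Agent.Lib.MP_5e3ef6_lc

namespace PR

variable {α β γ : Type} [Primcodable α] [Primcodable β] [Primcodable γ]

@[fun_prop] theorem append {f g : α → List β} (hf : PR f) (hg : PR g) :
    PR fun a => f a ++ g a := Primrec.list_append.comp hf hg
@[fun_prop] theorem cons {f : α → β} {g : α → List β} (hf : PR f) (hg : PR g) :
    PR fun a => f a :: g a := Primrec.list_cons.comp hf hg
@[fun_prop] theorem drop {f : α → List β} {g : α → ℕ} (hf : PR f) (hg : PR g) :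
    PR fun a => (f a).drop (g a) := Primrec.list_drop.comp hg hf
@[fun_prop] theorem getElem? {f : α → List β} {g : α → ℕ} (hf : PR f) (hg : PR g) :
    PR fun a => (f a)[g a]? := Primrec.list_getElem?.comp hf hg
@[fun_prop] theorem flatMap {f : α → List β} {g : α → β → List γ} (hf : PR f)
    (hg : PR fun x : α × β => g x.1 x.2) : PR fun a => (f a).flatMap (g a) :=
  Primrec.list_flatMap hf hg
@[fun_prop] theorem optMap {f : α → Option β} {g : α → β → γ} (hf : PR f)
    (hg : PR fun x : α × β => g x.1 x.2) : PR fun a => (f a).map (g a) :=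
  Primrec.option_map hf hg
@[fun_prop] theorem succ {f : α → ℕ} (hf : PR f) : PR fun a => (f a).succ :=
  Primrec.succ.comp hf

theorem finite [Finite α] (f : α → β) : PR f := Primrec.dom_finite f

theorem natRec {f : α → ℕ} {g : α → β} {h : α → ℕ → β → β} (hf : PR f) (hg : PR g)
    (hh : PR fun x : α × ℕ × β => h x.1 x.2.1 x.2.2) :
    PR fun a => (Nat.rec (g a) (h a) (f a) : β) :=
  Primrec.nat_rec' (h := fun a x => h a x.1 x.2) hf hg hh

@[fun_prop] theorem pow {f g : α → ℕ} (hf : PR f) (hg : PR g) : PR fun a => f a ^ g a := by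
  have : PR fun a => (Nat.rec 1 (fun _ b => b * f a) (g a) : ℕ) :=
    natRec hg (const 1) (by fun_prop)
  refine this.of_eq fun a => ?_
  induction g a with
  | zero => simp
  | succ n ih => simp [pow_succ, ← ih]

end PR

variable {O α β γ : Type} [Primcodable α] [Primcodable β] [Primcodable γ]

/-- predicates that are c.e. uniformly in the oracle `o x` -/
def UCE (o : O → ℕ → ℕ) (R : O → α → Prop) : Prop :=
  ∃ c : List ℕ → α → Bool, PR (fun z : List ℕ × α => c z.1 z.2) ∧
    (∀ x a k j, k ≤ j → c (pre (o x) k) a = true → c (pre (o x) j) a = true) ∧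
    ∀ x a, R x a ↔ ∃ k, c (pre (o x) k) a = true

namespace UCE

variable {o : O → ℕ → ℕ}

theorem mk' {R : O → α → Prop} (c : List ℕ → α → Bool)
    (hc : PR (fun z : List ℕ × α => c z.1 z.2))
    (h : ∀ x a, R x a ↔ ∃ k, c (pre (o x) k) a = true) : UCE o R := by
  have key : ∀ x k a, (List.range ((pre (o x) k).length + 1)).any
      (fun j => c ((pre (o x) k).take j) a) = true ↔ ∃ j ≤ k, c (pre (o x) j) a = true := by
    intro x k a
    simp only [length_pre, List.any_eq_true, List.mem_range, Nat.lt_succ_iff]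
    exact exists_congr fun j => and_congr_right fun hj => by rw [take_pre _ hj]
  refine ⟨fun l a => (List.range (l.length + 1)).any (fun j => c (l.take j) a), by fun_prop,
    fun x a k j hkj => ?_, fun x a => ?_⟩
  · simp only [key]
    rintro ⟨i, hi, h⟩
    exact ⟨i, hi.trans hkj, h⟩
  · simp only [key, h]
    exact ⟨fun ⟨k, hk⟩ => ⟨k, k, le_rfl, hk⟩, fun ⟨_, k, _, hk⟩ => ⟨k, hk⟩⟩

theorem of_iff {R S : O → α → Prop} (h : UCE o R) (H : ∀ x a, S x a ↔ R x a) : UCE o S := by
  obtain ⟨c, h1, h2, h3⟩ := h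
  exact ⟨c, h1, h2, fun x a => (H x a).trans (h3 x a)⟩

theorem of_bool {f : α → Bool} (hf : PR f) : UCE o fun _ a => f a = true :=
  mk' (fun _ a => f a) (by fun_prop) (fun _ _ => by simp)

theorem of_pr {R : α → Prop} [DecidablePred R] (hf : PR fun a => decide (R a)) :
    UCE o fun _ a => R a := (of_bool hf).of_iff fun _ _ => by simp

theorem comp {R : O → α → Prop} (h : UCE o R) {f : β → α} (hf : PR f) :
    UCE o fun x b => R x (f b) := by
  obtain ⟨c, h1, h2, h3⟩ := h
  exact ⟨fun l b => c l (f b), by fun_prop, fun x b => h2 x (f b), fun x b => h3 x (f b)⟩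

theorem pull {O' : Type} {R : O → α → Prop} (h : UCE o R) (t : O' → O) :
    UCE (fun x => o (t x)) fun x a => R (t x) a := by
  obtain ⟨c, h1, h2, h3⟩ := h
  exact ⟨c, h1, fun x => h2 (t x), fun x => h3 (t x)⟩

theorem and {R S : O → α → Prop} (h : UCE o R) (h' : UCE o S) :
    UCE o fun x a => R x a ∧ S x a := by
  obtain ⟨c, h1, h2, h3⟩ := h
  obtain ⟨d, h4, h5, h6⟩ := h'
  refine mk' (fun l a => c l a && d l a) (by fun_prop) fun x a => ?_
  simp only [h3, h6, Bool.and_eq_true]
  constructor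
  · rintro ⟨⟨k, hk⟩, j, hj⟩
    exact ⟨max k j, h2 _ _ _ _ (le_max_left _ _) hk, h5 _ _ _ _ (le_max_right _ _) hj⟩
  · rintro ⟨k, hk, hk'⟩
    exact ⟨⟨k, hk⟩, k, hk'⟩

theorem or {R S : O → α → Prop} (h : UCE o R) (h' : UCE o S) :
    UCE o fun x a => R x a ∨ S x a := by
  obtain ⟨c, h1, -, h3⟩ := h
  obtain ⟨d, h4, -, h6⟩ := h'
  refine mk' (fun l a => c l a || d l a) (by fun_prop) fun x a => ?_
  simp only [h3, h6, Bool.or_eq_true, exists_or]

theorem ex {R : O → α → β → Prop} (h : UCE o fun x (z : α × β) => R x z.1 z.2) :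
    UCE o fun x a => ∃ b, R x a b := by
  obtain ⟨c, h1, h2, h3⟩ := h
  refine mk' (fun l a => (List.range l.length).any fun i =>
    ((Encodable.decode i : Option β).map fun b => c l (a, b)).getD false) (by fun_prop)
    fun x a => ?_
  simp only [length_pre, List.any_eq_true, List.mem_range]
  constructor
  · rintro ⟨b, hb⟩
    obtain ⟨k, hk⟩ := (h3 x (a, b)).1 hb
    refine ⟨max k (Encodable.encode b + 1), Encodable.encode b, by omega, ?_⟩
    simpa using h2 _ _ _ _ (le_max_left _ _) hk
  · rintro ⟨k, i, -, h⟩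
    cases hb : (Encodable.decode i : Option β) with
    | none => simp [hb] at h
    | some b =>
      simp only [hb, Option.map_some, Option.getD_some] at h
      exact ⟨b, (h3 x (a, b)).2 ⟨k, h⟩⟩

theorem ball {R : O → α → β → Prop} (h : UCE o fun x (z : α × β) => R x z.1 z.2)
    {L : α → List β} (hL : PR L) : UCE o fun x a => ∀ b ∈ L a, R x a b := by
  obtain ⟨c, h1, h2, h3⟩ := h
  refine mk' (fun l a => (L a).all fun b => c l (a, b)) (by fun_prop) fun x a => ?_
  simp only [List.all_eq_true]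
  constructor
  · generalize L a = m
    intro h
    induction m with
    | nil => exact ⟨0, by simp⟩
    | cons b m ih =>
      obtain ⟨k, hk⟩ := ih fun b hb => h b (List.mem_cons_of_mem _ hb)
      obtain ⟨j, hj⟩ := (h3 x (a, b)).1 (h b List.mem_cons_self)
      refine ⟨max k j, fun b' hb' => ?_⟩
      rcases List.mem_cons.1 hb' with rfl | hb'
      · exact h2 _ _ _ _ (le_max_right _ _) hj
      · exact h2 _ _ _ _ (le_max_left _ _) (hk b' hb')
  · rintro ⟨k, hk⟩ b hb
    exact (h3 x (a, b)).2 ⟨k, hk b hb⟩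

theorem blt {R : O → α → ℕ → Prop} (h : UCE o fun x (z : α × ℕ) => R x z.1 z.2)
    {L : α → ℕ} (hL : PR L) : UCE o fun x a => ∀ b < L a, R x a b :=
  (ball h (L := fun a => List.range (L a)) (by fun_prop)).of_iff fun _ _ => by simp

theorem imp {R : O → α → Prop} (h : UCE o R) {S : α → Prop} [DecidablePred S]
    (hS : PR fun a => decide (S a)) : UCE o fun x a => S a → R x a :=
  ((of_pr (R := fun a => ¬ S a) (by fun_prop)).or h).of_iff fun _ _ => imp_iff_not_or

theorem isPre : UCE o fun x (l : List ℕ) => l = pre (o x) l.length := by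
  refine mk' (fun l' l => decide (l = l')) (by fun_prop) fun x l => ?_
  simp only [decide_eq_true_eq]
  exact ⟨fun h => ⟨_, h⟩, fun ⟨k, hk⟩ => by rw [hk, length_pre]⟩

theorem oracle : UCE o fun x (z : ℕ × ℕ) => o x z.1 = z.2 := by
  refine mk' (fun l z => decide (z.1 < l.length ∧ l.getD z.1 0 = z.2)) (by fun_prop) fun x z => ?_
  simp only [decide_eq_true_eq, length_pre]
  exact ⟨fun h => ⟨z.1 + 1, by omega, by rw [getD_pre _ (by omega), h]⟩,
    fun ⟨k, hk, h⟩ => by rwa [getD_pre _ hk] at h⟩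

theorem partrec {f : α →. β} (hf : Partrec f) : UCE o fun _ (z : α × β) => z.2 ∈ f z.1 := by
  obtain ⟨e, he⟩ := Nat.Partrec.Code.exists_code.1 hf
  have h1 : PR fun a : (ℕ × Nat.Partrec.Code) × ℕ => Nat.Partrec.Code.evaln a.1.1 a.1.2 a.2 :=
    Nat.Partrec.Code.primrec_evaln
  have h2 : PR fun z : List ℕ × α × β =>
      Nat.Partrec.Code.evaln z.1.length e (Encodable.encode z.2.1) :=
    PR.comp (f := fun z : List ℕ × α × β => ((z.1.length, e), Encodable.encode z.2.1)) h1
      (by fun_prop)
  refine mk' (fun l z => decide (Nat.Partrec.Code.evaln l.length e (Encodable.encode z.1) =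
    some (Encodable.encode z.2))) (PR.dec_eq h2 (by fun_prop)) fun x z => ?_
  simp only [decide_eq_true_eq, length_pre]
  have := @Nat.Partrec.Code.evaln_complete e (Encodable.encode z.1) (Encodable.encode z.2)
  simp only [Option.mem_def] at this
  rw [← this, he]
  simp

theorem graph {f : α → β} (hf : Computable f) : UCE o fun _ (z : α × β) => f z.1 = z.2 :=
  (partrec hf).of_iff fun _ _ => by simp [eq_comm]

theorem select {R : O → ℕ → ℕ → Prop} (h : UCE o fun x (z : ℕ × ℕ) => R x z.1 z.2)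
    (ht : ∀ x n, ∃ v, R x n v) :
    ∃ c, Computable₂ c ∧ ∀ x, ∃ f, Computes c (o x) f ∧ ∀ n, R x n (f n) := by
  classical
  obtain ⟨c, h1, h2, h3⟩ := h
  let d : List ℕ → ℕ → Option ℕ := fun l n =>
    (List.range l.length).foldl (fun r v => if c l (n, v) = true then some v else r) none
  have hd : ∀ (l : List ℕ) n (m : List ℕ) (r : Option ℕ),
      (∀ v, m.foldl (fun r v => if c l (n, v) = true then some v else r) r = some v →
        r = some v ∨ c l (n, v) = true) ∧
      (m.foldl (fun r v => if c l (n, v) = true then some v else r) r = none →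
        r = none ∧ ∀ v ∈ m, ¬ c l (n, v) = true) := by
    intro l n m
    induction m with
    | nil => exact fun r => ⟨fun v h => Or.inl h, fun h => ⟨h, by simp⟩⟩
    | cons a m ih =>
      intro r
      simp only [List.foldl_cons, List.mem_cons, forall_eq_or_imp]
      refine ⟨fun v hv => ?_, fun hv => ?_⟩
      · rcases (ih _).1 v hv with h | h
        · split_ifs at h with ha
          · exact Or.inr (Option.some.inj h ▸ ha)
          · exact Or.inl h
        · exact Or.inr h
      · obtain ⟨h, h'⟩ := (ih _).2 hv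
        split_ifs at h with ha
        exact ⟨h, ha, h'⟩
  refine ⟨d, PR.computable₂ (by simp only [d]; fun_prop), fun x => ?_⟩
  have hex : ∀ n, ∃ k, d (pre (o x) k) n ≠ none := by
    intro n
    obtain ⟨v, hv⟩ := ht x n
    obtain ⟨k, hk⟩ := (h3 x (n, v)).1 hv
    refine ⟨max k (v + 1), fun h => ((hd _ n _ none).2 h).2 v (by simp) ?_⟩
    exact h2 _ _ _ _ (le_max_left _ _) hk
  choose f hf using fun n => Option.ne_none_iff_exists'.1 (Nat.find_spec (hex n))
  refine ⟨f, fun n => ⟨_, hf n, fun j hj => by simpa using Nat.find_min (hex n) hj⟩, fun n => ?_⟩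
  rcases (hd _ n _ none).1 _ (hf n) with h | h
  · cases h
  · exact (h3 x (n, f n)).2 ⟨_, h⟩

theorem computes {F : O → ℕ → ℕ} (h : UCE o fun x (z : ℕ × ℕ) => F x z.1 = z.2) :
    ∃ c, Computable₂ c ∧ ∀ x, Computes c (o x) (F x) := by
  obtain ⟨c, hc, h⟩ := select h fun x n => ⟨_, rfl⟩
  refine ⟨c, hc, fun x => ?_⟩
  obtain ⟨f, hf, hf'⟩ := h x
  rwa [show F x = f from funext hf']

theorem of_computes {F : O → ℕ → ℕ} {c : List ℕ → ℕ → Option ℕ} (hc : Computable₂ c)
    (h : ∀ x, Computes c (o x) (F x)) : UCE o fun x (z : ℕ × ℕ) => F x z.1 = z.2 := by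
  have hg : UCE o fun _ (z : (List ℕ × ℕ) × Option ℕ) => c z.1.1 z.1.2 = z.2 := graph hc
  have : UCE o fun x (z : ℕ × ℕ) => ∃ l : List ℕ, l = pre (o x) l.length ∧
      c l z.1 = some z.2 ∧ ∀ j < l.length, c (l.take j) z.1 = none := by
    refine ex (and (isPre.comp (f := fun w : (ℕ × ℕ) × List ℕ => w.2) (by fun_prop)) (and ?_ ?_))
    · exact hg.comp (f := fun w : (ℕ × ℕ) × List ℕ => ((w.2, w.1.1), some w.1.2)) (by fun_prop)
    · exact blt (hg.comp (f := fun w : ((ℕ × ℕ) × List ℕ) × ℕ =>
        ((w.1.2.take w.2, w.1.1.1), none)) (by fun_prop)) (by fun_prop)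
  refine this.of_iff fun x z => ?_
  obtain ⟨k, hk, hk'⟩ := h x z.1
  constructor
  · intro hz
    refine ⟨pre (o x) k, by simp, hz ▸ hk, fun j hj => ?_⟩
    rw [length_pre] at hj
    rw [take_pre _ hj.le]
    exact hk' j hj
  · rintro ⟨l, hl, h1, h2⟩
    rcases lt_trichotomy k l.length with h | h | h
    · have := h2 k h
      rw [hl, take_pre _ h.le, hk] at this
      cases this
    · rw [hl, ← h, hk] at h1
      exact Option.some.inj h1
    · rw [hl, hk' _ h] at h1
      cases h1

theorem isPre' {F : O → ℕ → ℕ} (hF : UCE o fun x (z : ℕ × ℕ) => F x z.1 = z.2) :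
    UCE o fun x (l : List ℕ) => l = pre (F x) l.length := by
  have : UCE o fun x (l : List ℕ) => ∀ i < l.length, F x i = l.getD i 0 :=
    blt (hF.comp (f := fun w : List ℕ × ℕ => (w.2, w.1.getD w.2 0)) (by fun_prop)) (by fun_prop)
  refine this.of_iff fun x l => ⟨fun h i hi => ?_, fun h => ?_⟩
  · rw [h, getD_pre _ hi]
  · refine List.ext_getElem (by simp) fun i h1 h2 => ?_
    simp only [pre, List.getElem_map, List.getElem_range]
    rw [h i h1, List.getD_eq_getElem _ _ h1]

theorem trans {F : O → ℕ → ℕ} (hF : UCE o fun x (z : ℕ × ℕ) => F x z.1 = z.2)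
    {R : O → α → Prop} (h : UCE F R) : UCE o R := by
  obtain ⟨c, h1, -, h3⟩ := h
  have : UCE o fun x a => ∃ l : List ℕ, l = pre (F x) l.length ∧ c l a = true :=
    ex (and ((isPre' hF).comp (f := fun w : α × List ℕ => w.2) (by fun_prop))
      (of_bool (by fun_prop)))
  refine this.of_iff fun x a => ?_
  rw [h3]
  exact ⟨fun ⟨k, hk⟩ => ⟨_, by simp, hk⟩, fun ⟨l, hl, h⟩ => ⟨_, hl ▸ h⟩⟩

theorem enum {S : O → ℕ → Prop} (h : UCE o S) :
    ∃ c, Computable₂ c ∧ ∀ x, ∃ r, Computes c (o x) r ∧ ∀ v, (∃ i, r i = v + 1) ↔ S x v := by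
  obtain ⟨c, h1, h2, h3⟩ := h
  let F : List ℕ → ℕ → ℕ := fun l n =>
    if c (l.take n.unpair.1) n.unpair.2 = true then n.unpair.2 + 1 else 0
  refine ⟨fun l n => if n < l.length then some (F (l.take (n + 1)) n) else none,
    PR.computable₂ (by simp only [F]; fun_prop), fun x => ⟨_, computes_take F (o x), fun v => ?_⟩⟩
  have key : ∀ i, (pre (o x) (i + 1)).take i.unpair.1 = pre (o x) i.unpair.1 := fun i =>
    take_pre _ ((Nat.unpair_left_le i).trans (Nat.le_succ i))
  simp only [F, key, h3]
  constructor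
  · rintro ⟨i, hi⟩
    split_ifs at hi with h
    exact ⟨_, Nat.succ_injective hi ▸ h⟩
  · rintro ⟨k, hk⟩
    exact ⟨Nat.pair k v, by simp [hk]⟩

/-- all lists of a given length over a list of letters -/
def words (s : List β) (n : ℕ) : List (List β) :=
  Nat.rec [[]] (fun _ W => W.flatMap fun w => s.map fun b => b :: w) n

omit [Primcodable β] in
theorem mem_words {s : List β} (hs : ∀ b, b ∈ s) (n : ℕ) (l : List β) :
    l ∈ words s n ↔ l.length = n := by
  induction n generalizing l with
  | zero => simp [words]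
  | succ n ih =>
    show l ∈ (words s n).flatMap _ ↔ _
    simp only [List.mem_flatMap, List.mem_map, ih]
    constructor
    · rintro ⟨w, hw, b, -, rfl⟩
      simp [hw]
    · intro h
      cases l with
      | nil => simp at h
      | cons b w => exact ⟨w, by simpa using h, b, hs b, rfl⟩

theorem pr_words (s : List β) : PR (words s) :=
  PR.natRec (f := fun n : ℕ => n) (g := fun _ => ([[]] : List (List β)))
    (h := fun _ _ W => W.flatMap fun w => s.map fun b => b :: w) PR.id (PR.const _) (by fun_prop)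

theorem compact [Finite β] [Nonempty β] {R : O → α → List β → Prop}
    (h : UCE o fun x (z : α × List β) => R x z.1 z.2) :
    UCE o fun x a => ∀ w : ℕ → β, ∃ k, R x a ((List.range k).map w) := by
  obtain ⟨s, -, hs⟩ := Finite.exists_univ_list β
  have h0 := pr_words s
  have : UCE o fun x a => ∃ L : ℕ, ∀ l ∈ words s L, ∃ k, k ≤ L ∧ R x a (l.take k) := by
    refine ex ?_
    refine ball ?_ (by fun_prop)
    refine ex ?_
    refine and (of_pr (by fun_prop)) ?_
    exact h.comp (f := fun w : ((α × ℕ) × List β) × ℕ => (w.1.1.1, w.1.2.take w.2)) (by fun_prop)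
  refine this.of_iff fun x a => ⟨fun H => ?_, fun ⟨L, H⟩ w => ?_⟩
  · obtain ⟨L, hL⟩ := uniform (fun w k => R x a ((List.range k).map w)) H
    refine ⟨L, fun l hl => ?_⟩
    rw [mem_words hs] at hl
    obtain ⟨b⟩ : Nonempty β := inferInstance
    obtain ⟨w0, k, hk, h1, h2⟩ := hL fun i => l.getD i b
    refine ⟨k, hk, ?_⟩
    convert h1 using 1
    refine List.ext_getElem (by simp; omega) fun i h3 h4 => ?_
    have hi : i < k := by simpa using h4
    simp only [List.getElem_take, List.getElem_map, List.getElem_range]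
    rw [h2 i hi]
    exact (List.getD_eq_getElem _ _ _).symm
  · obtain ⟨k, hk, h⟩ := H ((List.range L).map w) ((mem_words hs _ _).2 (by simp))
    refine ⟨k, ?_⟩
    rwa [← List.map_take, List.take_range, min_eq_left hk] at h

end UCE

end Pool.Agent.Lib.MP_5e3ef6_lc
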