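import Pool.Agent.Lib.MP_5e3ef6_lc.Defs

namespace Pool.Agent.Lib.MP_5e3ef6_lc

def Agree {α : Type} (k : ℕ) (p p' : ℕ → α) : Prop := ∀ i < k, p i = p' i

theorem Agree.refl {α : Type} (k : ℕ) (p : ℕ → α) : Agree k p p := fun _ _ => rfl

theorem Agree.symm {α : Type} {k : ℕ} {p p' : ℕ → α} (h : Agree k p p') : Agree k p' p :=
  fun i hi => (h i hi).symm

theorem Agree.trans {α : Type} {k : ℕ} {p p' p'' : ℕ → α} (h : Agree k p p') (h' : Agree k p' p'') :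
    Agree k p p'' := fun i hi => (h i hi).trans (h' i hi)

theorem Agree.mono {α : Type} {k j : ℕ} {p p' : ℕ → α} (h : Agree k p p') (hj : j ≤ k) :
    Agree j p p' := fun i hi => h i (lt_of_lt_of_le hi hj)

theorem Agree.pre_eq {k : ℕ} {p p' : ℕ → ℕ} (h : Agree k p p') : pre p k = pre p' k := by
  unfold pre
  apply List.map_congr_left
  intro i hi
  exact h i (List.mem_range.1 hi)

theorem Agree.join {k : ℕ} {p p' q q' : ℕ → ℕ} (h : Agree k p p') (h' : Agree k q q') :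
    Agree k (join p q) (join p' q') := by
  intro i hi
  unfold MP_5e3ef6_lc.join
  have : i / 2 < k := by omega
  split_ifs
  · exact h _ this
  · exact h' _ this

theorem agree_of_pointwise {α β : Type} {S : α → Prop} (T : α → ℕ → Prop)
    (hT : ∀ a k j, k ≤ j → T a j → T a k) (f : ℕ → β) (g : α → ℕ → β)
    (h : ∀ n, ∃ k, ∀ a, S a → T a k → f n = g a n) (n : ℕ) :
    ∃ k, ∀ a, S a → T a k → Agree n f (g a) := by
  induction n with
  | zero => exact ⟨0, fun _ _ _ i hi => absurd hi (Nat.not_lt_zero _)⟩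
  | succ n ih =>
    obtain ⟨k, hk⟩ := ih
    obtain ⟨j, hj⟩ := h n
    refine ⟨max k j, fun a ha hT' i hi => ?_⟩
    rcases Nat.lt_succ_iff_lt_or_eq.1 hi with hi | rfl
    · exact hk a ha (hT a _ _ (le_max_left _ _) hT') i hi
    · exact hj a ha (hT a _ _ (le_max_right _ _) hT')

theorem Computes.local {c : List ℕ → ℕ → Option ℕ} {p q : ℕ → ℕ} (h : Computes c p q) (n : ℕ) :
    ∃ k, ∀ p' q', Computes c p' q' → Agree k p p' → q n = q' n := by
  obtain ⟨k, hk, hk'⟩ := h n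
  refine ⟨k, fun p' q' h' hA => ?_⟩
  obtain ⟨j, hj, hj'⟩ := h' n
  rcases lt_trichotomy k j with hlt | rfl | hlt
  · have := hj' k hlt
    rw [← hA.pre_eq, hk] at this
    cases this
  · rw [hA.pre_eq, hj] at hk
    exact (Option.some.inj hk).symm
  · have := hk' j hlt
    rw [(hA.mono hlt.le).pre_eq, hj] at this
    cases this

/-- continuous Weihrauch reductions -/
structure CRed (P Q : Problem) where
  Φ : (ℕ → ℕ) → (ℕ → ℕ)
  Ψ : (ℕ → ℕ) → (ℕ → ℕ) → (ℕ → ℕ)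
  dom : ∀ p ∈ P.dom, Φ p ∈ Q.dom
  sol : ∀ p ∈ P.dom, ∀ q ∈ Q.sol (Φ p), Ψ p q ∈ P.sol p
  cΦ : ∀ p ∈ P.dom, ∀ n, ∃ k, ∀ p' ∈ P.dom, Agree k p p' → Agree n (Φ p) (Φ p')
  cΨ : ∀ p ∈ P.dom, ∀ q ∈ Q.sol (Φ p), ∀ n, ∃ k, ∀ p' ∈ P.dom, ∀ q' ∈ Q.sol (Φ p'),
    Agree k p p' → Agree k q q' → Agree n (Ψ p q) (Ψ p' q')

theorem WRed.cred {P Q : Problem} (h : WRed P Q) : Nonempty (CRed P Q) := by
  classical
  obtain ⟨c, d, -, -, h⟩ := h
  choose! Φ hΦ hc hd using h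
  choose! Ψ hΨ hd using hd
  refine ⟨⟨Φ, Ψ, hΦ, hΨ, ?_, ?_⟩⟩
  · intro p hp n
    refine agree_of_pointwise (S := fun p' => p' ∈ P.dom) (fun p' k => Agree k p p')
      (fun a k j hkj h => h.mono hkj) (Φ p) Φ ?_ n
    intro n
    obtain ⟨k, hk⟩ := (hc p hp).local n
    exact ⟨k, fun p' hp' hA => hk p' _ (hc p' hp') hA⟩
  · intro p hp q hq n
    have := agree_of_pointwise
      (S := fun a : (ℕ → ℕ) × (ℕ → ℕ) => a.1 ∈ P.dom ∧ a.2 ∈ Q.sol (Φ a.1))
      (fun a k => Agree k p a.1 ∧ Agree k q a.2)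
      (fun a k j hkj h => ⟨h.1.mono hkj, h.2.mono hkj⟩) (Ψ p q) (fun a => Ψ a.1 a.2) ?_ n
    · obtain ⟨k, hk⟩ := this
      exact ⟨k, fun p' hp' q' hq' h1 h2 => hk (p', q') ⟨hp', hq'⟩ ⟨h1, h2⟩⟩
    · intro n
      obtain ⟨k, hk⟩ := (hd p hp q hq).local n
      exact ⟨k, fun a ha hA => hk _ _ (hd a.1 ha.1 a.2 ha.2) (hA.1.join hA.2)⟩

theorem uniform' {α : Type} [Finite α] (P : (ℕ → α) → ℕ → Prop) (h : ∀ w, ∃ k, P w k) :
    ∃ t : Finset (ℕ → α), ∃ L, ∀ w, ∃ w0 ∈ t, ∃ k, k ≤ L ∧ P w0 k ∧ Agree k w0 w := by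
  classical
  let _ : TopologicalSpace α := ⊥
  have : DiscreteTopology α := ⟨rfl⟩
  choose K hK using h
  have hopen : ∀ w0 : ℕ → α, IsOpen {w | Agree (K w0) w0 w} := by
    intro w0
    have : {w | Agree (K w0) w0 w} = ⋂ i ∈ Finset.range (K w0), (fun w : ℕ → α => w i) ⁻¹' {w0 i} := by
      ext w
      simp [Agree, eq_comm]
    rw [this]
    exact isOpen_biInter_finset fun i _ => (isOpen_discrete _).preimage (continuous_apply i)
  obtain ⟨t, ht⟩ := isCompact_univ.elim_finite_subcover (fun w0 : ℕ → α => {w | Agree (K w0) w0 w})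
    hopen (fun w _ => Set.mem_iUnion.2 ⟨w, Agree.refl _ _⟩)
  refine ⟨t, t.sup K, fun w => ?_⟩
  have := ht (Set.mem_univ w)
  simp only [Set.mem_iUnion] at this
  obtain ⟨w0, hw0, hA⟩ := this
  exact ⟨w0, hw0, K w0, Finset.le_sup hw0, hK w0, hA⟩

theorem uniform {α : Type} [Finite α] (P : (ℕ → α) → ℕ → Prop) (h : ∀ w, ∃ k, P w k) :
    ∃ L, ∀ w, ∃ w0 k, k ≤ L ∧ P w0 k ∧ Agree k w0 w := by
  obtain ⟨t, L, hL⟩ := uniform' P h
  refine ⟨L, fun w => ?_⟩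
  obtain ⟨w0, -, k, hk⟩ := hL w
  exact ⟨w0, k, hk⟩

theorem generic {C : Type} (le : C → C → Prop) (R : ℕ → C → Prop)
    (h : ∀ i c, ∃ c', le c c' ∧ R i c') (c0 : C) :
    ∃ s : ℕ → C, s 0 = c0 ∧ (∀ i, le (s i) (s (i + 1))) ∧ ∀ i, R i (s (i + 1)) := by
  choose f hf using h
  refine ⟨fun n => Nat.rec c0 (fun i c => f i c) n, rfl, fun i => (hf _ _).1, fun i => (hf _ _).2⟩

/-- the limit of a sequence of longer and longer finite conditions -/
theorem exists_limit (p : ℕ → ℕ → ℕ) (k : ℕ → ℕ) (hk : ∀ i, k i < k (i + 1))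
    (hp : ∀ i, Agree (k i) (p i) (p (i + 1))) :
    ∃ q : ℕ → ℕ, (∀ i, Agree (k i) (p i) q) ∧ ∀ i, i ≤ k i := by
  have hm : StrictMono k := strictMono_nat_of_lt_succ hk
  have hij : ∀ i j, i ≤ j → Agree (k i) (p i) (p j) := by
    intro i j hij
    induction j, hij using Nat.le_induction with
    | base => exact Agree.refl _ _
    | succ j hij ih => exact ih.trans ((hp j).mono (hm.monotone hij))
  refine ⟨fun n => p (n + 1) n, fun i n hn => ?_, fun i => hm.le_apply⟩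
  have h1 : n < k (n + 1) := lt_of_lt_of_le (Nat.lt_succ_self n) hm.le_apply
  rcases le_total i (n + 1) with h | h
  · exact hij i (n + 1) h n hn
  · exact (hij (n + 1) i h n h1).symm

end Pool.Agent.Lib.MP_5e3ef6_lc
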