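import Mathlib

namespace Pool.Agent.Lib.MP_5e3ef6_lc

/-- the first `k` values of `p` -/
def pre (p : ℕ → ℕ) (k : ℕ) : List ℕ := (List.range k).map p

/-- the functional given by `c` maps `p` to `q`: the `n`-th output is the first answer of `c`
on longer and longer initial segments of `p` -/
def Computes (c : List ℕ → ℕ → Option ℕ) (p q : ℕ → ℕ) : Prop :=
  ∀ n, ∃ k, c (pre p k) n = some (q n) ∧ ∀ j < k, c (pre p j) n = none

/-- a multi-valued problem on Baire space: names of instances, names of solutions -/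
structure Problem where
  dom : Set (ℕ → ℕ)
  sol : (ℕ → ℕ) → Set (ℕ → ℕ)

/-- interleaving of two sequences -/
def join (p q : ℕ → ℕ) (n : ℕ) : ℕ := if n % 2 = 0 then p (n / 2) else q (n / 2)

/-- Weihrauch reducibility -/
def WRed (P Q : Problem) : Prop :=
  ∃ c d : List ℕ → ℕ → Option ℕ, Computable₂ c ∧ Computable₂ d ∧
    ∀ p ∈ P.dom, ∃ p' ∈ Q.dom, Computes c p p' ∧
      ∀ q ∈ Q.sol p', ∃ r ∈ P.sol p, Computes d (join p q) r

/-- parallel product of two problems -/
def prod (P Q : Problem) : Problem where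
  dom := {p | (fun n => p (2 * n)) ∈ P.dom ∧ (fun n => p (2 * n + 1)) ∈ Q.dom}
  sol p := {q | (fun n => q (2 * n)) ∈ P.sol (fun n => p (2 * n)) ∧
    (fun n => q (2 * n + 1)) ∈ Q.sol (fun n => p (2 * n + 1))}

/-- the binary relation enumerated by `p` (the value `0` enumerates nothing) -/
def rel (p : ℕ → ℕ) (x y : ℕ) : Prop := ∃ i, p i = Nat.pair x y + 1

/-- diagonal functions of an enumerated equivalence relation with at least two classes -/
def DIAG : Problem where
  dom := {p | Equivalence (rel p) ∧ ∃ x y, ¬ rel p x y}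
  sol p := {g | ∀ x, ¬ rel p (g x) x}

/-- closed choice on the natural numbers -/
def CN : Problem where
  dom := {p | ∃ n, ∀ i, p i ≠ n + 1}
  sol p := {q | ∀ i, p i ≠ q 0 + 1}

/-- the parallelisation of all-or-co-unique choice on `k` values -/
def DNC (k : ℕ∞) : Problem where
  dom := {p | ∀ n a b, rel p n a → rel p n b → a = b}
  sol p := {q | ∀ n, (q n : ℕ∞) < k ∧ ¬ rel p n (q n)}

end Pool.Agent.Lib.MP_5e3ef6_lc
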