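import Pool.Agent.Lib.MP_5e3ef6_lc.DefsT

namespace Pool.Agent.Lib.MP_5e3ef6_lc

/-- the dyadic rational coded by `c` -/
noncomputable def dy (c : ℕ) : ℝ := c.unpair.1 / 2 ^ c.unpair.2

/-- the points of `[0,1]` respecting the lower and upper bounds listed by `p` -/
def seg (p : ℕ → ℕ) : Set ℝ :=
  {x | 0 ≤ x ∧ x ≤ 1 ∧ ∀ c, (rel p 0 c → dy c ≤ x) ∧ (rel p 1 c → x ≤ dy c)}

/-- choice for closed subintervals of `[0,1]` (intermediate value theorem) -/
def IVT : Problem where
  dom := {p | (seg p).Nonempty}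
  sol p := {q | ∃ x ∈ seg p, ∀ n, |x - q n / 2 ^ n| ≤ 1 / 2 ^ n}

/-- choice for closed subsets of Cantor space with at most `k` points -/
def FC (k : ℕ) : Problem where
  dom := {p | (paths p).Nonempty ∧ (paths p).encard ≤ k}
  sol := paths

/-- a function not computable from the input -/
def NON : Problem where
  dom := Set.univ
  sol p := {q | ¬ TRed q p}

/-- a PA degree relative to the input -/
def PA : Problem where
  dom := Set.univ
  sol p := {q | ∀ r, TRed r p → (paths r).Nonempty → ∃ s ∈ paths r, TRed s q}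

/-- a Martin-Loef random sequence relative to the input -/
def MLR : Problem where
  dom := Set.univ
  sol p := {q | ∀ r : ℕ → ℕ, TRed r p →
    (∀ n, (fun i => r (Nat.pair n i)) ∈ (WWKL (1 - 2⁻¹ ^ n)).dom) →
      ∃ n, q ∈ paths fun i => r (Nat.pair n i)}

end Pool.Agent.Lib.MP_5e3ef6_lc
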