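import Pool.Agent.Lib.MP_5e3ef6_lc.Defs

namespace Pool.Agent.Lib.MP_5e3ef6_lc

/-- the fair-coin measure on Cantor space -/
noncomputable def coin : MeasureTheory.Measure (ℕ → Fin 2) :=
  MeasureTheory.Measure.infinitePi fun _ => ProbabilityTheory.uniformOn Set.univ

/-- the binary sequences none of whose initial segments is enumerated by `p` -/
def paths (p : ℕ → ℕ) : Set (ℕ → ℕ) :=
  {q | (∀ n, q n < 2) ∧ ∀ i k, p i ≠ Encodable.encode (pre q k) + 1}

/-- choice for closed subsets of Cantor space of measure greater than `ε` -/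
def WWKL (ε : ENNReal) : Problem where
  dom := {p | ε < coin {x | (fun n => (x n : ℕ)) ∈ paths p}}
  sol := paths

end Pool.Agent.Lib.MP_5e3ef6_lc
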