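import Pool.Agent.Lib.MP_5e3ef6_lc.IvtNeg

namespace Pool.Agent.Lib.MP_5e3ef6_lc

theorem agree_of_pre' {p q : ℕ → ℕ} {k : ℕ} (h : pre p k = pre q k) : Agree k p q := fun i hi => by
  rw [← getD_pre p hi, h, getD_pre q hi]

/-- `x` is a binary sequence not yet removed by the first `k` values of `p` -/
def Cons (p : ℕ → ℕ) (k : ℕ) (x : ℕ → ℕ) : Prop :=
  (∀ n, x n < 2) ∧ ∀ t < k, ∀ m, p t ≠ Encodable.encode (pre x m) + 1

theorem cons_of_mem {p x : ℕ → ℕ} (h : x ∈ paths p) (k : ℕ) : Cons p k x :=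
  ⟨h.1, fun t _ m => h.2 t m⟩

theorem exists_sep {B : Set (ℕ → ℕ)} (hB : B.Finite) :
    ∃ i, ∀ x ∈ B, ∀ y ∈ B, Agree i x y → x = y := by
  classical
  have : ∀ z : (ℕ → ℕ) × (ℕ → ℕ), ∃ i, z.1 i = z.2 i → z.1 = z.2 := fun z => by
    by_cases h : z.1 = z.2
    · exact ⟨0, fun _ => h⟩
    · obtain ⟨i, hi⟩ := Function.ne_iff.1 h
      exact ⟨i, fun h => absurd h hi⟩
  choose I hI using this
  refine ⟨(hB.toFinset ×ˢ hB.toFinset).sup I + 1, fun x hx y hy h => hI (x, y) (h _ ?_)⟩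
  exact Nat.lt_succ_of_le (Finset.le_sup (f := I) (by simp [hx, hy]))

theorem exists_tree (p : ℕ → ℕ) (k : ℕ) {B : Set (ℕ → ℕ)} (hB : B.Finite)
    (h : ∀ x ∈ B, Cons p k x) : ∃ p', Agree k p p' ∧ paths p' = B := by
  classical
  refine ⟨fun i => if i < k then p i else
    if ∃ x ∈ B, ∃ m, Encodable.encode (pre x m) = i - k then 0 else i - k + 1,
    fun i hi => by simp [hi], Set.Subset.antisymm (fun x hx => ?_) fun x hx => ⟨(h x hx).1, ?_⟩⟩
  · obtain ⟨i, hi⟩ := exists_sep (hB.insert x)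
    have := hx.2 (Encodable.encode (pre x i) + k) i
    simp only [Nat.add_sub_cancel, show ¬ Encodable.encode (pre x i) + k < k by omega,
      if_false] at this
    split_ifs at this with h1
    · obtain ⟨y, hy, m, hm⟩ := h1
      have h2 := Encodable.encode_injective hm
      have h3 : m = i := by simpa using congrArg List.length h2
      subst h3
      exact hi y (Or.inr hy) x (Or.inl rfl) (agree_of_pre' h2) ▸ hy
    · exact absurd rfl this
  · intro i m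
    beta_reduce
    split_ifs with h1 h2
    · exact (h x hx).2 i h1 m
    · omega
    · exact fun h3 => h2 ⟨x, hx, m, by omega⟩

theorem Cons.near {p y : ℕ → ℕ} {k : ℕ} (h : Cons p k y) (n : ℕ) :
    ∃ m y', n ≤ m ∧ Cons p k y' ∧ Agree m y y' ∧ y m ≠ y' m := by
  let m := n + (Finset.range k).sup p
  have hA : Agree m y (Function.update y m (1 - y m)) := fun i hi => by
    rw [Function.update_of_ne hi.ne]
  refine ⟨m, Function.update y m (1 - y m), by omega, ⟨fun i => ?_, fun t ht j hj => ?_⟩, hA, ?_⟩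
  · by_cases hi : i = m
    · rw [hi, Function.update_self]
      omega
    · rw [Function.update_of_ne hi]
      exact h.1 i
  · have h1 := Encodable.length_le_encode (pre (Function.update y m (1 - y m)) j)
    have h2 := Finset.le_sup (f := p) (Finset.mem_range.2 ht)
    rw [length_pre] at h1
    exact h.2 t ht j (by rw [hj, (hA.mono (by omega : j ≤ m)).pre_eq])
  · have := h.1 m
    rw [Function.update_self]
    omega

theorem fc_lim {K : ℕ} {q : ℕ → ℕ} (hq : ∀ i, ∃ p ∈ (FC K).dom, ∃ j, i ≤ j ∧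
    (∀ x, Cons p j x → ∃ y ∈ paths p, Agree i y x) ∧ Agree j p q) : q ∈ (FC K).dom := by
  refine ⟨?_, ?_⟩
  · by_contra hne
    obtain ⟨L, hL⟩ := uniform (α := Fin 2) (fun w k =>
      ∃ t < k, ∃ m ≤ k, q t = Encodable.encode (pre (fun n => (w n : ℕ)) m) + 1) (by
      intro w
      have : ∃ t m, q t = Encodable.encode (pre (fun n => (w n : ℕ)) m) + 1 := by
        by_contra h
        push Not at h
        exact hne ⟨_, fun n => (w n).2, h⟩
      obtain ⟨t, m, h⟩ := this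
      exact ⟨t + m + 1, t, by omega, m, by omega, h⟩)
    obtain ⟨p, ⟨⟨y, hy⟩, -⟩, j, hj, -, hA⟩ := hq L
    obtain ⟨w, k, hk, ⟨t, ht, m, hm, h⟩, hA'⟩ := hL fun n => ⟨y n, hy.1 n⟩
    have hA'' : Agree k (fun n => (w n : ℕ)) y := fun n hn => congrArg Fin.val (hA' n hn)
    exact hy.2 t m (by rw [hA t (by omega), h, (hA''.mono hm).pre_eq])
  · by_contra hK
    obtain ⟨B, hB, hB'⟩ := Set.exists_subset_encard_eq (Order.add_one_le_of_lt (not_le.1 hK))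
    obtain ⟨i, hi⟩ := exists_sep (Set.finite_of_encard_eq_coe (k := K + 1) (by exact_mod_cast hB'))
    obtain ⟨p, hp, j, -, hM, hA⟩ := hq i
    choose! f hf1 hf2 using fun x (hx : x ∈ B) => hM x ⟨(hB hx).1, fun t ht m => by
      rw [hA t ht]
      exact (hB hx).2 t m⟩
    have := Set.encard_le_encard_of_injOn (f := f) hf1 fun x hx y hy h =>
      hi x hx y hy ((hf2 x hx).symm.trans (h ▸ hf2 y hy))
    have := hB' ▸ this.trans hp.2
    exact absurd (by exact_mod_cast this : K + 1 ≤ K) (by omega)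

theorem fc_cplt (K : ℕ) : Cplt (FC K).dom := by
  refine ⟨fun i p j => ∀ x, Cons p j x → ∃ y ∈ paths p, Agree i y x, fun i p _ => ?_,
    fun q hq => fc_lim hq⟩
  · obtain ⟨L, hL⟩ := uniform (α := Fin 2) (fun w k =>
      (∃ t < k, ∃ m ≤ k, p t = Encodable.encode (pre (fun n => (w n : ℕ)) m) + 1) ∨
        (i ≤ k ∧ (fun n => (w n : ℕ)) ∈ paths p)) (by
      intro w
      by_cases hw : (fun n => (w n : ℕ)) ∈ paths p
      · exact ⟨i, Or.inr ⟨le_rfl, hw⟩⟩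
      · have : ∃ t m, p t = Encodable.encode (pre (fun n => (w n : ℕ)) m) + 1 := by
          by_contra h
          push Not at h
          exact hw ⟨fun n => (w n).2, h⟩
        obtain ⟨t, m, h⟩ := this
        exact ⟨t + m + 1, Or.inl ⟨t, by omega, m, by omega, h⟩⟩)
    refine ⟨L, fun j hj x hx => ?_⟩
    obtain ⟨w, k, hk, h, hA⟩ := hL fun n => ⟨x n, hx.1 n⟩
    have hA' : Agree k (fun n => (w n : ℕ)) x := fun n hn => congrArg Fin.val (hA n hn)
    rcases h with ⟨t, ht, m, hm, h⟩ | ⟨h1, h2⟩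
    · exact absurd (by rw [h, (hA'.mono hm).pre_eq]) (hx.2 t (by omega) m)
    · exact ⟨_, h2, hA'.mono h1⟩

theorem fc_dom {K : ℕ} {p y : ℕ → ℕ} (l : List (ℕ → ℕ)) (h : paths p = {x | x ∈ y :: l})
    (hK : l.length < K) : p ∈ (FC K).dom := by
  classical
  refine ⟨⟨y, by simp [h]⟩, ?_⟩
  rw [h, ← List.coe_toFinset, Set.encard_coe_eq_coe_finsetCard]
  exact_mod_cast (List.toFinset_card_le _).trans hK

theorem exists_fc {K : ℕ} (p : ℕ → ℕ) (k : ℕ) (y : ℕ → ℕ) (l : List (ℕ → ℕ)) (hK : l.length < K)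
    (h : ∀ x ∈ y :: l, Cons p k x) :
    ∃ p' ∈ (FC K).dom, Agree k p p' ∧ paths p' = {x | x ∈ y :: l} := by
  obtain ⟨p', h1, h2⟩ := exists_tree p k (List.finite_toSet (y :: l)) h
  exact ⟨p', fc_dom l h2 hK, h1, h2⟩

theorem fc_rich : Rich ⟨(FC 2).dom, (FC 2).sol⟩ := by
  refine ⟨?_, fc_cplt 2, fun p hp k => ?_⟩
  · obtain ⟨p, hp, -⟩ := exists_fc (K := 2) (fun _ => 0) 0 (fun _ => 0) [] (by simp)
      (by simp [Cons])
    exact ⟨p, hp⟩
  obtain ⟨y, hy⟩ := hp.1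
  obtain ⟨m, y', -, h1, -, h2⟩ := (cons_of_mem hy k).near 0
  obtain ⟨p0, hp0, hA, h3⟩ := exists_fc (K := 2) p k y [y'] (by simp)
    (by simp [h1, cons_of_mem hy k])
  refine ⟨p0, hp0, hA, m + 1, fun l => ?_⟩
  obtain ⟨p1, hp1, hA1, h4⟩ := exists_fc (K := 2) p0 l y [] (by simp)
    (by simpa using cons_of_mem (by simp [h3]) l)
  obtain ⟨p2, hp2, hA2, h5⟩ := exists_fc (K := 2) p0 l y' [] (by simp)
    (by simpa using cons_of_mem (by simp [h3]) l)
  refine ⟨p1, hp1, p2, hp2, hA1, hA2, fun r hr r' hr' h => h2 ?_⟩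
  have e1 : r = y := by simpa [FC, h4] using hr
  have e2 : r' = y' := by simpa [FC, h5] using hr'
  exact e1 ▸ e2 ▸ h m (Nat.lt_succ_self m)

theorem not_fc_fc : ¬ WRed (prod (FC 2) (FC 2)) DIAG := fun h =>
  h.cred.elim (not_prod_rich subset_rfl subset_rfl fc_rich fc_rich)

theorem not_fc_non : ¬ WRed (prod (FC 2) NON) DIAG := not_prod_non subset_rfl fc_rich

theorem near_agree {P : Problem} (R : CRed P DIAG) {p : ℕ → ℕ} (hp : p ∈ P.dom) {m : ℕ}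
    (e : Fin m → ℕ) (he : ∀ x, ∃ j, ¬ rel (R.Φ p) (e j) x) (L : ℕ) :
    ∃ l0 l, ∀ p' ∈ P.dom, ∀ p'' ∈ P.dom, ∀ q' ∈ DIAG.sol (R.Φ p'), ∀ q'' ∈ DIAG.sol (R.Φ p''),
      Agree l p p' → Agree l p p'' → Agree l0 q' q'' → (∀ x < l0, ∃ j, q' x = e j) →
        Agree L (R.Ψ p' q') (R.Ψ p'' q'') := by
  classical
  obtain ⟨l0, h0⟩ := unif_aux R hp e L
  obtain ⟨l1, h1⟩ := visible R hp (Finset.univ.image e ×ˢ Finset.range l0)
  refine ⟨l0, max l0 l1, fun p' hp' p'' hp'' q' hq' q'' hq'' hA hB hC hD => ?_⟩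
  have : ∀ x, ∃ j, ¬ rel (R.Φ p) (e j) x ∧ (x < l0 → e j = q' x) := by
    intro x
    by_cases hx : x < l0
    · obtain ⟨j, hj⟩ := hD x hx
      exact ⟨j, fun h => hq' x (hj ▸ h1 p' hp' (hA.mono (le_max_right _ _)) (e j, x)
        (by simp [hx]) h), fun _ => hj.symm⟩
    · obtain ⟨j, hj⟩ := he x
      exact ⟨j, hj, fun h => absurd h hx⟩
  choose w hw1 hw2 using this
  exact (h0 w hw1 p' hp' q' hq' (hA.mono (le_max_left _ _)) hw2).symm.trans
    (h0 w hw1 p'' hp'' q'' hq'' (hB.mono (le_max_left _ _)) (Agree.trans hw2 hC))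

theorem valid_two {E : ℕ → ℕ → Prop} (hE : Equivalence E) {a b : ℕ} (hab : ¬ E a b) (x : ℕ) :
    ∃ c, (c = a ∨ c = b) ∧ ¬ E c x := by
  by_cases h : E a x
  · exact ⟨b, Or.inr rfl, fun h' => hab (hE.trans h (hE.symm h'))⟩
  · exact ⟨a, Or.inl rfl, h⟩

theorem valid_three {E F : ℕ → ℕ → Prop} (hE : Equivalence E) (hF : Equivalence F) {a b z : ℕ}
    (h1 : ¬ E a b) (h2 : ¬ E a z) (h3 : ¬ E b z) (h4 : ¬ F a b) (h5 : ¬ F a z) (h6 : ¬ F b z)
    (x : ℕ) : ∃ c, (∃ j, c = ![a, b, z] j) ∧ ¬ E c x ∧ ¬ F c x := by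
  by_contra h
  push Not at h
  have ha := h a ⟨0, rfl⟩
  have hb := h b ⟨1, rfl⟩
  have hz := h z ⟨2, rfl⟩
  have e : ∀ u v, E u x → E v x → E u v := fun u v h h' => hE.trans h (hE.symm h')
  have f : ∀ u v, F u x → F v x → F u v := fun u v h h' => hF.trans h (hF.symm h')
  have := e a b
  have := e a z
  have := e b z
  have := f a b
  have := f a z
  have := f b z
  tauto

theorem not_fc3 (R : CRed (FC 3) DIAG) : False := by
  classical
  obtain ⟨⟨a, b⟩, p1, hp1, k1, hab⟩ := baireC (fc_cplt 3)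
    (let ⟨p, hp, _⟩ := exists_fc (K := 3) (fun _ => 0) 0 (fun _ => 0) [] (by simp)
      (by simp [Cons]); ⟨p, hp⟩)
    (fun z : ℕ × ℕ => {p | ¬ rel (R.Φ p) z.1 z.2})
    (fun p hp => let ⟨x, y, h⟩ := (R.dom p hp).2; ⟨(x, y), h⟩) (by
      intro z p hp h
      obtain ⟨k, hk⟩ := visible1 R hp (not_not.1 h)
      exact ⟨k, fun p' hp' hA h => h (hk p' hp' hA)⟩)
  have hE : ∀ p ∈ (FC 3).dom, Equivalence (rel (R.Φ p)) := fun p hp => (R.dom p hp).1
  obtain ⟨y, hy⟩ := hp1.1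
  obtain ⟨m0, v0, -, hv0, -, hm0⟩ := (cons_of_mem hy k1).near 0
  obtain ⟨p2, hp2, hA2, h2⟩ := exists_fc (K := 3) p1 k1 y [v0] (by simp)
    (by simp [hv0, cons_of_mem hy k1])
  obtain ⟨l0, l, hl⟩ := near_agree R hp2 ![a, b] (fun x => by
    obtain ⟨c, rfl | rfl, h⟩ := valid_two (hE p2 hp2) (hab p2 hp2 hA2) x
    · exact ⟨0, h⟩
    · exact ⟨1, h⟩) (m0 + 1)
  let S0 : Finset (ℕ × ℕ) := {a, b} ×ˢ Finset.range l0
  let U : Set (ℕ → ℕ) := {p | p ∈ (FC 3).dom ∧ Agree (max l k1) p2 p ∧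
    ∃ v, paths p = {x | x ∈ [y, v]} ∧ y m0 ≠ v m0}
  obtain ⟨t, ⟨ht, hAt, v, hv, hvm⟩, hmax⟩ : ∃ t ∈ U, ∀ s ∈ U,
      (S0.filter fun z => rel (R.Φ s) z.1 z.2).card ≤
        (S0.filter fun z => rel (R.Φ t) z.1 z.2).card := by
    obtain ⟨n, ⟨t, ht, rfl⟩, h⟩ := Set.exists_max_image
      ((fun s => (S0.filter fun z => rel (R.Φ s) z.1 z.2).card) '' U) id
      ((Set.finite_le_nat S0.card).subset (by
        rintro _ ⟨s, -, rfl⟩
        exact Finset.card_filter_le _ _)) ⟨_, p2, ⟨hp2, Agree.refl _ _, v0, h2, hm0⟩, rfl⟩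
    exact ⟨t, ht, fun s hs => h _ ⟨s, hs, rfl⟩⟩
  obtain ⟨l2', hl2⟩ := visible R ht S0
  let l2 := max l2' (max l k1)
  have hA : ∀ s, Agree l2 t s → Agree (max l k1) p2 s := fun s h =>
    hAt.trans (h.mono (le_max_right _ _))
  have hab' : ∀ s ∈ (FC 3).dom, Agree l2 t s → ¬ rel (R.Φ s) a b := fun s hs h =>
    hab s hs (hA2.trans ((hA s h).mono (le_max_right _ _)))
  have hsame : ∀ s ∈ U, Agree l2 t s → ∀ z ∈ S0, rel (R.Φ s) z.1 z.2 → rel (R.Φ t) z.1 z.2 := by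
    intro s hs h z hz h'
    have := Finset.eq_of_subset_of_card_le (s := S0.filter fun z => rel (R.Φ t) z.1 z.2)
      (t := S0.filter fun z => rel (R.Φ s) z.1 z.2) (fun z hz => by
        rw [Finset.mem_filter] at hz ⊢
        exact ⟨hz.1, hl2 s hs.1 (h.mono (le_max_left _ _)) z hz.1 hz.2⟩) (hmax s hs)
    have h1 : z ∈ S0.filter fun z => rel (R.Φ s) z.1 z.2 := Finset.mem_filter.2 ⟨hz, h'⟩
    rw [← this] at h1
    exact (Finset.mem_filter.1 h1).2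
  have hone : ∀ u ∈ paths t, ∃ s ∈ (FC 3).dom, Agree l2 t s ∧ ∃ g ∈ DIAG.sol (R.Φ s),
      (∀ x, g x = a ∨ g x = b) ∧ R.Ψ s g = u ∧ ∀ x < l0, ¬ rel (R.Φ t) (g x) x := by
    intro u hu
    obtain ⟨s, hs, h1, h2⟩ := exists_fc (K := 3) t l2 u [] (by simp)
      (by simpa using cons_of_mem hu l2)
    choose g hg1 hg2 using valid_two (hE s hs) (hab' s hs h1)
    refine ⟨s, hs, h1, g, hg2, hg1, by simpa [FC, h2] using R.sol s hs g hg2, fun x hx h =>
      hg2 x (hl2 s hs (h1.mono (le_max_left _ _)) (g x, x) ?_ h)⟩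
    simpa [S0, hx] using hg1 x
  have hvt : v ∈ paths t := by simp [hv]
  have hyt : y ∈ paths t := by simp [hv]
  obtain ⟨s, hs, hAs, g, hg, hg1, hg2, hg3⟩ := hone v hvt
  obtain ⟨s', hs', hAs', g', hg', hg1', hg2', hg3'⟩ := hone y hyt
  have hcoarse : ∀ r ∈ (FC 3).dom, Agree l2 t r → ∀ c ∈ DIAG.sol (R.Φ r), Agree l0 g c →
      v m0 = R.Ψ r c m0 := fun r hr h c hc h' => hg2 ▸ hl s hs r hr g hg c hc
    ((hA s hAs).mono (le_max_left _ _)) ((hA r h).mono (le_max_left _ _)) h'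
    (fun x _ => (hg1 x).elim (fun h => ⟨0, h⟩) fun h => ⟨1, h⟩) m0 (Nat.lt_succ_self _)
  obtain ⟨z, hz, hz'⟩ : ∃ z < l0, g z ≠ g' z := by
    by_contra h
    push Not at h
    exact hvm (hg2' ▸ (hcoarse s' hs' hAs' g' hg' h).symm)
  have hz1 : ¬ rel (R.Φ t) a z := by
    have h1 := hg3 z hz
    have h2 := hg3' z hz
    rcases hg1 z with h | h <;> rcases hg1' z with h' | h' <;> simp_all
  have hz2 : ¬ rel (R.Φ t) b z := by
    have h1 := hg3 z hz
    have h2 := hg3' z hz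
    rcases hg1 z with h | h <;> rcases hg1' z with h' | h' <;> simp_all
  obtain ⟨m1, v', hm1, hv', hvv, hm1'⟩ := (cons_of_mem hvt l2).near (m0 + 1)
  obtain ⟨t', ht', hAt', h3⟩ := exists_fc (K := 3) t l2 y [v, v'] (by simp)
    (by simp [hv', cons_of_mem hvt l2, cons_of_mem hyt l2])
  obtain ⟨l3, l4, hl4⟩ := near_agree R ht' ![a, b, z] (fun x => by
    obtain ⟨c, rfl | rfl, h⟩ := valid_two (hE t' ht') (hab' t' ht' hAt') x
    · exact ⟨0, h⟩
    · exact ⟨1, h⟩) (m1 + 1)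
  obtain ⟨T0, hT0, hA0, h4⟩ := exists_fc (K := 3) t' (max l4 l2) y [v] (by simp)
    (by simpa using ⟨cons_of_mem (by simp [h3]) _, cons_of_mem (by simp [h3]) _⟩)
  obtain ⟨T1, hT1, hA1, h5⟩ := exists_fc (K := 3) t' (max l4 l2) y [v'] (by simp)
    (by simpa using ⟨cons_of_mem (by simp [h3]) _, cons_of_mem (by simp [h3]) _⟩)
  have hB0 : Agree l2 t T0 := hAt'.trans (hA0.mono (le_max_right _ _))
  have hB1 : Agree l2 t T1 := hAt'.trans (hA1.mono (le_max_right _ _))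
  have hvm' : y m0 ≠ v' m0 := hvv m0 (by omega) ▸ hvm
  have hS0 := hsame T0 ⟨hT0, hA T0 hB0, v, h4, hvm⟩ hB0
  have hS1 := hsame T1 ⟨hT1, hA T1 hB1, v', h5, hvm'⟩ hB1
  have : ∀ x, ∃ c, (∃ j, c = ![a, b, z] j) ∧ ¬ rel (R.Φ T0) c x ∧ ¬ rel (R.Φ T1) c x ∧
      (x < l0 → g x = c) := by
    intro x
    by_cases hx : x < l0
    · have : (g x, x) ∈ S0 := by simpa [S0, hx] using hg1 x
      exact ⟨g x, (hg1 x).elim (fun h => ⟨0, h⟩) fun h => ⟨1, h⟩,
        fun h => hg3 x hx (hS0 _ this h), fun h => hg3 x hx (hS1 _ this h), fun _ => rfl⟩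
    · obtain ⟨c, h1, h2, h3⟩ := valid_three (hE T0 hT0) (hE T1 hT1) (hab' T0 hT0 hB0)
        (fun h => hz1 (hS0 (a, z) (by simp [S0, hz]) h))
        (fun h => hz2 (hS0 (b, z) (by simp [S0, hz]) h)) (hab' T1 hT1 hB1)
        (fun h => hz1 (hS1 (a, z) (by simp [S0, hz]) h))
        (fun h => hz2 (hS1 (b, z) (by simp [S0, hz]) h)) x
      exact ⟨c, h1, h2, h3, fun h => absurd h hx⟩
  choose c hc1 hc2 hc3 hc4 using this
  have e0 : R.Ψ T0 c = v := by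
    have h6 : R.Ψ T0 c = y ∨ R.Ψ T0 c = v := by simpa [FC, h4] using R.sol T0 hT0 c hc2
    exact h6.resolve_left fun h => hvm (h ▸ (hcoarse T0 hT0 hB0 c hc2 hc4).symm)
  have e1 : R.Ψ T1 c = v' := by
    have h6 : R.Ψ T1 c = y ∨ R.Ψ T1 c = v' := by simpa [FC, h5] using R.sol T1 hT1 c hc3
    exact h6.resolve_left fun h => hvm (h ▸ (hcoarse T1 hT1 hB1 c hc3 hc4).symm)
  exact hm1' (e0 ▸ e1 ▸ hl4 T0 hT0 T1 hT1 c hc2 c hc3 (hA0.mono (le_max_left _ _))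
    (hA1.mono (le_max_left _ _)) (Agree.refl _ _) (fun x _ => hc1 x) m1 (Nat.lt_succ_self _))

end Pool.Agent.Lib.MP_5e3ef6_lc
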