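import Pool.Agent.Lib.MP_5e3ef6_lc.FcNeg

namespace Pool.Agent.Lib.MP_5e3ef6_lc

theorem WRed.intro_diag' {P : Problem} (S : (ℕ → ℕ) → ℕ → ℕ → Prop)
    (hS : UCE (fun x : P.dom => x.1) fun x (z : ℕ × ℕ) => S x.1 z.1 z.2)
    (hd : ∀ p ∈ P.dom, Equivalence (S p) ∧ ∃ x y, ¬ S p x y)
    (hΨ : ∃ Ψ, UC (fun x : {z : (ℕ → ℕ) × (ℕ → ℕ) // z.1 ∈ P.dom ∧ ∀ x, ¬ S z.1 (z.2 x) x} =>
      join x.1.1 x.1.2) Ψ ∧ ∀ x, Ψ x ∈ P.sol x.1.1) : WRed P DIAG := by
  classical
  obtain ⟨F, h1, h2⟩ := hS.enum'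
  obtain ⟨Ψ, h3, h4⟩ := hΨ
  have e : ∀ p (hp : p ∈ P.dom), rel (if h : p ∈ P.dom then F ⟨p, h⟩ else p) = S p :=
    fun p hp => by rw [dif_pos hp, h2]
  have e' : ∀ x : Back P DIAG fun p => if h : p ∈ P.dom then F ⟨p, h⟩ else p,
      x.1.1 ∈ P.dom ∧ ∀ y, ¬ S x.1.1 (x.1.2 y) y := fun x => ⟨x.2.1, by
    rw [← e _ x.2.1]
    exact x.2.2⟩
  refine WRed.intro (fun p => if h : p ∈ P.dom then F ⟨p, h⟩ else p)
    (fun p g => if h : p ∈ P.dom ∧ ∀ y, ¬ S p (g y) y then Ψ ⟨(p, g), h⟩ else p)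
    (by simpa using h1) ?_ (fun p hp => ?_) fun p hp g hg => ?_
  · refine (h3.pull fun x => ⟨x.1, e' x⟩).of_iff fun x z => ?_
    beta_reduce
    rw [dif_pos (e' x)]
  · show Equivalence _ ∧ _
    rw [e p hp]
    exact hd p hp
  · rw [dif_pos (e' ⟨(p, g), hp, hg⟩)]
    exact h4 ⟨(p, g), _⟩

theorem UCE.all_paths {O α : Type} [Primcodable α] {o : O → ℕ → ℕ} {R : α → List ℕ → Bool}
    (hR : PR fun z : α × List ℕ => R z.1 z.2) :
    UCE o fun x a => ∀ y ∈ paths (o x), ∃ k, R a (pre y k) = true := by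
  have hv : PR fun b : Fin 2 => (b : ℕ) := PR.finite _
  have : UCE o fun x a => ∀ w : ℕ → Fin 2, ∃ k, (fun x a (l : List (Fin 2)) =>
      (∃ t, o x t = Encodable.encode (l.map Fin.val) + 1) ∨ R a (l.map Fin.val) = true) x a
      ((List.range k).map w) := by
    refine UCE.compact (R := fun x a (l : List (Fin 2)) =>
      (∃ t, o x t = Encodable.encode (l.map Fin.val) + 1) ∨ R a (l.map Fin.val) = true) ?_
    refine UCE.or (UCE.ex ?_) (UCE.of_bool (by fun_prop))
    exact UCE.oracle.comp (f := fun w : (α × List (Fin 2)) × ℕ =>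
      (w.2, Encodable.encode (w.1.2.map Fin.val) + 1)) (by fun_prop)
  refine this.of_iff fun x a => ⟨fun h w => ?_, fun h y hy => ?_⟩
  · simp only [List.map_map]
    by_cases hw : (fun n => (w n : ℕ)) ∈ paths (o x)
    · obtain ⟨k, hk⟩ := h _ hw
      exact ⟨k, Or.inr hk⟩
    · by_contra h'
      push Not at h'
      exact hw ⟨fun n => (w n).2, fun t m => (h' m).1 t⟩
  · obtain ⟨k, h | h⟩ := h fun n => ⟨y n, hy.1 n⟩ <;> simp only [List.map_map] at h
    · obtain ⟨t, ht⟩ := h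
      exact absurd ht (hy.2 t k)
    · exact ⟨k, h⟩

/-- lexicographic comparison of zero-padded lists -/
def lxL (l σ : List ℕ) : Bool :=
  (List.range σ.length).any fun i =>
    ((List.range i).all fun j => decide (l.getD j 0 = σ.getD j 0)) && decide (l.getD i 0 < σ.getD i 0)

@[fun_prop] theorem pr_lxL {α : Type} [Primcodable α] {f g : α → List ℕ} (hf : PR f) (hg : PR g) :
    PR fun a => lxL (f a) (g a) := by
  unfold lxL
  fun_prop

def pad (σ : List ℕ) : Lex (ℕ → ℕ) := toLex fun i => σ.getD i 0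

theorem lt_pad (x : ℕ → ℕ) (σ : List ℕ) :
    toLex x < pad σ ↔ ∃ i < σ.length, (∀ j < i, x j = σ.getD j 0) ∧ x i < σ.getD i 0 := by
  constructor
  · rintro ⟨i, h1, h2⟩
    refine ⟨i, ?_, h1, h2⟩
    by_contra h
    have h2 : x i < σ.getD i 0 := h2
    rw [List.getD_eq_default _ _ (not_lt.1 h)] at h2
    omega
  · rintro ⟨i, -, h⟩
    exact ⟨i, h⟩

theorem lxL_iff (l σ : List ℕ) : lxL l σ = true ↔ pad l < pad σ := by
  rw [pad, lt_pad]
  simp [lxL]

theorem lxL_pre (x : ℕ → ℕ) {σ : List ℕ} {k : ℕ} (h : σ.length ≤ k) :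
    lxL (pre x k) σ = true ↔ toLex x < pad σ := by
  rw [lxL_iff, pad, lt_pad, lt_pad]
  refine exists_congr fun i => and_congr_right fun hi => ?_
  rw [getD_pre x (by omega)]
  exact and_congr_left' (forall₂_congr fun j hj => by rw [getD_pre x (by omega)])

def dl (c : ℕ) : List ℕ := (Encodable.decode c : Option (List ℕ)).getD []

@[fun_prop] theorem pr_dl {α : Type} [Primcodable α] {f : α → ℕ} (hf : PR f) :
    PR fun a => dl (f a) := by
  unfold dl
  fun_prop

@[simp] theorem dl_encode (l : List ℕ) : dl (Encodable.encode l) = l := by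
  simp only [dl, Encodable.encodek, Option.getD_some]

theorem pre_succ (x : ℕ → ℕ) (n : ℕ) : pre x (n + 1) = pre x n ++ [x n] := by
  simp [pre, List.range_succ]

def fcDec (y : ℕ) (σ : List ℕ) : ℕ :=
  if y = 0 ∨ (2 ≤ y ∧ lxL (dl (y - 2)) (σ ++ [1]) = true) then 0 else 1

@[fun_prop] theorem pr_fcDec {α : Type} [Primcodable α] {f : α → ℕ} {g : α → List ℕ} (hf : PR f)
    (hg : PR g) : PR fun a => fcDec (f a) (g a) := by
  unfold fcDec
  fun_prop

theorem fc2_le_diag : WRed (FC 2) DIAG := by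
  let Z0 : (ℕ → ℕ) → ℕ → Prop := fun p z => z = 0 ∨
    2 ≤ z ∧ ∀ x ∈ paths p, ¬ toLex x < pad (dl (z - 2))
  let Z1 : (ℕ → ℕ) → ℕ → Prop := fun p z => z = 1 ∨
    2 ≤ z ∧ ∀ x ∈ paths p, toLex x < pad (dl (z - 2))
  have hZ0 : UCE (fun x : (FC 2).dom => x.1) fun x z => Z0 x.1 z := by
    refine (UCE.of_pr (by fun_prop)).or ((UCE.of_pr (by fun_prop)).and ?_)
    refine (UCE.all_paths (R := fun z l => decide ((dl (z - 2)).length ≤ l.length) &&
      !lxL l (dl (z - 2))) (by fun_prop)).of_iff fun x z => forall₂_congr fun y _ => ?_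
    simp only [length_pre, Bool.and_eq_true, decide_eq_true_eq, Bool.not_eq_true',
      ← Bool.not_eq_true]
    exact ⟨fun h => ⟨_, le_rfl, by rwa [lxL_pre y le_rfl]⟩,
      fun ⟨k, hk, h⟩ => by rwa [lxL_pre y hk] at h⟩
  have hZ1 : UCE (fun x : (FC 2).dom => x.1) fun x z => Z1 x.1 z := by
    refine (UCE.of_pr (by fun_prop)).or ((UCE.of_pr (by fun_prop)).and ?_)
    refine (UCE.all_paths (R := fun z l => decide ((dl (z - 2)).length ≤ l.length) &&
      lxL l (dl (z - 2))) (by fun_prop)).of_iff fun x z => forall₂_congr fun y _ => ?_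
    simp only [length_pre, Bool.and_eq_true, decide_eq_true_eq]
    exact ⟨fun h => ⟨_, le_rfl, by rwa [lxL_pre y le_rfl]⟩,
      fun ⟨k, hk, h⟩ => by rwa [lxL_pre y hk] at h⟩
  have hdis : ∀ p ∈ (FC 2).dom, ∀ z, Z0 p z → ¬ Z1 p z := by
    rintro p ⟨⟨x, hx⟩, -⟩ z (h | h) (h' | h')
    · omega
    · omega
    · omega
    · exact h.2 x hx (h'.2 x hx)
  refine WRed.intro_diag' (fun p z z' => z = z' ∨ Z0 p z ∧ Z0 p z' ∨ Z1 p z ∧ Z1 p z') ?_ ?_ ?_
  · exact (UCE.of_pr (by fun_prop)).or (((hZ0.comp (by fun_prop)).and (hZ0.comp (by fun_prop))).or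
      ((hZ1.comp (by fun_prop)).and (hZ1.comp (by fun_prop))))
  · intro p hp
    have := hdis p hp
    refine ⟨equiv_two this, 0, 1, ?_⟩
    rintro (h | h | h)
    · omega
    · exact this 1 h.2 (Or.inl rfl)
    · exact this 0 (Or.inl rfl) h.1
  let O := {z : (ℕ → ℕ) × (ℕ → ℕ) // z.1 ∈ (FC 2).dom ∧ ∀ x,
    ¬ (z.2 x = x ∨ Z0 z.1 (z.2 x) ∧ Z0 z.1 x ∨ Z1 z.1 (z.2 x) ∧ Z1 z.1 x)}
  let o : O → ℕ → ℕ := fun x => join x.1.1 x.1.2
  have hp : UC o fun x => x.1.1 := UC.left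
  have hg : UC o fun x => x.1.2 := UC.right
  have hdead : UCE o fun x (σ : List ℕ) => ∀ y ∈ paths x.1.1, pre y σ.length ≠ σ := by
    refine UCE.trans hp ((UCE.all_paths (R := fun σ l => decide (l.length = σ.length ∧ ¬ l = σ))
      (by fun_prop)).of_iff fun x σ => forall₂_congr fun y _ => ?_)
    simp
  have honly : UCE o fun x (σ : List ℕ) => ∀ y ∈ paths x.1.1, pre y σ.length = σ := by
    refine UCE.trans hp ((UCE.all_paths (R := fun σ l => decide (l = σ))
      (by fun_prop)).of_iff fun x σ => forall₂_congr fun y _ => ?_)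
    simp only [decide_eq_true_eq]
    exact ⟨fun h => ⟨_, h⟩, fun ⟨k, hk⟩ => by rw [← hk, length_pre]⟩
  obtain ⟨c, hc, hF⟩ := UCE.select (o := o) (R := fun x n b =>
    (∀ y ∈ paths x.1.1, pre y (dl n ++ [0]).length ≠ dl n ++ [0]) ∧ b = 1 ∨
    (∀ y ∈ paths x.1.1, pre y (dl n ++ [1]).length ≠ dl n ++ [1]) ∧ b = 0 ∨
    (∀ y ∈ paths x.1.1, pre y (dl n).length = dl n) ∧
      ∃ v, x.1.2 (Encodable.encode (dl n ++ [1]) + 2) = v ∧ b = fcDec v (dl n)) (by
    refine ((hdead.comp (by fun_prop)).and (UCE.of_pr (by fun_prop))).or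
      (((hdead.comp (by fun_prop)).and (UCE.of_pr (by fun_prop))).or
        ((honly.comp (by fun_prop)).and (UCE.ex ?_)))
    exact (hg.comp (f := fun w : (ℕ × ℕ) × ℕ => (Encodable.encode (dl w.1.1 ++ [1]) + 2, w.2))
      (by fun_prop)).and (UCE.of_pr (by fun_prop))) (by
    intro x n
    by_cases h0 : ∀ y ∈ paths x.1.1, pre y (dl n ++ [0]).length ≠ dl n ++ [0]
    · exact ⟨1, Or.inl ⟨h0, rfl⟩⟩
    by_cases h1 : ∀ y ∈ paths x.1.1, pre y (dl n ++ [1]).length ≠ dl n ++ [1]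
    · exact ⟨0, Or.inr (Or.inl ⟨h1, rfl⟩)⟩
    refine ⟨_, Or.inr (Or.inr ⟨?_, _, rfl, rfl⟩)⟩
    push Not at h0 h1
    obtain ⟨y0, hy0, h0⟩ := h0
    obtain ⟨y1, hy1, h1⟩ := h1
    simp only [List.length_append, List.length_singleton, pre_succ] at h0 h1
    obtain ⟨h2, h3⟩ := List.append_inj h0 (by simp)
    obtain ⟨h4, h5⟩ := List.append_inj h1 (by simp)
    have hne : y0 ≠ y1 := fun h => by simp_all
    have := (Set.toFinite {y0, y1}).eq_of_subset_of_encard_le (t := paths x.1.1)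
      (by rintro _ (rfl | rfl) <;> assumption) (by rw [Set.encard_pair hne]; exact x.2.1.2)
    rw [← this]
    rintro _ (rfl | rfl) <;> assumption)
  choose F hF1 hF2 using hF
  have hF : UC o F := UCE.of_computes hc hF1
  have hstep : ∀ (x : O) (σ : List ℕ), (∃ y ∈ paths x.1.1, pre y σ.length = σ) →
      ∃ y ∈ paths x.1.1, pre y (σ.length + 1) = σ ++ [F x (Encodable.encode σ)] := by
    rintro x σ ⟨y, hy, h⟩
    have h2 := hy.1 σ.length
    have := hF2 x (Encodable.encode σ)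
    simp only [dl_encode, List.length_append, List.length_singleton, pre_succ] at this ⊢
    rcases this with ⟨h0, e⟩ | ⟨h0, e⟩ | ⟨h0, v, hv, e⟩ <;> rw [e]
    · have := h0 y hy
      refine ⟨y, hy, ?_⟩
      rw [h] at this ⊢
      simp only [ne_eq, List.append_cancel_left_eq, List.cons.injEq, and_true] at this ⊢
      omega
    · have := h0 y hy
      refine ⟨y, hy, ?_⟩
      rw [h] at this ⊢
      simp only [ne_eq, List.append_cancel_left_eq, List.cons.injEq, and_true] at this ⊢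
      omega
    have key : ∀ y ∈ paths x.1.1, toLex y < pad (σ ++ [1]) ↔ y σ.length = 0 := by
      intro y hy
      have h1 : ∀ j < σ.length, y j = (σ ++ [1]).getD j 0 := fun j hj => by
        rw [List.getD_append _ _ _ _ hj, ← h0 y hy, getD_pre y hj]
      have h3 : (σ ++ [1]).getD σ.length 0 = 1 := by simp
      rw [lt_pad]
      refine ⟨fun ⟨i, hi, _, h⟩ => ?_, fun h => ⟨σ.length, by simp, h1, by omega⟩⟩
      rcases Nat.lt_succ_iff_lt_or_eq.1 (by simpa using hi) with hi | rfl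
      · exact absurd (h1 i hi) h.ne
      · omega
    have := x.2.2 (Encodable.encode (σ ++ [1]) + 2)
    rw [hv] at this
    by_contra hcon
    push Not at hcon
    refine this (Or.inr ?_)
    unfold fcDec at hcon
    split_ifs at hcon with h4
    · have h5 : ∀ y ∈ paths x.1.1, ¬ toLex y < pad (σ ++ [1]) := fun y hy h =>
        hcon y hy (by rw [h0 y hy, (key y hy).1 h])
      refine Or.inl ⟨h4.imp id fun h => ⟨h.1, fun y hy h' => h5 y hy
        (h'.trans ((lxL_iff _ _).1 h.2))⟩, Or.inr ⟨by omega, by simpa using h5⟩⟩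
    · have h5 : ∀ y ∈ paths x.1.1, toLex y < pad (σ ++ [1]) := fun y hy => (key y hy).2 (by
        by_contra h
        have := hy.1 σ.length
        exact hcon y hy (by rw [h0 y hy, show y σ.length = 1 by omega]))
      push Not at h4
      refine Or.inr ⟨?_, Or.inr ⟨by omega, by simpa using h5⟩⟩
      rcases lt_or_ge v 2 with h | h
      · exact Or.inl (by omega)
      · exact Or.inr ⟨h, fun y hy => (h5 y hy).trans_le
          (not_lt.1 fun h' => h4.2 h ((lxL_iff _ _).2 h'))⟩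
  let G : O → ℕ → ℕ := fun x n =>
    (Nat.rec (Encodable.encode ([] : List ℕ)) (fun _ m => Encodable.encode (dl m ++ [F x m])) n : ℕ)
  have hG : UC o G := by
    refine UC.rec (G := fun x _ m => Encodable.encode (dl m ++ [F x m])) ?_ _
    have : UCE o fun x (z : (ℕ × ℕ) × ℕ) =>
        ∃ v, F x z.1.2 = v ∧ Encodable.encode (dl z.1.2 ++ [v]) = z.2 := by
      refine UCE.ex ?_
      exact (hF.comp (f := fun w : ((ℕ × ℕ) × ℕ) × ℕ => (w.1.1.2, w.2)) (by fun_prop)).and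
        (UCE.of_pr (by fun_prop))
    exact this.of_iff fun x z => by simp
  refine ⟨fun x n => F x (G x n), ?_, fun x => ?_⟩
  · have : UCE o fun x (z : ℕ × ℕ) => ∃ v, G x z.1 = v ∧ F x v = z.2 := by
      refine UCE.ex ?_
      exact (hG.comp (f := fun w : (ℕ × ℕ) × ℕ => (w.1.1, w.2)) (by fun_prop)).and
        (hF.comp (f := fun w : (ℕ × ℕ) × ℕ => (w.2, w.1.2)) (by fun_prop))
    exact this.of_iff fun x z => by simp
  · have h1 : ∀ n, G x n = Encodable.encode (pre (fun n => F x (G x n)) n) := by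
      intro n
      induction n with
      | zero => rfl
      | succ n ih =>
        rw [pre_succ]
        show Encodable.encode (dl (G x n) ++ [F x (G x n)]) = _
        rw [ih, dl_encode, ← ih]
    have h2 : ∀ n, ∃ y ∈ paths x.1.1, pre y n = pre (fun n => F x (G x n)) n := by
      intro n
      induction n with
      | zero => exact let ⟨y, hy⟩ := x.2.1.1; ⟨y, hy, rfl⟩
      | succ n ih =>
        have := hstep x (pre (fun n => F x (G x n)) n) (by rwa [length_pre])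
        rwa [length_pre, ← h1, ← pre_succ (fun n => F x (G x n))] at this
    refine ⟨fun n => ?_, fun i k => ?_⟩
    · obtain ⟨y, hy, h⟩ := h2 (n + 1)
      exact (agree_of_pre' h n (Nat.lt_succ_self n)).symm.trans_lt (hy.1 n)
    · obtain ⟨y, hy, h⟩ := h2 k
      exact h ▸ hy.2 i k

theorem fc_mono {j k : ℕ} (h : j ≤ k) : WRed (FC j) (FC k) :=
  WRed.intro (fun p => p) (fun _ q => q) UC.refl UC.right
    (fun _ hp => ⟨hp.1, hp.2.trans (by exact_mod_cast h)⟩) fun _ _ _ h => h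

theorem fc_iff (k : ℕ) : WRed (FC k) DIAG ↔ k ≤ 2 :=
  ⟨fun h => not_lt.1 fun hk => ((fc_mono hk).trans h).cred.elim not_fc3,
    fun h => (fc_mono h).trans fc2_le_diag⟩

end Pool.Agent.Lib.MP_5e3ef6_lc
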