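import Pool.Agent.Lib.MP_5e3ef6_lc.Avoid

namespace Pool.Agent.Lib.MP_5e3ef6_lc

/-- the first `k` columns from `u`, the others from `g` -/
def mix (k : ℕ) (u g : ℕ → ℕ) (n : ℕ) : ℕ := if n.unpair.1 < k then u n else g n

def mixL (k : ℕ) (l : List ℕ) : List ℕ :=
  (List.range (l.length / 2)).map fun i =>
    if i.unpair.1 < k then l.getD (2 * i) 0 else l.getD (2 * i + 1) 0

theorem mixL_pre (k : ℕ) (u g : ℕ → ℕ) (m : ℕ) :
    mixL k (pre (join u g) m) = pre (mix k u g) (m / 2) := by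
  simp only [mixL, length_pre]
  refine List.map_congr_left fun i hi => ?_
  have := List.mem_range.1 hi
  rw [getD_pre _ (by omega), getD_pre _ (by omega), join_two_mul, join_two_mul_add]
  rfl

theorem Computes.lift {e : List ℕ → ℕ → Option ℕ} {k : ℕ} {u g f : ℕ → ℕ}
    (h : Computes e (mix k u g) f) : Computes (fun l n => e (mixL k l) n) (join u g) f := by
  intro n
  obtain ⟨m, h1, h2⟩ := h n
  refine ⟨2 * m, ?_, fun j hj => ?_⟩ <;> simp only [mixL_pre]
  · rwa [Nat.mul_div_cancel_left _ (by norm_num)]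
  · exact h2 _ (by omega)

theorem TRed.mix {u g p : ℕ → ℕ} (hu : TRed u p) (hg : TRed g p) (k : ℕ) :
    TRed (mix k u g) p := TRed.ite hu hg (S := fun n => n.unpair.1 < k) (by fun_prop)

theorem TRed.zero (p : ℕ → ℕ) : TRed (fun _ => 0) p := TRed.of_computable (Computable.const 0) p

theorem cohen (k : ℕ) (u : ℕ → ℕ) {e : List ℕ → ℕ → Option ℕ} (he : Computable₂ e)
    {A : ℕ → Set ℕ} (hn : ¬ ∃ f, TRed f u ∧ ∀ n, f n ∈ A n) :
    ∃ k' u', k ≤ k' ∧ TRed u' u ∧ (∀ n : ℕ, n.unpair.1 < k → u' n = u n) ∧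
      ∀ d : ℕ → ℕ, (∀ n : ℕ, n.unpair.1 < k' → d n = u' n) → ∀ f, Computes e d f →
        ∃ n, f n ∉ A n := by
  have hm : PR (mixL k) := by
    unfold mixL
    fun_prop
  have he' : Computable₂ fun l n => e (mixL k l) n :=
    he.comp (hm.prim.to_comp.comp Computable.fst) Computable.snd
  by_cases h1 : ∃ τ n b, Out u (fun l n => e (mixL k l) n) τ n b ∧ b ∉ A n
  · obtain ⟨τ, n, b, h1, h2⟩ := h1
    have h3 : PR fun i => τ.getD i 0 := by fun_prop
    refine ⟨k + τ.length, mix k u fun i => τ.getD i 0, by omega,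
      (TRed.refl u).mix (TRed.of_computable h3.prim.to_comp u) k, fun n hn => if_pos hn,
      fun d hd f hf => ⟨n, ?_⟩⟩
    have h4 : mix k u (mix k (fun i => τ.getD i 0) d) = d := by
      funext i
      by_cases hi : i.unpair.1 < k
      · rw [hd i (by omega)]
        simp [mix, hi]
      · simp [mix, hi]
    rw [← h4] at hf
    rwa [h1.eq (fun i hi => ?_) hf.lift]
    by_cases hi' : i.unpair.1 < k
    · simp [mix, hi']
    · have := Nat.unpair_left_le i
      simp only [mix, hi', if_false]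
      rw [hd i (by omega)]
      simp [mix, hi']
  by_cases h2 : ∀ n, ∃ b τ, Out u (fun l n => e (mixL k l) n) τ n b
  · obtain ⟨f, hf, hf'⟩ := CE.select (R := fun n b => ∃ τ, Out u (fun l n => e (mixL k l) n) τ n b)
      (by
        refine UCE.ex ?_
        exact (ce_out u he').comp (f := fun w : (ℕ × ℕ) × List ℕ => (w.2, w.1)) (by fun_prop)) h2
    refine absurd ⟨f, hf, fun n => ?_⟩ hn
    by_contra h
    obtain ⟨τ, hτ⟩ := hf' n
    exact h1 ⟨τ, n, _, hτ, h⟩
  · refine ⟨k, u, le_rfl, TRed.refl u, fun _ _ => rfl, fun d hd f hf => absurd (fun n => ?_) h2⟩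
    have h4 : mix k u d = d := by
      funext i
      by_cases hi : i.unpair.1 < k
      · simp [mix, hi, hd i hi]
      · simp [mix, hi]
    rw [← h4] at hf
    obtain ⟨m, -, hm⟩ := Out.of_computes hf.lift n 0
    exact ⟨_, _, hm⟩

theorem exists_ideal (A : ℕ → ℕ → Set ℕ) (h : ℕ → ℕ → ℕ) (hh : ∀ i, Computable (h i))
    (hA : ∀ i n, ∀ v ∈ A i n, v ≤ h i n) (hn : ∀ i, ¬ ∃ f, Computable f ∧ ∀ n, f n ∈ A i n) :
    ∃ d J, TIdeal J ∧ (∀ f ∈ J, TRed f d) ∧ (∀ p ∈ J, p ∈ DIAG.dom → ∃ g ∈ J, g ∈ DIAG.sol p) ∧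
      ∀ i, ¬ ∃ f, TRed f d ∧ ∀ n, f n ∈ A i n := by
  classical
  obtain ⟨e, he⟩ := exists_enum
  obtain ⟨s, -, hs1, hs2⟩ := generic
    (C := ℕ × {u : ℕ → ℕ // ∀ i, ¬ ∃ f, TRed f u ∧ ∀ n, f n ∈ A i n})
    (fun c c' => c.1 < c'.1 ∧ ∀ n : ℕ, n.unpair.1 < c.1 → c'.2.1 n = c.2.1 n)
    (fun i c' => Computable₂ (e i.unpair.1) →
      (∀ p ∈ DIAG.dom, Computes (e i.unpair.1) (mix i.unpair.2 c'.2.1 fun _ => 0) p →
        ∃ k < c'.1, (fun n => c'.2.1 (Nat.pair k n)) ∈ DIAG.sol p) ∧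
      ∀ d : ℕ → ℕ, (∀ n : ℕ, n.unpair.1 < c'.1 → d n = c'.2.1 n) →
        ∀ f, Computes (e i.unpair.1) d f → ∃ n, f n ∉ A i.unpair.2 n) (by
      rintro i ⟨k, u, hu⟩
      by_cases hd : Computable₂ (e i.unpair.1)
      swap
      · exact ⟨⟨k + 1, u, hu⟩, ⟨Nat.lt_succ_self k, fun _ _ => rfl⟩, fun h => absurd h hd⟩
      obtain ⟨g, hg, hg'⟩ : ∃ g, (∀ i, ¬ ∃ f, TRed f (join u g) ∧ ∀ n, f n ∈ A i n) ∧
          ∀ p ∈ DIAG.dom, Computes (e i.unpair.1) (mix i.unpair.2 u fun _ => 0) p →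
            g ∈ DIAG.sol p := by
        by_cases hp : ∃ p ∈ DIAG.dom, Computes (e i.unpair.1) (mix i.unpair.2 u fun _ => 0) p
        · obtain ⟨p, hp, hc⟩ := hp
          obtain ⟨g, h1, h2⟩ := avoid (q := u) hp.1 (CE.trans UCE.rel
            (TRed.trans ⟨_, hd, hc⟩ ((TRed.refl u).mix (TRed.zero u) _))) hp.2 A h
            (fun i => TRed.of_computable (hh i) u) hA hu
          exact ⟨g, h2, fun p' _ hc' => hc.unique hc' ▸ h1⟩
        · exact ⟨fun _ => 0, fun i ⟨f, hf, hf'⟩ => hu i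
            ⟨f, hf.trans ((TRed.refl u).join (TRed.zero u)), hf'⟩,
            fun p hp' hc => absurd ⟨p, hp', hc⟩ hp⟩
      let K := k + i.unpair.2
      have h1 : TRed (mix K u fun n => g n.unpair.2) (join u g) :=
        (TRed.left u g).mix ((TRed.right u g).comp (by fun_prop)) K
      obtain ⟨k', u', h2, h3, h4, h5⟩ := cohen (K + 1) (mix K u fun n => g n.unpair.2) hd
        (A := A i.unpair.2) fun ⟨f, hf, hf'⟩ => hg _ ⟨f, hf.trans h1, hf'⟩
      have h6 : ∀ n : ℕ, n.unpair.1 < K → u' n = u n := fun n hn => by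
        rw [h4 n (by omega)]
        exact if_pos hn
      refine ⟨⟨k', u', fun i ⟨f, hf, hf'⟩ => hg i ⟨f, hf.trans (h3.trans h1), hf'⟩⟩,
        ⟨by simp only [K] at h2 ⊢; omega, fun n hn => h6 n (by simp only [K] at hn ⊢; omega)⟩,
        fun _ => ⟨fun p hp hc => ⟨K, h2, ?_⟩, h5⟩⟩
      have h7 : (mix i.unpair.2 u' fun _ => 0) = mix i.unpair.2 u fun _ => 0 := by
        funext n
        by_cases hn : n.unpair.1 < i.unpair.2
        · simp only [mix, hn, if_true]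
          exact h6 n (by simp only [K]; omega)
        · simp [mix, hn]
      have h8 : (fun n => u' (Nat.pair K n)) = g := by
        funext n
        rw [h4 _ (by simp)]
        simp [mix]
      simp only [h7] at hc
      simp only [h8]
      exact hg' p hp hc)
    ⟨0, fun _ => 0, fun i ⟨f, hf, hf'⟩ => hn i ⟨f, hf.computable (Computable.const 0), hf'⟩⟩
  have hm : StrictMono fun i => (s i).1 := strictMono_nat_of_lt_succ fun i => (hs1 i).1
  have hij : ∀ i j, i ≤ j → ∀ n : ℕ, n.unpair.1 < (s i).1 → (s j).2.1 n = (s i).2.1 n := by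
    intro i j hij
    induction j, hij using Nat.le_induction with
    | base => exact fun _ _ => rfl
    | succ j hij ih =>
      exact fun n hn => ((hs1 j).2 n (lt_of_lt_of_le hn (hm.monotone hij))).trans (ih n hn)
  let d : ℕ → ℕ := fun n => (s (n.unpair.1 + 1)).2.1 n
  have hd : ∀ i (n : ℕ), n.unpair.1 < (s i).1 → d n = (s i).2.1 n := by
    intro i n hn
    rcases le_total i (n.unpair.1 + 1) with h | h
    · exact hij _ _ h n hn
    · exact (hij _ _ h n (lt_of_lt_of_le (Nat.lt_succ_self _) hm.le_apply)).symm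
  have hr : ∀ j k, j ≤ k → TRed (mix j d fun _ => 0) (mix k d fun _ => 0) := by
    intro j k hjk
    convert (TRed.refl (mix k d fun _ => 0)).mix (TRed.zero _) j using 1
    funext n
    by_cases hn : n.unpair.1 < j
    · simp [mix, hn, hn.trans_le hjk]
    · simp [mix, hn]
  refine ⟨d, {f | ∃ k, TRed f (mix k d fun _ => 0)}, ⟨⟨_, 0, TRed.refl _⟩, ?_, ?_⟩, ?_, ?_, ?_⟩
  · rintro f ⟨j, hf⟩ g ⟨k, hg⟩
    exact ⟨max j k, (hf.trans (hr _ _ (le_max_left _ _))).join
      (hg.trans (hr _ _ (le_max_right _ _)))⟩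
  · rintro g ⟨k, hg⟩ f hf
    exact ⟨k, hf.trans hg⟩
  · rintro f ⟨k, hf⟩
    exact hf.trans ((TRed.refl d).mix (TRed.zero d) k)
  · rintro p ⟨j, c, hc, hp⟩ hp'
    obtain ⟨i, rfl⟩ := he c hc
    obtain ⟨k, hk, hg⟩ := (hs2 (Nat.pair i j) (by simpa using hc)).1 p hp' (by
      simp only [Nat.unpair_pair]
      convert hp using 1
      funext n
      by_cases hn : n.unpair.1 < j
      · have h1 := Nat.right_le_pair i j
        have h2 : Nat.pair i j + 1 ≤ (s (Nat.pair i j + 1)).1 := hm.le_apply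
        simp only [mix, hn, if_true]
        exact (hd _ n (by omega)).symm
      · simp [mix, hn])
    refine ⟨_, ⟨k + 1, ?_⟩, hg⟩
    convert (TRed.refl (mix (k + 1) d fun _ => 0)).comp (u := fun n => Nat.pair k n)
      (by fun_prop) using 1
    funext n
    simp only [mix, Nat.unpair_pair, Nat.lt_succ_self, if_true]
    exact (hd _ _ (by simpa using hk)).symm
  · rintro i ⟨f, ⟨c, hc, hf⟩, hf'⟩
    obtain ⟨j, rfl⟩ := he c hc
    obtain ⟨n, hn⟩ := (hs2 (Nat.pair j i) (by simpa using hc)).2 d (hd _) f (by simpa using hf)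
    exact hn (by simpa using hf' n)

theorem not_dnr {f : ℕ → ℕ} (hf : Computable f) : ¬ DNR f := by
  obtain ⟨c, hc⟩ := Nat.Partrec.Code.exists_code.1 (Partrec.nat_iff.1 hf)
  intro h
  have := h (Encodable.encode c)
  rw [Denumerable.ofNat_encode, hc] at this
  simp at this

theorem nonpa : ∃ d J, TIdeal J ∧ (∀ f ∈ J, TRed f d) ∧
    (∀ p ∈ J, p ∈ DIAG.dom → ∃ g ∈ J, g ∈ DIAG.sol p) ∧
    ∀ f h, TRed f d → Computable h → (∀ n, f n ≤ h n) → ¬ DNR f := by
  classical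
  obtain ⟨e, he⟩ := exists_enum
  have : ∀ i, ∃ h, Computable h ∧ ∀ h', Computable₂ (e i) → Computes (e i) (fun _ => 0) h' →
      h' = h := by
    intro i
    by_cases hi : ∃ h', Computable₂ (e i) ∧ Computes (e i) (fun _ => 0) h'
    · obtain ⟨h, h1, h2⟩ := hi
      exact ⟨h, TRed.computable ⟨_, h1, h2⟩ (Computable.const 0), fun h' _ h3 => h3.unique h2⟩
    · exact ⟨fun _ => 0, Computable.const 0, fun h' h1 h2 => absurd ⟨h', h1, h2⟩ hi⟩
  choose H hH hH' using this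
  obtain ⟨d, J, h1, h2, h3, h4⟩ := exists_ideal
    (fun i n => {v | v ≤ H i n ∧ v ∉ (Denumerable.ofNat Nat.Partrec.Code n).eval n}) H hH
    (fun _ _ _ h => h.1) fun i ⟨f, hf, hf'⟩ => not_dnr hf fun n => (hf' n).2
  refine ⟨d, J, h1, h2, h3, fun f h hf hh hb hD => ?_⟩
  obtain ⟨c, hc, hc'⟩ := TRed.of_computable hh fun _ => 0
  obtain ⟨i, rfl⟩ := he c hc
  exact h4 i ⟨f, hf, fun n => ⟨hH' i h hc hc' ▸ hb n, hD n⟩⟩

end Pool.Agent.Lib.MP_5e3ef6_lc
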