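import Pool.Agent.Lib.MP_5e3ef6_lc.WCalc
import Pool.Agent.Lib.MP_5e3ef6_lc.DefsB

namespace Pool.Agent.Lib.MP_5e3ef6_lc

theorem UC.rec {O : Type} {o : O → ℕ → ℕ} {G : O → ℕ → ℕ → ℕ}
    (hG : UCE o fun x (z : (ℕ × ℕ) × ℕ) => G x z.1.1 z.1.2 = z.2) (a : ℕ) :
    UC o fun x n => (Nat.rec a (G x) n : ℕ) := by
  have : UCE o fun x (z : ℕ × ℕ) => ∃ l : List ℕ, (l.getD 0 0 = a ∧ l.getD z.1 0 = z.2) ∧
      ∀ i < z.1, G x i (l.getD i 0) = l.getD (i + 1) 0 := by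
    refine UCE.ex ?_
    refine (UCE.of_pr (by fun_prop)).and (UCE.blt ?_ (by fun_prop))
    exact hG.comp (f := fun w : ((ℕ × ℕ) × List ℕ) × ℕ =>
      ((w.2, w.1.2.getD w.2 0), w.1.2.getD (w.2 + 1) 0)) (by fun_prop)
  refine this.of_iff fun x z => ⟨fun h => ⟨pre (fun n => (Nat.rec a (G x) n : ℕ)) (z.1 + 1),
    ⟨?_, ?_⟩, fun i hi => ?_⟩, ?_⟩
  · rw [getD_pre _ (by omega)]
    rfl
  · rwa [getD_pre _ (by omega)]
  · rw [getD_pre _ (by omega), getD_pre _ (by omega)]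
  · rintro ⟨l, ⟨h1, h2⟩, h3⟩
    have : ∀ i ≤ z.1, (Nat.rec a (G x) i : ℕ) = l.getD i 0 := by
      intro i hi
      induction i with
      | zero => exact h1.symm
      | succ i ih => rw [← h3 i hi, ← ih (by omega)]
    rw [← h2]
    exact this _ le_rfl

def dlt (c c' : ℕ) : Prop := c.unpair.1 * 2 ^ c'.unpair.2 < c'.unpair.1 * 2 ^ c.unpair.2

instance (c c' : ℕ) : Decidable (dlt c c') := inferInstanceAs (Decidable (_ < _))

@[fun_prop] theorem pr_dlt {α : Type} [Primcodable α] {f g : α → ℕ} (hf : PR f) (hg : PR g) :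
    PR fun a => decide (dlt (f a) (g a)) := by
  unfold dlt
  fun_prop

theorem dlt_iff (c c' : ℕ) : dlt c c' ↔ dy c < dy c' := by
  unfold dlt dy
  rw [div_lt_div_iff₀ (by positivity) (by positivity)]
  norm_cast

theorem dy_pair (a b : ℕ) : dy (Nat.pair a b) = a / 2 ^ b := by simp [dy]

theorem nested (m : ℕ → ℕ) (hm : ∀ n, m (n + 1) = 2 * m n ∨ m (n + 1) = 2 * m n + 1) :
    ∃ x : ℝ, ∀ n, m n / 2 ^ n ≤ x ∧ x ≤ (m n + 1) / 2 ^ n := by
  have h1 : Monotone fun n => (m n : ℝ) / 2 ^ n := monotone_nat_of_le_succ fun n => by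
    rw [div_le_div_iff₀ (by positivity) (by positivity), pow_succ]
    have : (0 : ℝ) < 2 ^ n := by positivity
    rcases hm n with h | h <;> rw [h] <;> push_cast <;> nlinarith
  have h2 : Antitone fun n => ((m n : ℝ) + 1) / 2 ^ n := antitone_nat_of_succ_le fun n => by
    rw [div_le_div_iff₀ (by positivity) (by positivity), pow_succ]
    have : (0 : ℝ) < 2 ^ n := by positivity
    rcases hm n with h | h <;> rw [h] <;> push_cast <;> nlinarith
  have h3 : ∀ n k, (m n : ℝ) / 2 ^ n ≤ (m k + 1) / 2 ^ k := fun n k =>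
    (h1 (le_max_left n k)).trans ((div_le_div_of_nonneg_right (by linarith) (by positivity)).trans
      (h2 (le_max_right n k)))
  exact ⟨⨆ n, (m n : ℝ) / 2 ^ n, fun n => ⟨le_ciSup (f := fun n => (m n : ℝ) / 2 ^ n)
    ⟨_, by rintro _ ⟨k, rfl⟩; exact h3 k 0⟩ n, ciSup_le fun k => h3 k n⟩⟩

def ivtStep (y n m : ℕ) : ℕ :=
  if y = 0 ∨ (2 ≤ y ∧ dlt (y - 2) (Nat.pair (2 * m + 1) (n + 1))) then 2 * m else 2 * m + 1

@[fun_prop] theorem pr_ivtStep {α : Type} [Primcodable α] {f g h : α → ℕ} (hf : PR f) (hg : PR g)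
    (hh : PR h) : PR fun a => ivtStep (f a) (g a) (h a) := by
  unfold ivtStep
  fun_prop

theorem equiv_two {Z0 Z1 : ℕ → Prop} (h : ∀ z, Z0 z → ¬ Z1 z) :
    Equivalence fun z z' => z = z' ∨ Z0 z ∧ Z0 z' ∨ Z1 z ∧ Z1 z' := by
  refine ⟨fun _ => Or.inl rfl, ?_, ?_⟩
  · rintro x y (h | h | h)
    · exact Or.inl h.symm
    · exact Or.inr (Or.inl h.symm)
    · exact Or.inr (Or.inr h.symm)
  · intro x y z
    have := h y
    rintro (rfl | h | h) (rfl | h' | h') <;> tauto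

theorem ivt_le_diag : WRed IVT DIAG := by
  let Z0 : (ℕ → ℕ) → ℕ → Prop := fun p z => z = 0 ∨ ∃ l, rel p 0 l ∧ 2 ≤ z ∧ dlt (z - 2) l
  let Z1 : (ℕ → ℕ) → ℕ → Prop := fun p z => z = 1 ∨ ∃ l, rel p 1 l ∧ 2 ≤ z ∧ dlt l (z - 2)
  have hZ0 : UCE (fun x : IVT.dom => x.1) fun x z => Z0 x.1 z := by
    refine (UCE.of_pr (by fun_prop)).or (UCE.ex ?_)
    exact (UCE.rel.comp (f := fun w : ℕ × ℕ => (0, w.2)) (by fun_prop)).and
      (UCE.of_pr (by fun_prop))
  have hZ1 : UCE (fun x : IVT.dom => x.1) fun x z => Z1 x.1 z := by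
    refine (UCE.of_pr (by fun_prop)).or (UCE.ex ?_)
    exact (UCE.rel.comp (f := fun w : ℕ × ℕ => (1, w.2)) (by fun_prop)).and
      (UCE.of_pr (by fun_prop))
  have hdis : ∀ p ∈ IVT.dom, ∀ z, Z0 p z → ¬ Z1 p z := by
    rintro p ⟨x, -, -, hx⟩ z (h | ⟨l, h1, h2, h3⟩) (h' | ⟨u, h4, h5, h6⟩)
    · omega
    · omega
    · omega
    · rw [dlt_iff] at h3 h6
      linarith [(hx l).1 h1, (hx u).2 h4]
  refine WRed.intro_diag (fun p z z' => z = z' ∨ Z0 p z ∧ Z0 p z' ∨ Z1 p z ∧ Z1 p z')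
    (fun _ g n => (Nat.rec 0 (fun n m => ivtStep (g (Nat.pair (2 * m + 1) (n + 1) + 2)) n m) n : ℕ))
    ?_ ?_ ?_ ?_
  · exact (UCE.of_pr (by fun_prop)).or (((hZ0.comp (by fun_prop)).and (hZ0.comp (by fun_prop))).or
      ((hZ1.comp (by fun_prop)).and (hZ1.comp (by fun_prop))))
  · refine UC.rec (G := fun (x : (ℕ → ℕ) × (ℕ → ℕ)) n m =>
      ivtStep (x.2 (Nat.pair (2 * m + 1) (n + 1) + 2)) n m) ?_ 0
    have hg : UC (fun x : (ℕ → ℕ) × (ℕ → ℕ) => join x.1 x.2) fun x => x.2 := UC.right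
    have : UCE (fun x : (ℕ → ℕ) × (ℕ → ℕ) => join x.1 x.2) fun x (z : (ℕ × ℕ) × ℕ) =>
        ∃ y, x.2 (Nat.pair (2 * z.1.2 + 1) (z.1.1 + 1) + 2) = y ∧ ivtStep y z.1.1 z.1.2 = z.2 := by
      refine UCE.ex ?_
      exact (hg.comp (f := fun w : ((ℕ × ℕ) × ℕ) × ℕ =>
        (Nat.pair (2 * w.1.1.2 + 1) (w.1.1.1 + 1) + 2, w.2)) (by fun_prop)).and
        (UCE.of_pr (by fun_prop))
    exact this.of_iff fun x z => by simp
  · intro p hp
    have := hdis p hp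
    refine ⟨equiv_two this, 0, 1, ?_⟩
    · rintro (h | h | h)
      · omega
      · exact this 1 h.2 (Or.inl rfl)
      · exact this 0 (Or.inl rfl) h.1
  · rintro p ⟨x0, h0, h1, hx0⟩ g hg
    set m : ℕ → ℕ := fun n =>
      (Nat.rec 0 (fun n m => ivtStep (g (Nat.pair (2 * m + 1) (n + 1) + 2)) n m) n : ℕ)
    have hs : ∀ n, m (n + 1) = ivtStep (g (Nat.pair (2 * m n + 1) (n + 1) + 2)) n (m n) :=
      fun _ => rfl
    have hstep : ∀ n, (m (n + 1) = 2 * m n ∧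
        ∀ l, rel p 0 l → dy l ≤ dy (Nat.pair (2 * m n + 1) (n + 1))) ∨
        (m (n + 1) = 2 * m n + 1 ∧ ∀ u, rel p 1 u → dy (Nat.pair (2 * m n + 1) (n + 1)) ≤ dy u) := by
      intro n
      rw [hs, ivtStep]
      have := hg (Nat.pair (2 * m n + 1) (n + 1) + 2)
      generalize Nat.pair (2 * m n + 1) (n + 1) = t at this ⊢
      split_ifs with h
      · refine Or.inl ⟨rfl, fun l hl => not_lt.1 fun h' => this (Or.inr (Or.inl ⟨?_, Or.inr
          ⟨l, hl, by omega, (dlt_iff _ _).2 h'⟩⟩))⟩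
        rcases h with h | ⟨h1, h2⟩
        · exact Or.inl h
        · exact Or.inr ⟨l, hl, h1, (dlt_iff _ _).2 (((dlt_iff _ _).1 h2).trans h')⟩
      · refine Or.inr ⟨rfl, fun l hl => not_lt.1 fun h' => this (Or.inr (Or.inr ⟨?_, Or.inr
          ⟨l, hl, by omega, (dlt_iff _ _).2 h'⟩⟩))⟩
        push Not at h
        rcases lt_or_ge (g (t + 2)) 2 with h1 | h1
        · exact Or.inl (by omega)
        · exact Or.inr ⟨l, hl, h1, (dlt_iff _ _).2 (h'.trans_le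
            (not_lt.1 fun h2 => h.2 h1 ((dlt_iff _ _).2 h2)))⟩
    have hinv : ∀ n, (∀ l, rel p 0 l → dy l ≤ (m n + 1) / 2 ^ n) ∧
        ∀ u, rel p 1 u → m n / 2 ^ n ≤ dy u := by
      intro n
      induction n with
      | zero =>
        have : m 0 = 0 := rfl
        simp only [this]
        exact ⟨fun l hl => by simpa using ((hx0 l).1 hl).trans h1,
          fun u hu => by simpa using h0.trans ((hx0 u).2 hu)⟩
      | succ n ih =>
        rcases hstep n with ⟨h, h'⟩ | ⟨h, h'⟩ <;> rw [h] <;> simp only [dy_pair] at h'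
        · refine ⟨fun l hl => by simpa using h' l hl, fun u hu => le_of_eq_of_le ?_ (ih.2 u hu)⟩
          push_cast
          field_simp
          ring
        · refine ⟨fun l hl => le_of_le_of_eq (ih.1 l hl) ?_, h'⟩
          push_cast
          field_simp
          ring
    obtain ⟨x, hx⟩ := nested m fun n => (hstep n).imp And.left And.left
    have hd : ∀ n, ((m n : ℝ) + 1) / 2 ^ n = m n / 2 ^ n + (1 / 2) ^ n := fun n => by
      rw [add_div, one_div_pow]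
    have hm0 : m 0 = 0 := rfl
    refine ⟨x, ⟨by simpa [hm0] using (hx 0).1, by simpa [hm0] using (hx 0).2, fun c =>
      ⟨fun h => ?_, fun h => ?_⟩⟩, fun n => ?_⟩
    · refine le_of_forall_pos_le_add fun ε hε => ?_
      obtain ⟨n, hn⟩ := exists_pow_lt_of_lt_one hε (show (1 / 2 : ℝ) < 1 by norm_num)
      linarith [(hinv n).1 c h, hd n, (hx n).1]
    · refine le_of_forall_pos_le_add fun ε hε => ?_
      obtain ⟨n, hn⟩ := exists_pow_lt_of_lt_one hε (show (1 / 2 : ℝ) < 1 by norm_num)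
      linarith [(hinv n).2 c h, hd n, (hx n).2]
    · rw [abs_le, ← one_div_pow]
      have : (0 : ℝ) < (1 / 2) ^ n := by positivity
      constructor <;> linarith [hd n, (hx n).1, (hx n).2]

theorem cn_ivt_le_diag : WRed (prod CN IVT) DIAG :=
  ((WRed.refl CN).prod ivt_le_diag).trans cn_diag_le

end Pool.Agent.Lib.MP_5e3ef6_lc
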