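import Pool.Agent.Lib.MP_5e3ef6_lc.Rich

namespace Pool.Agent.Lib.MP_5e3ef6_lc

theorem exists_dy {a b : ℝ} (h0 : 0 ≤ a) (h : a < b) : ∃ c, a < dy c ∧ dy c < b := by
  obtain ⟨n, hn⟩ := exists_pow_lt_of_lt_one (sub_pos.2 h) (show (1 / 2 : ℝ) < 1 by norm_num)
  have hp : (0 : ℝ) < 2 ^ n := by positivity
  refine ⟨Nat.pair (⌊a * 2 ^ n⌋₊ + 1) n, ?_, ?_⟩ <;> rw [dy_pair]
  · rw [lt_div_iff₀ hp]
    push_cast
    exact Nat.lt_floor_add_one _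
  · rw [div_lt_iff₀ hp]
    have h1 := Nat.floor_le (show 0 ≤ a * 2 ^ n by positivity)
    rw [one_div_pow, div_lt_iff₀ hp] at hn
    push_cast
    linarith

/-- names of intervals all of whose finite parts leave an interval of positive length -/
def SI : Set (ℕ → ℕ) := {p | (∀ l, rel p 0 l → dy l < 1) ∧ (∀ u, rel p 1 u → 0 < dy u) ∧
  ∀ l u, rel p 0 l → rel p 1 u → dy l < dy u}

theorem SI.sub : SI ⊆ IVT.dom := by
  rintro p ⟨h1, h2, h3⟩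
  have hb : BddAbove (insert 0 {x | ∃ l, rel p 0 l ∧ x = dy l}) := ⟨1, by
    rintro _ (rfl | ⟨l, hl, rfl⟩)
    · exact zero_le_one
    · exact (h1 l hl).le⟩
  refine ⟨sSup (insert 0 {x | ∃ l, rel p 0 l ∧ x = dy l}), le_csSup hb (Or.inl rfl),
    csSup_le ⟨0, Or.inl rfl⟩ ?_, fun c => ⟨fun h => le_csSup hb (Or.inr ⟨c, h, rfl⟩),
      fun h => csSup_le ⟨0, Or.inl rfl⟩ ?_⟩⟩
  · rintro _ (rfl | ⟨l, hl, rfl⟩)
    · exact zero_le_one
    · exact (h1 l hl).le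
  · rintro _ (rfl | ⟨l, hl, rfl⟩)
    · exact (h2 c h).le
    · exact (h3 l c hl h).le

theorem SI.bounds {p : ℕ → ℕ} (hp : p ∈ SI) (k : ℕ) : ∃ lo hi : ℝ, 0 ≤ lo ∧ lo < hi ∧ hi ≤ 1 ∧
    ∀ i < k, ∀ c, (p i = Nat.pair 0 c + 1 → dy c ≤ lo) ∧ (p i = Nat.pair 1 c + 1 → hi ≤ dy c) := by
  have : ∃ lo hi : ℝ, (lo = 0 ∨ ∃ l, rel p 0 l ∧ lo = dy l) ∧ (hi = 1 ∨ ∃ u, rel p 1 u ∧ hi = dy u) ∧
      0 ≤ lo ∧ hi ≤ 1 ∧ ∀ i < k, ∀ c, (p i = Nat.pair 0 c + 1 → dy c ≤ lo) ∧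
        (p i = Nat.pair 1 c + 1 → hi ≤ dy c) := by
    induction k with
    | zero => exact ⟨0, 1, Or.inl rfl, Or.inl rfl, le_rfl, le_rfl, by simp⟩
    | succ k ih =>
      obtain ⟨lo, hi, h1, h2, h3, h4, h5⟩ := ih
      by_cases ha : ∃ c, p k = Nat.pair 0 c + 1 ∧ lo < dy c
      · obtain ⟨c, hc, hc'⟩ := ha
        refine ⟨dy c, hi, Or.inr ⟨c, ⟨k, hc⟩, rfl⟩, h2, h3.trans hc'.le, h4, fun i hi c' => ?_⟩
        rcases Nat.lt_succ_iff_lt_or_eq.1 hi with hi | rfl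
        · exact ⟨fun h => ((h5 i hi c').1 h).trans hc'.le, (h5 i hi c').2⟩
        · simp only [hc, Nat.add_right_cancel_iff, Nat.pair_eq_pair]
          exact ⟨fun h => h.2 ▸ le_rfl, fun h => absurd h.1 (by omega)⟩
      by_cases hb : ∃ c, p k = Nat.pair 1 c + 1 ∧ dy c < hi
      · obtain ⟨c, hc, hc'⟩ := hb
        refine ⟨lo, dy c, h1, Or.inr ⟨c, ⟨k, hc⟩, rfl⟩, h3, hc'.le.trans h4, fun i hi c' => ?_⟩
        rcases Nat.lt_succ_iff_lt_or_eq.1 hi with hi | rfl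
        · exact ⟨(h5 i hi c').1, fun h => hc'.le.trans ((h5 i hi c').2 h)⟩
        · simp only [hc, Nat.add_right_cancel_iff, Nat.pair_eq_pair]
          exact ⟨fun h => absurd h.1 (by omega), fun h => h.2 ▸ le_rfl⟩
      · push Not at ha hb
        refine ⟨lo, hi, h1, h2, h3, h4, fun i hi c' => ?_⟩
        rcases Nat.lt_succ_iff_lt_or_eq.1 hi with hi | rfl
        · exact h5 i hi c'
        · exact ⟨ha c', hb c'⟩
  obtain ⟨lo, hi, h1, h2, h3, h4, h5⟩ := this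
  refine ⟨lo, hi, h3, ?_, h4, h5⟩
  rcases h1 with rfl | ⟨l, hl, rfl⟩ <;> rcases h2 with rfl | ⟨u, hu, rfl⟩
  · exact zero_lt_one
  · exact hp.2.1 u hu
  · exact hp.1 l hl
  · exact hp.2.2 l u hl hu

theorem SI.rich : Rich ⟨SI, IVT.sol⟩ := by
  refine ⟨⟨fun _ => 0, by simp [SI, rel]⟩, .of_closed fun q hq => ⟨?_, ?_, ?_⟩, fun p hp k => ?_⟩
  · rintro l ⟨i, hi⟩
    obtain ⟨p, hp, hA⟩ := hq (i + 1)
    exact hp.1 l (rel_of_agree hA.symm (Nat.lt_succ_self i) hi)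
  · rintro l ⟨i, hi⟩
    obtain ⟨p, hp, hA⟩ := hq (i + 1)
    exact hp.2.1 l (rel_of_agree hA.symm (Nat.lt_succ_self i) hi)
  · rintro l u ⟨i, hi⟩ ⟨j, hj⟩
    obtain ⟨p, hp, hA⟩ := hq (i + j + 1)
    exact hp.2.2 l u (rel_of_agree hA.symm (by omega) hi) (rel_of_agree hA.symm (by omega) hj)
  obtain ⟨lo, hi, h0, h1, h2, h3⟩ := SI.bounds hp k
  obtain ⟨s, hs1, hs2⟩ := exists_dy h0 h1
  obtain ⟨t, ht1, ht2⟩ := exists_dy (h0.trans hs1.le) hs2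
  let N : ℕ → ℕ → ℕ → ℕ := fun l v i => if i < k then p i else if i = k + l then v else 0
  have hN : ∀ l v a c, rel (N l v) a c → (∃ i < k, p i = Nat.pair a c + 1) ∨
      v = Nat.pair a c + 1 := by
    rintro l v a c ⟨i, hi⟩
    simp only [N] at hi
    split_ifs at hi with h h'
    · exact Or.inl ⟨i, h, hi⟩
    · exact Or.inr hi
  have hS : ∀ l v (lo' hi' : ℝ), lo ≤ lo' → lo' < hi' → hi' ≤ hi →
      (∀ c, v = Nat.pair 0 c + 1 → dy c ≤ lo') → (∀ c, v = Nat.pair 1 c + 1 → hi' ≤ dy c) →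
      N l v ∈ SI := by
    intro l v lo' hi' a1 a2 a3 a4 a5
    have b1 : ∀ c, rel (N l v) 0 c → dy c ≤ lo' := fun c hc =>
      (hN l v 0 c hc).elim (fun ⟨i, hi, h⟩ => ((h3 i hi c).1 h).trans a1) (a4 c)
    have b2 : ∀ c, rel (N l v) 1 c → hi' ≤ dy c := fun c hc =>
      (hN l v 1 c hc).elim (fun ⟨i, hi, h⟩ => a3.trans ((h3 i hi c).2 h)) (a5 c)
    exact ⟨fun c hc => by linarith [b1 c hc], fun c hc => by linarith [b2 c hc],
      fun c c' hc hc' => by linarith [b1 c hc, b2 c' hc']⟩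
  have hA : ∀ l v, Agree l (N 0 0) (N l v) := by
    intro l v i hi
    simp only [N]
    split_ifs <;> first | rfl | omega
  obtain ⟨n, hn⟩ := exists_pow_lt_of_lt_one (show 0 < (dy t - dy s) / 2 by linarith)
    (show (1 / 2 : ℝ) < 1 by norm_num)
  refine ⟨N 0 0, hS 0 0 lo hi le_rfl h1 le_rfl (by simp) (by simp), fun i hi => by simp [N, hi],
    n + 1, fun l => ⟨N l (Nat.pair 1 s + 1), hS _ _ lo (dy s) le_rfl hs1 hs2.le ?_ ?_,
      N l (Nat.pair 0 t + 1), hS _ _ (dy t) hi (by linarith) ht2 le_rfl ?_ ?_, hA _ _, hA _ _, ?_⟩⟩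
  · simp [Nat.pair_eq_pair]
  · simp [Nat.pair_eq_pair]
  · simp [Nat.pair_eq_pair]
  · simp [Nat.pair_eq_pair]
  · rintro r ⟨x, hx, h4⟩ r' ⟨y, hy, h5⟩ h
    have h6 := (hx.2.2 s).2 ⟨k + l, by simp [N]⟩
    have h7 := (hy.2.2 t).1 ⟨k + l, by simp [N]⟩
    have h8 := abs_le.1 (h4 n)
    have h9 := abs_le.1 (h5 n)
    rw [h n (Nat.lt_succ_self n)] at h8
    rw [one_div_pow] at hn
    linarith [h8.1, h9.2]

theorem not_ivt_ivt : ¬ WRed (prod IVT IVT) DIAG := fun h =>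
  h.cred.elim (not_prod_rich SI.sub SI.sub SI.rich SI.rich)

theorem not_ivt_non : ¬ WRed (prod IVT NON) DIAG := not_prod_non SI.sub SI.rich

theorem not_diag_diag : ¬ WRed (prod DIAG DIAG) DIAG := fun h =>
  not_ivt_ivt ((ivt_le_diag.prod ivt_le_diag).trans h)

end Pool.Agent.Lib.MP_5e3ef6_lc
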