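import Pool.Agent.Lib.MP_5e3ef6_lc.Meas

namespace Pool.Agent.Lib.MP_5e3ef6_lc

open MeasureTheory ProbabilityTheory

structure CondW (a : ℝ) where
  p : ℕ → ℕ
  k : ℕ
  η : ℝ
  ha : a < η
  hp : η < coin.real (AA p)

theorem not_wwkl_diag (ε : ENNReal) (hε : ε < 1) (R : CRed (WWKL ε) DIAG) : False := by
  classical
  have hε' : ε ≠ ⊤ := hε.ne_top
  have hε1 : ε.toReal < 1 := by
    have := (ENNReal.toReal_lt_toReal hε' ENNReal.one_ne_top).2 hε
    simpa using this
  have h0 : AA (fun _ => 0) = Set.univ := by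
    refine Set.eq_univ_of_forall fun x => ⟨fun n => (x n).2, fun i k h => ?_⟩
    simp at h
  refine no_red R (K := 3) (by omega) (C := CondW ε.toReal) CondW.p CondW.k
    (fun c q => Agree c.k c.p q ∧ c.η ≤ coin.real (AA q))
    (fun c c' => c.k < c'.k ∧ Agree c.k c.p c'.p ∧ c.η ≤ c'.η)
    ⟨fun _ => 0, 0, (ε.toReal + 1) / 2, by linarith, by rw [h0]; simp; linarith⟩
    (fun c c' h => ⟨h.1, h.2.1⟩) ?_ ?_
  · intro s _ hs q hq1 hq2
    have hF : ∀ i j, i ≤ j → (s i).η ≤ (s j).η := by
      intro i j hij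
      induction j, hij using Nat.le_induction with
      | base => exact le_rfl
      | succ j _ ih => exact ih.trans (hs j).2.2
    have key : ∀ i, (s i).η ≤ coin.real (AA q) := by
      intro i
      by_contra h
      obtain ⟨N, hN⟩ := limit_lt (not_le.1 h)
      have h1 := hq2 (i + N)
      rw [← AN_congr ((hq1 (i + N)).mono (by omega : N ≤ (s (i + N)).k))] at hN
      have h2 := measureReal_mono (μ := coin) (AA_subset (s (i + N)).p N)
      linarith [(s (i + N)).hp, hF i (i + N) (by omega)]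
    exact ⟨(wwkl_dom hε').2 (lt_of_lt_of_le (s 0).ha (key 0)), fun i => ⟨hq1 i, key i⟩⟩
  · intro c m e
    obtain ⟨η', h1, h2⟩ := exists_between c.hp
    by_cases hw : ∃ pw ∈ (WWKL ε).dom, Agree c.k c.p pw ∧ η' ≤ coin.real (AA pw) ∧
        Good 3 (rel (R.Φ pw)) m e
    swap
    · refine ⟨⟨c.p, c.k + 1, η', c.ha.trans h1, h2⟩, ⟨Nat.lt_succ_self _, Agree.refl _ _, h1.le⟩, ?_⟩
      rintro q hq ⟨h3, h4⟩ hg
      exact hw ⟨q, hq, h3.mono (Nat.le_succ _), h4, hg⟩
    obtain ⟨pw, hpw, hA, hη, hg⟩ := hw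
    have hE : Equivalence (rel (R.Φ pw)) := (R.dom pw hpw).1
    obtain ⟨r, hr⟩ := exists_pow_lt_of_lt_one (show 0 < η' - c.η by linarith)
      (show (3 / 4 : ℝ) < 1 by norm_num)
    let G : (ℕ → Fin m) → ℕ → Fin 2 := fun w n => if R.Ψ pw (e ∘ w) n = 0 then 0 else 1
    have hG : ∀ w, e ∘ w ∈ DIAG.sol (R.Φ pw) → (fun n => (G w n : ℕ)) = R.Ψ pw (e ∘ w) := by
      intro w hw
      funext n
      have := (R.sol pw hpw _ hw).1 n
      simp only [G]
      split_ifs with h
      · simp [h]
      · simp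
        omega
    obtain ⟨l, L, B, hB, hμ, hf⟩ := dgjm (fun w => e ∘ w ∈ DIAG.sol (R.Φ pw))
      (Comp (rel (R.Φ pw)) e) G (fun f w hf hw => hf.valid hE hw)
      (fun f0 f1 h0 h1 x => by
        obtain ⟨j, hj⟩ := hg.avoid (K := 2) ![f0, f1] (fun c => by fin_cases c <;> simpa) x
        exact ⟨j, hj 0, hj 1⟩)
      (fun L => by
        obtain ⟨l, hl⟩ := unif_aux R hpw e L
        refine ⟨l, fun w w' hw hw' hA i hi => ?_⟩
        have := hl w hw pw hpw _ hw' (Agree.refl _ _) (fun j hj => congrArg e (hA j hj)) i hi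
        simp only [G, this]) r
    obtain ⟨l2, hl2⟩ := transfer R hpw hg.2.1 e hg.1 L
    let k' := max l2 c.k
    let code : (ℕ → Fin 2) → ℕ := fun x => Encodable.encode (pre (fun n => (x n : ℕ)) L)
    obtain ⟨M, hM⟩ : ∃ M, ∀ x, code x < M := by
      let F : (Fin L → Fin 2) → ℕ := fun y =>
        Encodable.encode (pre (fun n => if h : n < L then (y ⟨n, h⟩ : ℕ) else 0) L)
      refine ⟨Finset.univ.sup F + 1, fun x => Nat.lt_succ_of_le ?_⟩
      have : code x = F (fun i => x i) := by
        simp only [code, F]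
        congr 1
        exact Agree.pre_eq (fun i hi => by simp [hi])
      rw [this]
      exact Finset.le_sup (Finset.mem_univ _)
    let p' : ℕ → ℕ := fun i => if i < k' then pw i else
      if ∃ x ∈ B, code x = i - k' then i - k' + 1 else 0
    have hsub : AA pw \ B ⊆ AA p' := by
      rintro x ⟨hx1, hx2⟩
      refine ⟨fun n => (x n).2, fun i k h => ?_⟩
      simp only [p'] at h
      split_ifs at h with h3 h4
      · exact hx1.2 i k h
      · obtain ⟨y, hy, hy'⟩ := h4
        rw [← hy'] at h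
        have h5 := Encodable.encode_injective (Nat.succ_injective h)
        have h6 : L = k := by simpa using congrArg List.length h5
        subst h6
        refine hx2 (hB y x (fun j hj => Fin.ext ?_) hy)
        have := congrArg (fun l => l.getD j 0) h5
        simpa only [getD_pre _ hj] using this
    have hμ' : c.η < coin.real (AA p') := by
      have h3 := measureReal_mono (μ := coin) hsub
      have h4 := le_measureReal_diff (μ := coin) (s₁ := AA pw) (s₂ := B)
      linarith
    refine ⟨⟨p', k' + M + 1, c.η, c.ha, hμ'⟩, ⟨by simp only [k']; omega, fun i hi => ?_, le_rfl⟩, ?_⟩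
    · have : i < k' := by simp only [k']; omega
      simp only [p', this, if_true]
      exact hA i hi
    · rintro q hq ⟨h3, -⟩ hgq
      obtain ⟨f, hCf, hf'⟩ := hl2 q hq (fun i hi => by
        have h4 : i < k' := by simp only [k']; omega
        rw [← h3 i (by dsimp only; omega)]
        simp [p', h4]) hgq.1
      obtain ⟨w, hw1, hw2⟩ := hf f hCf
      have hv := hCf.valid hE hw1
      obtain ⟨r', hr1, hr2⟩ := hf' w hw1
      have hGB := hw2 w hv (Agree.refl _ _)
      refine hr1.2 (code (G w) + k') L ?_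
      rw [← h3 _ (by have := hM (G w); dsimp only; omega), ← hr2.pre_eq, ← hG w hv]
      have : ∃ x ∈ B, code x = code (G w) := ⟨_, hGB, rfl⟩
      simp only [p', Nat.add_sub_cancel, this, if_true]
      rw [if_neg (by omega)]

theorem random (ε : ENNReal) (hε : ε < 1) :
    ¬ WRed (WWKL ε) DIAG ∧ ¬ WRed DIAG (prod CN (WWKL ε)) :=
  ⟨fun h => h.cred.elim (not_wwkl_diag ε hε), fun h => h.cred.elim (not_diag_cn_wwkl ε)⟩

end Pool.Agent.Lib.MP_5e3ef6_lc
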