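import Pool.Agent.Lib.MP_5e3ef6_lc.IvtNeg
import Pool.Agent.Lib.MP_5e3ef6_lc.Ideal
import Pool.Agent.Lib.MP_5e3ef6_lc.NegWWKL

namespace Pool.Agent.Lib.MP_5e3ef6_lc

open MeasureTheory ProbabilityTheory

theorem not_le_diag {P : Problem} {p : ℕ → ℕ} (hp : p ∈ P.dom) (hc : Computable p)
    (h : ∀ r ∈ P.sol p, ∃ f h, TRed f r ∧ Computable h ∧ (∀ n, f n ≤ h n) ∧ DNR f) :
    ¬ WRed P DIAG := by
  intro hW
  obtain ⟨R, h1, h2⟩ := hW.elim
  obtain ⟨d, J, ⟨⟨f0, hf0⟩, hj, hd⟩, h3, h4, h5⟩ := nonpa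
  have hpJ : p ∈ J := hd _ hf0 _ (TRed.of_computable hc _)
  obtain ⟨g, hg, hg'⟩ := h4 _ (hd _ hpJ _ (h1.tred ⟨p, hp⟩)) (R.dom p hp)
  obtain ⟨f, b, h6, h7, h8, h9⟩ := h _ (R.sol p hp g hg')
  exact h5 f b (h6.trans ((h2.tred ⟨(p, g), hp, hg'⟩).trans (h3 _ (hj _ hpJ _ hg)))) h7 h8 h9

theorem ce_phi (p : ℕ → ℕ) :
    CE p fun z : ℕ × ℕ => z.2 ∈ (Denumerable.ofNat Nat.Partrec.Code z.1).eval z.1 :=
  UCE.partrec (f := fun n => (Denumerable.ofNat Nat.Partrec.Code n).eval n)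
    (Nat.Partrec.Code.eval_part.comp (Computable.ofNat _) Computable.id)

theorem not_pa_diag : ¬ WRed PA DIAG := by
  classical
  refine not_le_diag (p := fun _ => 0) trivial (Computable.const 0) fun r hr => ?_
  obtain ⟨t, ht, ht'⟩ := CE.enum (p := fun _ => 0) (S := fun v => ∃ l : List ℕ,
      (Encodable.encode l = v ∧ 0 < l.length) ∧ l.getD (l.length - 1) 0 ∈
        (Denumerable.ofNat Nat.Partrec.Code (l.length - 1)).eval (l.length - 1)) (by
    refine UCE.ex ?_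
    exact (UCE.of_pr (by fun_prop)).and ((ce_phi _).comp
      (f := fun w : ℕ × List ℕ => (w.2.length - 1, w.2.getD (w.2.length - 1) 0)) (by fun_prop)))
  obtain ⟨s, hs, hs'⟩ := hr t ht ⟨fun n =>
    if 0 ∈ (Denumerable.ofNat Nat.Partrec.Code n).eval n then 1 else 0,
    fun n => by beta_reduce; split_ifs <;> omega, fun i k h => by
      obtain ⟨l, ⟨h1, h2⟩, h3⟩ := (ht' _).1 ⟨i, h⟩
      rw [Encodable.encode_injective h1, length_pre] at h2 h3
      rw [getD_pre _ (by omega)] at h3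
      split_ifs at h3 with h4
      · exact absurd (Part.mem_unique h3 h4) one_ne_zero
      · exact h4 h3⟩
  refine ⟨s, fun _ => 1, hs', Computable.const 1, fun n => Nat.lt_succ_iff.1 (hs.1 n),
    fun n hn => ?_⟩
  obtain ⟨i, hi⟩ := (ht' _).2 ⟨pre s (n + 1), ⟨rfl, by simp⟩, by
    simpa only [length_pre, Nat.add_sub_cancel, getD_pre s (Nat.lt_succ_self n)] using hn⟩
  exact hs.2 i _ hi

theorem coin_cyl (y : ℕ → Fin 2) (m : ℕ) : coin {x | Agree m y x} = 2⁻¹ ^ m := by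
  have : {x : ℕ → Fin 2 | Agree m y x} =
      Set.pi ((Finset.range m : Finset ℕ) : Set ℕ) (fun i => {y i}) := by
    ext x
    simp [Agree, eq_comm]
  rw [this, coin, Measure.infinitePi_pi _ (fun _ _ => MeasurableSet.of_discrete)]
  simp [uniformOn_univ]

theorem agree_of_pre {p q : ℕ → ℕ} {k : ℕ} (h : pre p k = pre q k) : Agree k p q := fun i hi => by
  rw [← getD_pre p hi, h, getD_pre q hi]

theorem encode_pre_le {q : ℕ → ℕ} (h : ∀ n, q n < 2) (m : ℕ) :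
    Encodable.encode (pre q m) ≤ Encodable.encode (pre (fun _ => 1) m) := by
  induction m generalizing q with
  | zero => rfl
  | succ m ih =>
    simp only [pre, List.range_succ_eq_map, List.map_cons, List.map_map,
      Encodable.encode_list_cons, Encodable.encode_nat]
    refine Nat.succ_le_succ ?_
    have h1 := ih (q := q ∘ Nat.succ) fun n => h _
    have h2 : q 0 ≤ 1 := Nat.lt_succ_iff.1 (h 0)
    have a1 : ∀ a b c, a ≤ b → Nat.pair a c ≤ Nat.pair b c := fun a b c h =>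
      h.eq_or_lt.elim (fun h => h ▸ le_rfl) fun h => (Nat.pair_lt_pair_left c h).le
    have a2 : ∀ a b c, a ≤ b → Nat.pair c a ≤ Nat.pair c b := fun a b c h =>
      h.eq_or_lt.elim (fun h => h ▸ le_rfl) fun h => (Nat.pair_lt_pair_right c h).le
    exact (a1 _ _ _ h2).trans (a2 _ _ _ h1)

theorem TRed.map {f p : ℕ → ℕ} (h : TRed f p) {F : ℕ → ℕ → ℕ}
    (hF : PR fun z : ℕ × ℕ => F z.1 z.2) : TRed (fun n => F n (f n)) p := by
  have : CE p fun z : ℕ × ℕ => ∃ v, f z.1 = v ∧ F z.1 v = z.2 := by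
    refine UCE.ex ?_
    exact (h.ce.comp (f := fun w : (ℕ × ℕ) × ℕ => (w.1.1, w.2)) (by fun_prop)).and
      (UCE.of_pr (by fun_prop))
  exact TRed.of_ce (this.congr fun z => by simp)

theorem TRed.pre {p : ℕ → ℕ} {u : ℕ → ℕ} (hu : PR u) :
    TRed (fun n => Encodable.encode (pre p (u n))) p := by
  have : CE p fun z : ℕ × ℕ => ∃ l : List ℕ, l = MP_5e3ef6_lc.pre p l.length ∧
      l.length = u z.1 ∧ Encodable.encode l = z.2 := by
    refine UCE.ex ?_
    exact (UCE.isPre.comp (f := fun w : (ℕ × ℕ) × List ℕ => w.2) (by fun_prop)).and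
      (UCE.of_pr (by fun_prop))
  refine TRed.of_ce (this.congr fun z => ⟨fun h => ⟨_, by simp, by simp, h⟩, ?_⟩)
  rintro ⟨l, h1, h2, h3⟩
  rw [← h3, ← h2, ← h1]

theorem le_measure_compl_aux {B : Set (ℕ → Fin 2)} {a : ENNReal} (h : coin B ≤ a) :
    1 - a ≤ coin Bᶜ := by
  rw [tsub_le_iff_right]
  calc (1 : ENNReal) = coin (Bᶜ ∪ B) := by simp
    _ ≤ coin Bᶜ + coin B := measure_union_le _ _
    _ ≤ coin Bᶜ + a := by gcongr

theorem dnr_test : ∃ r : ℕ → ℕ, TRed r (fun _ => 0) ∧ ∀ k,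
    (fun i => r (Nat.pair k i)) ∈ (WWKL (1 - 2⁻¹ ^ k)).dom ∧
    ∀ q ∈ paths fun i => r (Nat.pair k i), DNR fun n => Encodable.encode (pre q (n + k + 2)) := by
  obtain ⟨t, ht, ht'⟩ := CE.enum (p := fun _ => 0) (S := fun v => ∃ n, ∃ l : List ℕ,
      (Encodable.encode l = v.unpair.2 ∧ l.length = n + v.unpair.1 + 2) ∧
        v.unpair.2 ∈ (Denumerable.ofNat Nat.Partrec.Code n).eval n) (by
    refine UCE.ex (UCE.ex ?_)
    exact (UCE.of_pr (by fun_prop)).and ((ce_phi _).comp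
      (f := fun w : (ℕ × ℕ) × List ℕ => (w.1.2, w.1.1.unpair.2)) (by fun_prop)))
  refine ⟨fun n => if 0 < t n.unpair.2 ∧ (t n.unpair.2 - 1).unpair.1 = n.unpair.1 then
    (t n.unpair.2 - 1).unpair.2 + 1 else 0, (ht.comp (u := fun n => n.unpair.2) (by fun_prop)).map
      (F := fun n v => if 0 < v ∧ (v - 1).unpair.1 = n.unpair.1 then (v - 1).unpair.2 + 1 else 0)
      (by fun_prop), fun k => ?_⟩
  simp only [Nat.unpair_pair]
  have key : ∀ v, (∃ i, (if 0 < t i ∧ (t i - 1).unpair.1 = k then (t i - 1).unpair.2 + 1 else 0) =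
      v + 1) ↔ ∃ n, ∃ l : List ℕ, (Encodable.encode l = v ∧ l.length = n + k + 2) ∧
        v ∈ (Denumerable.ofNat Nat.Partrec.Code n).eval n := by
    intro v
    have := ht' (Nat.pair k v)
    simp only [Nat.unpair_pair] at this
    rw [← this]
    refine exists_congr fun i => ⟨fun h => ?_, fun h => by simp [h]⟩
    split_ifs at h with h1
    rw [← h1.2, ← Nat.succ_injective h, Nat.pair_unpair]
    omega
  refine ⟨?_, fun q hq n hn => ?_⟩
  · let B : ℕ → Set (ℕ → Fin 2) := fun n => {x | Encodable.encode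
      (pre (fun i => (x i : ℕ)) (n + k + 2)) ∈ (Denumerable.ofNat Nat.Partrec.Code n).eval n}
    have hB : ∀ n, coin (B n) ≤ 2⁻¹ ^ (k + 2) * 2⁻¹ ^ n := by
      intro n
      rcases (B n).eq_empty_or_nonempty with h | ⟨y, hy⟩
      · simp [h]
      · rw [← pow_add, ← coin_cyl y]
        refine measure_mono fun x hx i hi => Fin.ext ?_
        exact agree_of_pre (Encodable.encode_injective (Part.mem_unique hy hx)) i (by omega)
    have h1 : coin (⋃ n, B n) ≤ 2⁻¹ ^ (k + 1) := by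
      refine (measure_iUnion_le _).trans ((ENNReal.tsum_le_tsum hB).trans (le_of_eq ?_))
      rw [ENNReal.tsum_mul_left, ENNReal.tsum_geometric_two, pow_succ _ (k + 1), mul_assoc,
        ENNReal.inv_mul_cancel (by simp) (by simp), mul_one]
    have h2 : (⋃ n, B n)ᶜ ⊆ AA fun i =>
        if 0 < t i ∧ (t i - 1).unpair.1 = k then (t i - 1).unpair.2 + 1 else 0 := by
      intro x hx
      refine ⟨fun n => (x n).2, fun i m h => hx ?_⟩
      obtain ⟨n, l, ⟨h3, h4⟩, h5⟩ := (key _).1 ⟨i, h⟩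
      rw [Encodable.encode_injective h3, length_pre] at h4
      subst h4
      exact Set.mem_iUnion.2 ⟨n, h5⟩
    refine lt_of_lt_of_le ?_ (measure_mono h2)
    refine lt_of_lt_of_le ?_ (le_measure_compl_aux h1)
    refine ((ENNReal.cancel_of_ne (by simp)).tsub_lt_tsub_iff_left_of_le
      (ENNReal.cancel_of_ne (by simp)) (pow_le_one₀ (by simp) (by simp))).2 ?_
    rw [pow_succ, ← div_eq_mul_inv]
    exact ENNReal.half_lt_self (by simp) (by simp)
  · obtain ⟨i, hi⟩ := (key _).2 ⟨n, _, ⟨rfl, by simp⟩, hn⟩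
    exact hq.2 i _ hi

theorem not_mlr_diag : ¬ WRed MLR DIAG := by
  refine not_le_diag (p := fun _ => 0) trivial (Computable.const 0) fun q hq => ?_
  obtain ⟨r, hr, h⟩ := dnr_test
  obtain ⟨k, hk⟩ := hq r hr fun k => (h k).1
  exact ⟨_, _, TRed.pre (u := fun n => n + k + 2) (by fun_prop),
    (TRed.pre (p := fun _ => 1) (u := fun n => n + k + 2) (by fun_prop)).computable
      (Computable.const 1), fun n => encode_pre_le hk.1 _, (h k).2 q hk⟩

theorem exists_fresh {p0 : ℕ → ℕ} (hp0 : p0 ∈ PP) (k0 : ℕ) :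
    ∃ x, 2 ≤ x ∧ ∃ p1 ∈ PP, Agree k0 p0 p1 ∧ ∀ u, rel p1 u x → u = x := by
  obtain ⟨x, hx2, hx⟩ : ∃ x, 2 ≤ x ∧ ∀ i < k0, ∀ u v, p0 i = Nat.pair u v + 1 → u ≠ x ∧ v ≠ x := by
    refine ⟨(Finset.range k0).sup p0 + 2, by omega, fun i hi u v h => ?_⟩
    have h1 := Finset.le_sup (f := p0) (Finset.mem_range.2 hi)
    have h2 := Nat.left_le_pair u v
    have h3 := Nat.right_le_pair u v
    omega
  obtain ⟨p1, hA1, hp1⟩ := exists_name p0 k0 (fun u v => u = v ∨ (u ≠ x ∧ v ≠ x ∧ rel p0 u v))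
    (fun i hi u v h => Or.inr ⟨(hx i hi u v h).1, (hx i hi u v h).2, i, h⟩)
  refine ⟨x, hx2, p1, ⟨?_, ?_⟩, hA1, ?_⟩ <;> rw [hp1]
  · refine ⟨fun _ => Or.inl rfl, ?_, ?_⟩
    · rintro u v (h | ⟨h1, h2, h3⟩)
      · exact Or.inl h.symm
      · exact Or.inr ⟨h2, h1, hp0.1.symm h3⟩
    · rintro u v w (h | ⟨h1, h2, h3⟩) (h' | ⟨h4, h5, h6⟩)
      · exact Or.inl (h.trans h')
      · exact Or.inr ⟨h ▸ h4, h5, h ▸ h6⟩
      · exact Or.inr ⟨h1, h' ▸ h2, h' ▸ h3⟩
      · exact Or.inr ⟨h1, h5, hp0.1.trans h3 h6⟩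
  · rintro (h | ⟨-, -, h⟩)
    · omega
    · exact hp0.2 h
  · rintro u (h | ⟨-, h, -⟩)
    · exact h
    · exact absurd rfl h

theorem not_diag_dense {Q : Problem} (hne : ∀ r ∈ Q.dom, (Q.sol r).Nonempty)
    (hd : ∀ r ∈ Q.dom, ∀ q ∈ Q.sol r, ∀ r' ∈ Q.dom, ∀ k, ∃ q' ∈ Q.sol r', Agree k q q')
    (R : CRed DIAG (prod CN Q)) : False := by
  obtain ⟨m, p0, hp0, k0, hm⟩ := baire (fun m => {p | ∀ i, R.Φ p (2 * i) ≠ m + 1})
    (fun p hp => (R.dom p (PP.dom hp)).1) (fun m p hp h => cn_closed R m hp h)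
  obtain ⟨x, hx, p1, hp1, hA, hx'⟩ := exists_fresh hp0 k0
  have hJ : ∀ p ∈ PP, Agree k0 p0 p → ∀ q ∈ Q.sol fun n => R.Φ p (2 * n + 1),
      join (fun _ => m) q ∈ (prod CN Q).sol (R.Φ p) := fun p hp hA q hq =>
    ⟨by rw [join_ev]; exact hm p hp hA, by rwa [join_od]⟩
  obtain ⟨q, hq⟩ := hne _ (R.dom p1 (PP.dom hp1)).2
  obtain ⟨k, hk⟩ := R.cΨ p1 (PP.dom hp1) _ (hJ p1 hp1 hA q hq) (x + 1)
  generalize hy : R.Ψ p1 (join (fun _ => m) q) x = y
  obtain ⟨p2, hA2, hp2⟩ := exists_name p1 (max k k0)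
    (fun u v => rel p1 (if u = x then y else u) (if v = x then y else v)) (by
      intro i _ u v h
      have h : rel p1 u v := ⟨i, h⟩
      by_cases hv : v = x
      · rw [hv] at h
        simp only [hx' u h, hv]
        exact hp1.1.refl _
      · have hu : u ≠ x := fun hu => hv (hx' v (hp1.1.symm (hu ▸ h)))
        simpa [hu, hv] using h)
  have hP2 : p2 ∈ PP := by
    refine ⟨?_, ?_⟩ <;> rw [hp2]
    · exact ⟨fun _ => hp1.1.refl _, hp1.1.symm, hp1.1.trans⟩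
    · beta_reduce
      rw [if_neg (by omega), if_neg (by omega)]
      exact hp1.2
  obtain ⟨q2, hq2, hA3⟩ := hd _ (R.dom p1 (PP.dom hp1)).2 q hq _ (R.dom p2 (PP.dom hP2)).2 k
  have h1 := hJ p2 hP2 (hA.trans (hA2.mono (le_max_right _ _))) q2 hq2
  have h2 := R.sol p2 (PP.dom hP2) _ h1 x
  rw [← hk p2 (PP.dom hP2) _ h1 (hA2.mono (le_max_left _ _)) ((Agree.refl _ _).join hA3) x
    (Nat.lt_succ_self x), hy, hp2] at h2
  exact h2 (by simpa using hp1.1.refl y)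

theorem exists_enum_tred (p : ℕ → ℕ) : ∃ e : ℕ → ℕ → ℕ, ∀ r, TRed r p → ∃ i, e i = r := by
  classical
  obtain ⟨e, he⟩ := exists_enum
  refine ⟨fun i => if h : ∃ r, Computes (e i) p r then h.choose else p, fun r ⟨c, hc, hr⟩ => ?_⟩
  obtain ⟨i, rfl⟩ := he c hc
  have h : ∃ r, Computes (e i) p r := ⟨r, hr⟩
  exact ⟨i, by simp only [dif_pos h]; exact h.choose_spec.unique hr⟩

theorem pa_dense (p q : ℕ → ℕ) (k : ℕ) : ∃ q' ∈ PA.sol p, Agree k q q' := by
  classical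
  obtain ⟨e, he⟩ := exists_enum_tred p
  have : ∀ i, ∃ s, (paths (e i)).Nonempty → s ∈ paths (e i) := fun i =>
    if h : (paths (e i)).Nonempty then ⟨h.some, fun _ => h.some_mem⟩ else ⟨p, fun h' => absurd h' h⟩
  choose s hs using this
  refine ⟨fun n => if n < k then q n else s (n - k).unpair.1 (n - k).unpair.2, fun r hr hne => ?_,
    fun n hn => by simp [hn]⟩
  obtain ⟨i, rfl⟩ := he r hr
  refine ⟨s i, hs i hne, ?_⟩
  convert (TRed.refl _).comp (u := fun n => Nat.pair i n + k) (by fun_prop) using 1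
  funext n
  simp

theorem not_diag_pa : ¬ WRed DIAG (prod CN PA) := fun h => h.cred.elim
  (not_diag_dense (fun r _ => let ⟨q, hq, _⟩ := pa_dense r r 0; ⟨q, hq⟩)
    fun _ _ q _ r _ k => pa_dense r q k)

theorem mlr_dense (p : ℕ → ℕ) (y : ℕ → Fin 2) (k : ℕ) :
    ∃ q' ∈ MLR.sol p, Agree k (fun n => (y n : ℕ)) q' := by
  obtain ⟨e, he⟩ := exists_enum_tred p
  let N : ℕ → Set (ℕ → Fin 2) := fun j =>
    {x | (∀ n, (fun i => e j (Nat.pair n i)) ∈ (WWKL (1 - 2⁻¹ ^ n)).dom) ∧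
      ∀ n, x ∉ AA fun i => e j (Nat.pair n i)}
  have hN : ∀ j, coin (N j) = 0 := by
    intro j
    by_cases h : ∀ n, (fun i => e j (Nat.pair n i)) ∈ (WWKL (1 - 2⁻¹ ^ n)).dom
    · refine le_antisymm (ge_of_tendsto' (ENNReal.tendsto_pow_atTop_nhds_zero_of_lt_one
        (show (2⁻¹ : ENNReal) < 1 by simp)) fun n => ?_) bot_le
      refine (measure_mono (t := (AA fun i => e j (Nat.pair n i))ᶜ) fun x hx => hx.2 n).trans ?_
      rw [prob_compl_eq_one_sub (AA_meas _), tsub_le_iff_left]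
      exact tsub_le_iff_right.1 (h n).le
    · have : N j = ∅ := Set.eq_empty_of_forall_notMem fun x hx => h hx.1
      simp [this]
  obtain ⟨x, hx1, hx2⟩ : ∃ x, Agree k y x ∧ x ∉ ⋃ j, N j := by
    by_contra h
    push Not at h
    have := measure_mono_null (s := {x | Agree k y x}) h (measure_iUnion_null hN)
    rw [coin_cyl] at this
    simp at this
  refine ⟨fun n => x n, fun r hr h => ?_, fun i hi => congrArg Fin.val (hx1 i hi)⟩
  obtain ⟨j, rfl⟩ := he r hr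
  by_contra h'
  push Not at h'
  exact hx2 (Set.mem_iUnion.2 ⟨j, h, h'⟩)

theorem mlr_bin {p q : ℕ → ℕ} (h : q ∈ MLR.sol p) (n : ℕ) : q n < 2 := by
  obtain ⟨k, hk⟩ := h (fun _ => 0) (TRed.zero p) fun k => by
    have h0 : AA (fun _ => 0) = Set.univ :=
      Set.eq_univ_of_forall fun x => ⟨fun n => (x n).2, fun i k h => by simp at h⟩
    show _ < coin (AA fun _ => 0)
    rw [h0, measure_univ]
    exact ENNReal.sub_lt_self (by simp) (by simp) (by simp)
  exact hk.1 n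

theorem not_diag_mlr : ¬ WRed DIAG (prod CN MLR) := fun h => h.cred.elim
  (not_diag_dense (fun r _ => let ⟨q, hq, _⟩ := mlr_dense r 0 0; ⟨q, hq⟩)
    fun _ _ q hq r _ k => mlr_dense r (fun n => ⟨q n, mlr_bin hq n⟩) k)

end Pool.Agent.Lib.MP_5e3ef6_lc
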