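import Pool.Agent.Lib.MP_5e3ef6_lc.Quot2
import Pool.Agent.Lib.MP_5e3ef6_lc.PaMlr

namespace Pool.Agent.Lib.MP_5e3ef6_lc

theorem ivt_computable {p : ℕ → ℕ} (hp : p ∈ IVT.dom) : ∃ q ∈ IVT.sol p, TRed q p := by
  obtain ⟨x, hx⟩ := hp
  have hfl : ∀ x : ℝ, 0 ≤ x → ∀ n, (⌊x * 2 ^ n⌋₊ : ℝ) / 2 ^ n ≤ x ∧
      x < (⌊x * 2 ^ n⌋₊ + 1) / 2 ^ n := fun x hx n =>
    ⟨(div_le_iff₀ (by positivity)).2 (Nat.floor_le (by positivity)),
      (lt_div_iff₀ (by positivity)).2 (Nat.lt_floor_add_one _)⟩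
  by_cases h : ∃ c, dy c ∈ seg p
  · obtain ⟨c, hc⟩ := h
    obtain ⟨q, hq, hq'⟩ := CE.select (p := p)
      (R := fun n m => ¬ dlt c (Nat.pair m n) ∧ dlt c (Nat.pair (m + 1) n))
      (UCE.of_pr (by fun_prop)) fun n => ⟨⌊dy c * 2 ^ n⌋₊, by
        simpa only [dlt_iff, dy_pair, not_lt, Nat.cast_add, Nat.cast_one] using hfl _ hc.1 n⟩
    refine ⟨q, ⟨_, hc, fun n => ?_⟩, hq⟩
    have := hq' n
    simp only [dlt_iff, dy_pair, not_lt, Nat.cast_add, Nat.cast_one, add_div] at this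
    rw [abs_le]
    have h1 : (0 : ℝ) < 1 / 2 ^ n := by positivity
    constructor <;> linarith [this.1, this.2]
  push Not at h
  obtain ⟨q, hq, hq'⟩ := CE.select (p := p) (R := fun n m =>
    (m = 0 ∨ ∃ l, rel p 0 l ∧ dlt (Nat.pair m n) l) ∧
      (2 ^ n ≤ m + 1 ∨ ∃ u, rel p 1 u ∧ dlt u (Nat.pair (m + 1) n))) (by
    refine UCE.and ((UCE.of_pr (by fun_prop)).or (UCE.ex ?_))
      ((UCE.of_pr (by fun_prop)).or (UCE.ex ?_))
    · exact (UCE.rel.comp (f := fun w : (ℕ × ℕ) × ℕ => (0, w.2)) (by fun_prop)).and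
        (UCE.of_pr (by fun_prop))
    · exact (UCE.rel.comp (f := fun w : (ℕ × ℕ) × ℕ => (1, w.2)) (by fun_prop)).and
        (UCE.of_pr (by fun_prop))) (by
    intro n
    obtain ⟨h1, h2⟩ := hfl x hx.1 n
    refine ⟨⌊x * 2 ^ n⌋₊, Or.inr ?_, ?_⟩
    · by_contra h3
      push Not at h3
      simp only [dlt_iff, not_lt] at h3
      rw [← dy_pair] at h1
      exact h _ ⟨by rw [dy_pair]; positivity, h1.trans hx.2.1, fun c =>
        ⟨h3 c, fun hc => h1.trans ((hx.2.2 c).2 hc)⟩⟩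
    · by_contra h3
      push Not at h3
      simp only [dlt_iff, not_lt] at h3
      have h4 : x < dy (Nat.pair (⌊x * 2 ^ n⌋₊ + 1) n) := by
        rw [dy_pair]
        exact_mod_cast h2
      refine h _ ⟨hx.1.trans h4.le, ?_, fun c =>
        ⟨fun hc => ((hx.2.2 c).1 hc).trans h4.le, h3.2 c⟩⟩
      rw [dy_pair, div_le_one (by positivity)]
      exact_mod_cast h3.1.le)
  refine ⟨q, ⟨x, hx, fun n => ?_⟩, hq⟩
  obtain ⟨h1, h2⟩ := hq' n
  have h0 : (0 : ℝ) < 1 / 2 ^ n := by positivity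
  have h3 : (q n : ℝ) / 2 ^ n ≤ x := by
    rcases h1 with h1 | ⟨l, h1, h3⟩
    · simpa [h1] using hx.1
    · rw [dlt_iff, dy_pair] at h3
      exact h3.le.trans ((hx.2.2 l).1 h1)
  have h4 : x ≤ ((q n : ℝ) + 1) / 2 ^ n := by
    rcases h2 with h2 | ⟨l, h2, h4⟩
    · refine hx.2.1.trans ?_
      rw [one_le_div (by positivity)]
      exact_mod_cast h2
    · rw [dlt_iff, dy_pair] at h4
      push_cast at h4
      exact ((hx.2.2 l).2 h2).trans h4.le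
  rw [add_div] at h4
  rw [abs_le]
  constructor <;> linarith

theorem fc_computable {k : ℕ} {p : ℕ → ℕ} (hp : p ∈ (FC k).dom) :
    ∃ q ∈ (FC k).sol p, TRed q p := by
  obtain ⟨⟨y, hy⟩, h⟩ := hp
  obtain ⟨i, hi⟩ := exists_sep (Set.finite_of_encard_le_coe h)
  refine ⟨y, hy, TRed.of_ce (CE.congr (UCE.all_paths (R := fun (z : ℕ × ℕ) l =>
    decide (l.length = i + z.1 + 1 ∧ (l.take i = pre y i → l.getD z.1 0 = z.2))) ?_) fun z => ?_)⟩
  · simp only [imp_iff_not_or]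
    fun_prop
  simp only [decide_eq_true_eq, length_pre]
  refine ⟨fun h x hx => ⟨_, rfl, fun h' => ?_⟩, fun h => ?_⟩
  · rw [take_pre x (by omega)] at h'
    rw [getD_pre x (by omega), hi x hx y hy (agree_of_pre' h'), h]
  · obtain ⟨_, rfl, h⟩ := h y hy
    rw [take_pre y (by omega), getD_pre y (by omega)] at h
    exact h rfl

theorem not_diag_computable {Q : Problem} (hQ : ∀ p ∈ Q.dom, ∃ q ∈ Q.sol p, TRed q p) :
    ¬ WRed DIAG (prod CN Q) := by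
  intro h
  obtain ⟨R, h1, h2⟩ := (cn_dnc_le_diag.of_cn_prod.trans h).elim
  obtain ⟨F, hF, hF'⟩ := UCE.enum' (S := fun (_ : Unit) n v =>
    v ∈ (Denumerable.ofNat Nat.Partrec.Code n).eval n) (ce_phi fun _ => 0)
  have hd : F () ∈ (DNC ⊤).dom := fun n a b => by
    rw [hF']
    exact Part.mem_unique
  obtain ⟨⟨m, hm⟩, h3⟩ := R.dom _ hd
  obtain ⟨q, hq, hq'⟩ := hQ _ h3
  have hs : join (fun _ => m) q ∈ (prod CN Q).sol (R.Φ (F ())) :=
    ⟨by rw [join_ev]; exact hm, by rwa [join_od]⟩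
  have h4 : TRed (R.Φ (F ())) fun _ => 0 := (h1.tred ⟨_, hd⟩).trans (hF.tred ())
  refine not_dnr (((h2.tred ⟨(_, _), hd, hs⟩).trans ((hF.tred ()).join
    ((TRed.of_computable (Computable.const m) _).join
      (hq'.trans (h4.comp (by fun_prop)))))).computable (Computable.const 0)) fun n => ?_
  have := (R.sol _ hd _ hs n).2
  rwa [hF'] at this

theorem location :
    (∀ k : ℕ∞, 2 ≤ k → (WRed DIAG (prod CN (DNC k)) ↔ k = 2) ∧ ¬ WRed DIAG (DNC k) ∧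
      (WRed (DNC k) DIAG ↔ k = ⊤) ∧ (WRed (prod CN (DNC k)) DIAG ↔ k = ⊤)) ∧
    (∀ P, P = PA ∨ P = MLR ∨ (∃ ε < 1, P = WWKL ε) →
      ¬ WRed P DIAG ∧ ¬ WRed DIAG (prod CN P)) ∧
    (∀ k : ℕ, (WRed (FC k) DIAG ↔ k ≤ 2) ∧ ¬ WRed DIAG (prod CN (FC k))) ∧
    ¬ WRed DIAG (prod CN IVT) ∧
    ∀ P, P = FC 2 ∨ P = IVT ∨ P = DIAG → ∀ Q, WRed (prod Q P) DIAG ↔ WRed Q CN := by
  refine ⟨fun k hk => ?_, ?_, fun k => ⟨fc_iff k, not_diag_computable fun _ => fc_computable⟩,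
    not_diag_computable fun _ => ivt_computable, quotients⟩
  · obtain ⟨h1, h2, h3, h4⟩ := position k hk
    exact ⟨h3, h1, h2, h4⟩
  · rintro P (rfl | rfl | ⟨ε, hε, rfl⟩)
    · exact ⟨not_pa_diag, not_diag_pa⟩
    · exact ⟨not_mlr_diag, not_diag_mlr⟩
    · exact random ε hε

end Pool.Agent.Lib.MP_5e3ef6_lc
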