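import Pool.Agent.Lib.MP_5e3ef6_lc.Upper

namespace Pool.Agent.Lib.MP_5e3ef6_lc

def walk (A : ℕ → ℕ → Bool) (x : ℕ) (ws : List ℕ) : Option ℕ :=
  ws.foldl (fun o y => o.bind fun z => if A z y = true then some y else none) (some x)

theorem walk_sound (A : ℕ → ℕ → Bool) (x : ℕ) (ws : List ℕ) :
    ∀ y, walk A x ws = some y → Relation.ReflTransGen (fun a b => A a b = true) x y := by
  induction ws using List.reverseRecOn with
  | nil =>
    intro y h
    simp only [walk, List.foldl_nil, Option.some.injEq] at h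
    exact h ▸ Relation.ReflTransGen.refl
  | append_singleton ws w ih =>
    intro y h
    simp only [walk, List.foldl_append, List.foldl_cons, List.foldl_nil] at h
    obtain ⟨z, hz, h⟩ := Option.bind_eq_some_iff.1 h
    split_ifs at h with hA
    rw [← Option.some.inj h]
    exact (ih z hz).tail hA

theorem walk_complete (A : ℕ → ℕ → Bool) {x y : ℕ}
    (h : Relation.ReflTransGen (fun a b => A a b = true) x y) : ∃ ws, walk A x ws = some y := by
  induction h with
  | refl => exact ⟨[], rfl⟩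
  | @tail b c _ hbc ih =>
    obtain ⟨ws, hws⟩ := ih
    refine ⟨ws ++ [c], ?_⟩
    simp only [walk, List.foldl_append, List.foldl_cons, List.foldl_nil] at hws ⊢
    rw [hws]
    simp [hbc]

theorem rtg_mono {r s : ℕ → ℕ → Prop} {x y : ℕ} (h : Relation.ReflTransGen r x y)
    (H : ∀ a b, r a b → s a b) : Relation.ReflTransGen s x y := by
  induction h with
  | refl => exact Relation.ReflTransGen.refl
  | tail _ hbc ih => exact ih.tail (H _ _ hbc)

def remB (l : List ℕ) (v : ℕ) : Bool :=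
  (List.range l.length).any fun i => decide (i % 2 = 0) && decide (l.getD i 0 = v + 1)

def forbB (l : List ℕ) (n y : ℕ) : Bool :=
  (List.range l.length).any fun i => decide (i % 2 = 1) && decide (l.getD i 0 = Nat.pair n y + 1)

def allB (l : List ℕ) (v : ℕ) : Bool := (List.range v).all fun j => remB l j

def aliveB (l : List ℕ) (c : ℕ) : Bool :=
  !remB l c.unpair.2 && allB (l.take c.unpair.1) c.unpair.2 &&
    (decide (c.unpair.1 = 0) || !allB (l.take (c.unpair.1 - 1)) c.unpair.2)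

def edgeB (l : List ℕ) (z y : ℕ) : Bool :=
  decide (0 < z) && decide ((z - 1).unpair.1 ≤ l.length) &&
    ((!aliveB l (z - 1).unpair.1 && decide (y = 0)) ||
      (aliveB l (z - 1).unpair.1 && decide (y < l.length) && decide (0 < (z - 1).unpair.2) &&
        forbB l ((z - 1).unpair.2 - 1) y))

def adjB (l : List ℕ) (z y : ℕ) : Bool :=
  (List.range (l.length + 1)).any fun t => edgeB (l.take t) z y || edgeB (l.take t) y z

def loF (l : List ℕ) (i : ℕ) : ℕ :=
  ((walk (adjB (l.take i.unpair.2.unpair.1)) i.unpair.1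
    ((Encodable.decode i.unpair.2.unpair.2 : Option (List ℕ)).getD [])).bind
      fun y => some (Nat.pair i.unpair.1 y + 1)).getD 0

@[fun_prop] theorem pr_remB {α : Type} [Primcodable α] {f : α → List ℕ} {g : α → ℕ} (hf : PR f)
    (hg : PR g) : PR fun a => remB (f a) (g a) := by
  unfold remB
  fun_prop

@[fun_prop] theorem pr_forbB {α : Type} [Primcodable α] {f : α → List ℕ} {g h : α → ℕ} (hf : PR f)
    (hg : PR g) (hh : PR h) : PR fun a => forbB (f a) (g a) (h a) := by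
  unfold forbB
  fun_prop

@[fun_prop] theorem pr_allB {α : Type} [Primcodable α] {f : α → List ℕ} {g : α → ℕ} (hf : PR f)
    (hg : PR g) : PR fun a => allB (f a) (g a) := by
  unfold allB
  fun_prop

@[fun_prop] theorem pr_aliveB {α : Type} [Primcodable α] {f : α → List ℕ} {g : α → ℕ} (hf : PR f)
    (hg : PR g) : PR fun a => aliveB (f a) (g a) := by
  unfold aliveB
  fun_prop

@[fun_prop] theorem pr_edgeB {α : Type} [Primcodable α] {f : α → List ℕ} {g h : α → ℕ} (hf : PR f)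
    (hg : PR g) (hh : PR h) : PR fun a => edgeB (f a) (g a) (h a) := by
  unfold edgeB
  fun_prop

@[fun_prop] theorem pr_adjB {α : Type} [Primcodable α] {f : α → List ℕ} {g h : α → ℕ} (hf : PR f)
    (hg : PR g) (hh : PR h) : PR fun a => adjB (f a) (g a) (h a) := by
  unfold adjB
  fun_prop

theorem pr_loF : PR fun x : List ℕ × ℕ => loF x.1 x.2 := by
  unfold loF walk
  fun_prop

def Rem (p : ℕ → ℕ) (s v : ℕ) : Prop := ∃ i, 2 * i < s ∧ p (2 * i) = v + 1

def Forb (p : ℕ → ℕ) (s n y : ℕ) : Prop := ∃ i, 2 * i + 1 < s ∧ p (2 * i + 1) = Nat.pair n y + 1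

def Alive (p : ℕ → ℕ) (s c : ℕ) : Prop :=
  ¬ Rem p s c.unpair.2 ∧ (∀ j < c.unpair.2, Rem p c.unpair.1 j) ∧
    (c.unpair.1 = 0 ∨ ¬ ∀ j < c.unpair.2, Rem p (c.unpair.1 - 1) j)

def Edge (p : ℕ → ℕ) (s z y : ℕ) : Prop :=
  ∃ c n, z = Nat.pair c n + 1 ∧ c ≤ s ∧ ((¬ Alive p s c ∧ y = 0) ∨
    (Alive p s c ∧ y < s ∧ 0 < n ∧ Forb p s (n - 1) y))

theorem remB_iff (p : ℕ → ℕ) (s v : ℕ) : remB (pre p s) v = true ↔ Rem p s v := by
  simp only [remB, length_pre, List.any_eq_true, List.mem_range, Bool.and_eq_true,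
    decide_eq_true_eq, Rem]
  constructor
  · rintro ⟨i, hi, h1, h2⟩
    rw [getD_pre p hi] at h2
    obtain ⟨j, rfl⟩ : ∃ j, i = 2 * j := ⟨i / 2, by omega⟩
    exact ⟨j, hi, h2⟩
  · rintro ⟨i, hi, h⟩
    exact ⟨2 * i, hi, by omega, by rw [getD_pre p hi, h]⟩

theorem forbB_iff (p : ℕ → ℕ) (s n y : ℕ) : forbB (pre p s) n y = true ↔ Forb p s n y := by
  simp only [forbB, length_pre, List.any_eq_true, List.mem_range, Bool.and_eq_true,
    decide_eq_true_eq, Forb]
  constructor
  · rintro ⟨i, hi, h1, h2⟩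
    rw [getD_pre p hi] at h2
    obtain ⟨j, rfl⟩ : ∃ j, i = 2 * j + 1 := ⟨i / 2, by omega⟩
    exact ⟨j, hi, h2⟩
  · rintro ⟨i, hi, h⟩
    exact ⟨2 * i + 1, hi, by omega, by rw [getD_pre p hi, h]⟩

theorem allB_iff (p : ℕ → ℕ) (s v : ℕ) : allB (pre p s) v = true ↔ ∀ j < v, Rem p s j := by
  simp [allB, remB_iff]

theorem aliveB_iff (p : ℕ → ℕ) {s c : ℕ} (h : c ≤ s) :
    aliveB (pre p s) c = true ↔ Alive p s c := by
  have h1 := Nat.unpair_left_le c
  simp only [aliveB, take_pre p (show c.unpair.1 ≤ s by omega),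
    take_pre p (show c.unpair.1 - 1 ≤ s by omega), Bool.and_eq_true, Bool.or_eq_true,
    Bool.not_eq_true', decide_eq_true_eq, ← Bool.not_eq_true, remB_iff, allB_iff, Alive, and_assoc]

theorem edgeB_iff (p : ℕ → ℕ) (s z y : ℕ) : edgeB (pre p s) z y = true ↔ Edge p s z y := by
  simp only [edgeB, length_pre, Bool.and_eq_true, Bool.or_eq_true, Bool.not_eq_true',
    decide_eq_true_eq, ← Bool.not_eq_true, forbB_iff, Edge]
  constructor
  · rintro ⟨⟨h0, h1⟩, h⟩
    rw [aliveB_iff p h1] at h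
    refine ⟨_, (z - 1).unpair.2, by rw [Nat.pair_unpair]; omega, h1, ?_⟩
    tauto
  · rintro ⟨c, n, rfl, h1, h⟩
    simp only [Nat.add_sub_cancel, Nat.unpair_pair, aliveB_iff p h1]
    refine ⟨⟨by omega, h1⟩, ?_⟩
    tauto

theorem adjB_iff (p : ℕ → ℕ) (s z y : ℕ) :
    adjB (pre p s) z y = true ↔ ∃ t ≤ s, Edge p t z y ∨ Edge p t y z := by
  simp only [adjB, length_pre, List.any_eq_true, List.mem_range, Bool.or_eq_true, Nat.lt_succ_iff]
  refine exists_congr fun t => and_congr_right fun ht => ?_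
  rw [take_pre p ht, edgeB_iff, edgeB_iff]

def Adj (p : ℕ → ℕ) (z y : ℕ) : Prop := ∃ t, Edge p t z y ∨ Edge p t y z

theorem loF_rel (p : ℕ → ℕ) (x y : ℕ) :
    rel (fun i => loF (pre p (i + 1)) i) x y ↔ Relation.ReflTransGen (Adj p) x y := by
  have key : ∀ i, (pre p (i + 1)).take i.unpair.2.unpair.1 = pre p i.unpair.2.unpair.1 := by
    intro i
    have h1 := Nat.unpair_right_le i
    have h2 := Nat.unpair_left_le i.unpair.2
    exact take_pre p (by omega)
  constructor
  · rintro ⟨i, hi⟩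
    simp only [loF, key] at hi
    generalize hw : walk (adjB (pre p i.unpair.2.unpair.1)) i.unpair.1
      ((Encodable.decode i.unpair.2.unpair.2 : Option (List ℕ)).getD []) = o at hi
    cases o with
    | none => simp at hi
    | some z =>
      simp only [Option.bind_some, Option.getD_some, Nat.add_right_cancel_iff,
        Nat.pair_eq_pair] at hi
      obtain ⟨rfl, rfl⟩ := hi
      refine rtg_mono (walk_sound _ _ _ _ hw) fun a b h => ?_
      obtain ⟨t, -, h⟩ := (adjB_iff _ _ _ _).1 h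
      exact ⟨t, h⟩
  · intro h
    have : ∃ s, Relation.ReflTransGen (fun a b => adjB (pre p s) a b = true) x y := by
      induction h with
      | refl => exact ⟨0, Relation.ReflTransGen.refl⟩
      | @tail b c _ hbc ih =>
        obtain ⟨s, hs⟩ := ih
        obtain ⟨t, ht⟩ := hbc
        refine ⟨max s t, (rtg_mono hs fun a b h => ?_).tail
          ((adjB_iff _ _ _ _).2 ⟨t, le_max_right _ _, ht⟩)⟩
        obtain ⟨u, hu, h⟩ := (adjB_iff _ _ _ _).1 h
        exact (adjB_iff _ _ _ _).2 ⟨u, hu.trans (le_max_left _ _), h⟩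
    obtain ⟨s, hs⟩ := this
    obtain ⟨ws, hws⟩ := walk_complete _ hs
    refine ⟨Nat.pair x (Nat.pair s (Encodable.encode ws)), ?_⟩
    simp only [loF, key]
    simp [hws]

theorem Rem.mono {p : ℕ → ℕ} {s t v : ℕ} (h : Rem p s v) (hst : s ≤ t) : Rem p t v := by
  obtain ⟨i, hi, h⟩ := h
  exact ⟨i, by omega, h⟩

theorem Alive.unique {p : ℕ → ℕ} {s c c' : ℕ} (h : Alive p s c) (h' : Alive p s c') (hc : c ≤ s)
    (hc' : c' ≤ s) : c = c' := by
  have h1 := Nat.unpair_left_le c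
  have h2 := Nat.unpair_left_le c'
  have hv : c.unpair.2 = c'.unpair.2 := by
    rcases lt_trichotomy c.unpair.2 c'.unpair.2 with hl | hl | hl
    · exact absurd ((h'.2.1 _ hl).mono (by omega)) h.1
    · exact hl
    · exact absurd ((h.2.1 _ hl).mono (by omega)) h'.1
  have hm : c.unpair.1 = c'.unpair.1 := by
    rcases lt_trichotomy c.unpair.1 c'.unpair.1 with hl | hl | hl
    · rcases h'.2.2 with h0 | h0
      · omega
      · exact absurd (fun j hj => (h.2.1 j (hv ▸ hj)).mono (by omega)) h0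
    · exact hl
    · rcases h.2.2 with h0 | h0
      · omega
      · exact absurd (fun j hj => (h'.2.1 j (hv ▸ hj)).mono (by omega)) h0
  rw [← Nat.pair_unpair c, ← Nat.pair_unpair c', hv, hm]

theorem exists_survivor {p : ℕ → ℕ} (h : ∃ n, ∀ i, p (2 * i) ≠ n + 1) :
    ∃ c, ∀ s, Alive p s c := by
  classical
  have hm : ∃ m, ∀ j < Nat.find h, Rem p m j := by
    have : ∀ j, ∃ i, j < Nat.find h → p (2 * i) = j + 1 := by
      intro j
      by_cases hj : j < Nat.find h
      · have := Nat.find_min h hj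
        push Not at this
        obtain ⟨i, hi⟩ := this
        exact ⟨i, fun _ => hi⟩
      · exact ⟨0, fun h' => absurd h' hj⟩
    choose I hI using this
    refine ⟨2 * (Finset.range (Nat.find h)).sup I + 1, fun j hj => ⟨I j, ?_, hI j hj⟩⟩
    have := Finset.le_sup (f := I) (Finset.mem_range.2 hj)
    omega
  refine ⟨Nat.pair (Nat.find hm) (Nat.find h), fun s => ?_⟩
  simp only [Alive, Nat.unpair_pair]
  refine ⟨fun ⟨i, _, hi⟩ => Nat.find_spec h i hi, Nat.find_spec hm, ?_⟩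
  rcases Nat.eq_zero_or_pos (Nat.find hm) with h0 | h0
  · exact Or.inl h0
  · exact Or.inr (Nat.find_min hm (by omega))

theorem lo_nontotal {p : ℕ → ℕ} (hp : p ∈ (prod CN (DNC ⊤)).dom) :
    ∃ x y, ¬ Relation.ReflTransGen (Adj p) x y := by
  obtain ⟨c0, hc0⟩ := exists_survivor hp.1
  let D : ℕ → ℕ → Prop := fun z y => ∃ t, Edge p t z y
  let S : ℕ → Prop := fun z => (∃ n, z = Nat.pair c0 n + 1) ∧
    Relation.ReflTransGen (fun z y => D z y ∧ ∃ n, y = Nat.pair c0 n + 1) z (Nat.pair c0 0 + 1)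
  have hedge : ∀ n y t, Edge p t (Nat.pair c0 n + 1) y → 0 < n ∧ Forb p t (n - 1) y := by
    rintro n y t ⟨c, n', h, -, h' | h'⟩
    · obtain ⟨rfl, rfl⟩ := Nat.pair_eq_pair.1 (Nat.succ_injective h)
      exact absurd (hc0 t) h'.1
    · obtain ⟨rfl, rfl⟩ := Nat.pair_eq_pair.1 (Nat.succ_injective h)
      exact h'.2.2
  have out : ∀ z y, S z → D z y → S y := by
    rintro z y ⟨⟨n, rfl⟩, hz⟩ ⟨t, ht⟩
    obtain ⟨hn, i, -, hi⟩ := hedge n y t ht
    rcases hz.cases_head with h | ⟨w, ⟨⟨t', ht'⟩, hw⟩, hw'⟩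
    · have := (Nat.pair_eq_pair.1 (Nat.succ_injective h)).2
      omega
    · obtain ⟨-, i', -, hi'⟩ := hedge n w t' ht'
      have : y = w := hp.2 (n - 1) y w ⟨i, hi⟩ ⟨i', hi'⟩
      subst this
      exact ⟨hw, hw'⟩
  have inn : ∀ z y, S y → D z y → S z := by
    rintro z y ⟨⟨n, hn⟩, hy⟩ ⟨t, ht⟩
    obtain ⟨c, n', rfl, hc, h' | h'⟩ := id ht
    · omega
    · have h1 := Nat.left_le_pair c0 n
      have : c = c0 := h'.1.unique (hc0 t) hc (by omega)
      subst this
      exact ⟨⟨n', rfl⟩, hy.head ⟨⟨t, ht⟩, n, hn⟩⟩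
  refine ⟨Nat.pair c0 0 + 1, 0, fun h => ?_⟩
  have : ∀ y, Relation.ReflTransGen (Adj p) (Nat.pair c0 0 + 1) y → S y := by
    intro y hy
    induction hy with
    | refl => exact ⟨⟨0, rfl⟩, Relation.ReflTransGen.refl⟩
    | tail _ hbc ih =>
      obtain ⟨t, h | h⟩ := hbc
      · exact out _ _ ih ⟨t, h⟩
      · exact inn _ _ ih ⟨t, h⟩
  obtain ⟨⟨n, hn⟩, -⟩ := this 0 h
  omega

theorem cn_dnc_le_diag : WRed (prod CN (DNC ⊤)) DIAG := by
  refine ⟨fun l n => if n < l.length then some (loF (l.take (n + 1)) n) else none,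
    fun l n => if 2 * (Nat.pair (l.getD 1 0 - 1).unpair.1 (n / 2 + 1) + 1) + 1 < l.length then
      some (if n % 2 = 0 then (l.getD 1 0 - 1).unpair.1.unpair.2 else
        l.getD (2 * (Nat.pair (l.getD 1 0 - 1).unpair.1 (n / 2 + 1) + 1) + 1) 0) else none,
    ?_, ?_, ?_⟩
  · have := pr_loF
    apply PR.computable₂
    fun_prop
  · apply PR.computable₂
    fun_prop
  intro p hp
  have hrel : rel (fun i => loF (pre p (i + 1)) i) = Relation.ReflTransGen (Adj p) := by
    funext x y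
    exact propext (loF_rel p x y)
  have hsymm : ∀ {x y}, Relation.ReflTransGen (Adj p) x y → Relation.ReflTransGen (Adj p) y x := by
    intro x y h
    induction h with
    | refl => exact Relation.ReflTransGen.refl
    | tail _ hbc ih =>
      obtain ⟨t, ht⟩ := hbc
      exact ih.head ⟨t, ht.symm⟩
  refine ⟨_, ⟨?_, ?_⟩, computes_take loF p, ?_⟩
  · rw [hrel]
    exact ⟨fun _ => Relation.ReflTransGen.refl, hsymm, Relation.ReflTransGen.trans⟩
  · rw [hrel]
    exact lo_nontotal hp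
  intro g hg
  have hg' : ∀ x, ¬ Relation.ReflTransGen (Adj p) (g x) x := fun x => hrel ▸ hg x
  have h0 : 0 < g 0 := by
    rcases Nat.eq_zero_or_pos (g 0) with h | h
    · exact absurd (by rw [h]) (hg' 0)
    · exact h
  have hal : ∀ s, (g 0 - 1).unpair.1 ≤ s → Alive p s (g 0 - 1).unpair.1 := by
    intro s hs
    by_contra h
    refine hg' 0 (Relation.ReflTransGen.single ⟨s, Or.inl ⟨_, (g 0 - 1).unpair.2, ?_, hs,
      Or.inl ⟨h, rfl⟩⟩⟩)
    rw [Nat.pair_unpair]
    omega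
  refine ⟨join (fun _ => (g 0 - 1).unpair.1.unpair.2)
    (fun n => g (Nat.pair (g 0 - 1).unpair.1 (n + 1) + 1)), ⟨?_, ?_⟩, ?_⟩
  · rw [join_ev]
    intro i hi
    exact (hal ((g 0 - 1).unpair.1 + 2 * i + 1) (by omega)).1 ⟨i, by omega, hi⟩
  · rw [join_od]
    intro n
    refine ⟨by simp, ?_⟩
    rintro ⟨i, hi⟩
    refine hg' _ (Relation.ReflTransGen.single
      ⟨(g 0 - 1).unpair.1 + 2 * i + 2 + g (Nat.pair (g 0 - 1).unpair.1 (n + 1) + 1),
        Or.inr ⟨_, n + 1, rfl, by omega, Or.inr ⟨hal _ (by omega), by omega, by omega,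
          i, by omega, hi⟩⟩⟩)
  · have h1 : join p g 1 = g 0 := join_two_mul_add p g 0
    refine computes_use
      (fun l n => 2 * (Nat.pair (l.getD 1 0 - 1).unpair.1 (n / 2 + 1) + 1) + 1) _
      (fun n => ⟨2 * (Nat.pair (g 0 - 1).unpair.1 (n / 2 + 1) + 1) + 2, ?_⟩) (fun k n h => ?_)
    · rw [getD_pre _ (by omega), h1]
      omega
    · have hk : 1 < k := by omega
      rw [getD_pre _ h, getD_pre _ hk, h1, join_two_mul_add]
      rfl

end Pool.Agent.Lib.MP_5e3ef6_lc
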