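import Pool.Agent.Lib.MP_5e3ef6_lc.Lower

namespace Pool.Agent.Lib.MP_5e3ef6_lc

theorem WRed.of_cn_prod {Q R : Problem} (h : WRed (prod CN Q) R) : WRed Q R := by
  obtain ⟨c, d, hc, hd, h⟩ := h
  let T : List ℕ → List ℕ := fun l =>
    (List.range l.length).map fun i => if i % 2 = 0 then 0 else l.getD (i / 2) 0
  let U : List ℕ → List ℕ := fun l =>
    (List.range l.length).map fun i => if i % 2 = 0 then
      (if i / 2 % 2 = 0 then 0 else l.getD (2 * (i / 2 / 2)) 0) else l.getD i 0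
  have hT : PR T := by
    simp only [T]
    fun_prop
  have hU : PR U := by
    simp only [U]
    fun_prop
  have hT' : ∀ p k, T (pre p k) = pre (join (fun _ => 0) p) k := by
    intro p k
    simp only [T, length_pre]
    refine List.map_congr_left fun i hi => ?_
    have := List.mem_range.1 hi
    rw [getD_pre p (by omega)]
    rfl
  have hU' : ∀ p q k, U (pre (join p q) k) = pre (join (join (fun _ => 0) p) q) k := by
    intro p q k
    simp only [U, length_pre]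
    refine List.map_congr_left fun i hi => ?_
    have := List.mem_range.1 hi
    rw [getD_pre _ (by omega), getD_pre _ this, join_two_mul]
    simp only [join]
    split_ifs <;> rfl
  refine ⟨fun l n => c (T l) n, fun l n => d (U l) (2 * n + 1), ?_, ?_, fun p hp => ?_⟩
  · exact hc.comp (hT.prim.to_comp.comp Computable.fst) Computable.snd
  · have : PR fun x : List ℕ × ℕ => 2 * x.2 + 1 := by fun_prop
    exact hd.comp (hU.prim.to_comp.comp Computable.fst) this.prim.to_comp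
  · obtain ⟨p', hp', h1, h2⟩ := h (join (fun _ => 0) p) ⟨by
      rw [join_ev]
      exact ⟨0, by simp⟩, by
      rw [join_od]
      exact hp⟩
    refine ⟨p', hp', fun n => by simpa only [hT'] using h1 n, fun q hq => ?_⟩
    obtain ⟨r, hr, h3⟩ := h2 q hq
    refine ⟨fun n => r (2 * n + 1), ?_, fun n => by simpa only [hU'] using h3 (2 * n + 1)⟩
    have := hr.2
    rwa [join_od] at this

theorem not_diag_dnc (K : ℕ∞) (hK : 2 ≤ K) (R : CRed DIAG (DNC K)) : False := by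
  classical
  have hlt : ∀ a : Fin 2, ((a : ℕ) : ℕ∞) < K := fun a =>
    lt_of_lt_of_le (by exact_mod_cast a.2) hK
  obtain ⟨p1, -, hp1⟩ := exists_name (fun _ => 0) 0 (fun x y => x = y) (by simp)
  have hd1 : p1 ∈ DIAG.dom := by
    refine ⟨?_, 0, 1, ?_⟩ <;> rw [hp1]
    · exact eq_equivalence
    · simp
  have h := uniform' (α := Fin 2) (fun X k =>
      (∀ p' ∈ DIAG.dom, ∀ q' ∈ (DNC K).sol (R.Φ p'), Agree k p1 p' →
        Agree k (fun n => (X n : ℕ)) q' → R.Ψ p1 (fun n => (X n : ℕ)) 0 = R.Ψ p' q' 0) ∨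
      ∀ p' ∈ DIAG.dom, ∀ X' : ℕ → Fin 2, Agree k p1 p' → Agree k X X' →
        (fun n => (X' n : ℕ)) ∉ (DNC K).sol (R.Φ p')) (by
    intro X
    by_cases hX : (fun n => (X n : ℕ)) ∈ (DNC K).sol (R.Φ p1)
    · obtain ⟨k, hk⟩ := R.cΨ p1 hd1 _ hX 1
      exact ⟨k, Or.inl fun p' hp' q' hq' h1 h2 => hk p' hp' q' hq' h1 h2 0 Nat.one_pos⟩
    · have : ∃ n, rel (R.Φ p1) n (X n) := by
        by_contra hc
        push Not at hc
        exact hX fun n => ⟨hlt _, hc n⟩
      obtain ⟨n, i, hi⟩ := this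
      obtain ⟨k, hk⟩ := R.cΦ p1 hd1 (i + 1)
      refine ⟨max (n + 1) k, Or.inr fun p' hp' X' h1 h2 h => (h n).2 ⟨i, ?_⟩⟩
      rw [← hk p' hp' (h1.mono (le_max_right _ _)) i (Nat.lt_succ_self i), hi,
        h2 n (lt_of_lt_of_le (Nat.lt_succ_self n) (le_max_left _ _))])
  obtain ⟨t, L, hl⟩ := h
  let z := t.sup (fun X => R.Ψ p1 (fun n => (X n : ℕ)) 0) + 1
  obtain ⟨p2, hA, hp2⟩ := exists_name p1 L (fun u v => u = z ↔ v = z) (fun i _ u v h => by
    have : rel p1 u v := ⟨i, h⟩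
    rw [hp1] at this
    rw [this])
  have hd2 : p2 ∈ DIAG.dom := by
    refine ⟨?_, 0, z, ?_⟩ <;> rw [hp2]
    · exact ⟨fun _ => Iff.rfl, Iff.symm, Iff.trans⟩
    · simp [z]
  have : ∀ n, ∃ a : Fin 2, ¬ rel (R.Φ p2) n a := by
    intro n
    by_contra hc
    push Not at hc
    exact absurd (R.dom p2 hd2 n _ _ (hc 0) (hc 1)) (by simp)
  choose X hX using this
  have hX' : (fun n => (X n : ℕ)) ∈ (DNC K).sol (R.Φ p2) := fun n => ⟨hlt _, hX n⟩
  obtain ⟨X0, hX0, k, hk, h | h, hXA⟩ := hl X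
  · have h1 := h p2 hd2 _ hX' (hA.mono hk) (fun i hi => congrArg Fin.val (hXA i hi))
    have h2 := R.sol p2 hd2 _ hX' 0
    rw [← h1, hp2] at h2
    have h3 := Finset.le_sup (f := fun X : ℕ → Fin 2 => R.Ψ p1 (fun n => (X n : ℕ)) 0) hX0
    apply h2
    simp only [z]
    omega
  · exact h p2 hd2 X (hA.mono hk) hXA hX'

theorem position (k : ℕ∞) (hk : 2 ≤ k) :
    ¬ WRed DIAG (DNC k) ∧ (WRed (DNC k) DIAG ↔ k = ⊤) ∧
      (WRed DIAG (prod CN (DNC k)) ↔ k = 2) ∧ (WRed (prod CN (DNC k)) DIAG ↔ k = ⊤) := by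
  have h3 : WRed (DNC k) DIAG → k = ⊤ := by
    intro h
    by_contra hne
    obtain ⟨K, rfl⟩ := ENat.ne_top_iff_exists.1 hne
    have : 2 ≤ K := by exact_mod_cast hk
    obtain ⟨R⟩ := h.cred
    exact not_dnc_diag K (by omega) R
  refine ⟨fun h => h.cred.elim (not_diag_dnc k hk),
    ⟨h3, fun h => h ▸ cn_dnc_le_diag.of_cn_prod⟩,
    ⟨fun h => ?_, fun h => h ▸ diag_le_cn_dnc2⟩,
    ⟨fun h => h3 h.of_cn_prod, fun h => h ▸ cn_dnc_le_diag⟩⟩
  by_contra hne
  obtain ⟨R⟩ := h.cred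
  refine not_diag_cn_dnc k ?_ R
  have : 2 < k := lt_of_le_of_ne hk (Ne.symm hne)
  exact Order.add_one_le_of_lt this

end Pool.Agent.Lib.MP_5e3ef6_lc
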