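import Pool.Agent.Lib.MP_5e3ef6_lc.DefsM
import Pool.Agent.Lib.MP_5e3ef6_lc.Main

namespace Pool.Agent.Lib.MP_5e3ef6_lc

open MeasureTheory ProbabilityTheory

instance coin_prob : IsProbabilityMeasure coin := by
  unfold coin
  infer_instance

def Det (L : ℕ) (B : Set (ℕ → Fin 2)) : Prop := ∀ x x', Agree L x x' → x ∈ B → x' ∈ B

theorem Det.eq_preimage {L : ℕ} {B : Set (ℕ → Fin 2)} (h : Det L B) :
    B = (fun x (i : Finset.range L) => x i) ⁻¹' ((fun x (i : Finset.range L) => x i) '' B) := by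
  ext x
  constructor
  · exact fun hx => ⟨x, hx, rfl⟩
  · rintro ⟨y, hy, hxy⟩
    exact h y x (fun i hi => congrFun hxy ⟨i, Finset.mem_range.2 hi⟩) hy

theorem Det.measurableSet {L : ℕ} {B : Set (ℕ → Fin 2)} (h : Det L B) : MeasurableSet B := by
  rw [h.eq_preimage]
  exact MeasurableSet.of_discrete.preimage (by fun_prop)

theorem coin_quarter {t1 t2 : ℕ} (h : t1 ≠ t2) :
    coin {x | x t1 = 1 ∧ x t2 = 0} = 4⁻¹ := by
  classical
  have : {x : ℕ → Fin 2 | x t1 = 1 ∧ x t2 = 0} =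
      Set.pi (({t1, t2} : Finset ℕ) : Set ℕ) (fun i => {if i = t1 then 1 else 0}) := by
    ext x
    simp [h.symm]
  rw [this, coin, Measure.infinitePi_pi _ (fun _ _ => MeasurableSet.of_discrete),
    Finset.prod_pair h]
  simp only [uniformOn_univ, Measure.count_singleton, Fintype.card_fin]
  rw [show (4 : ENNReal) = 2 * 2 by norm_num, ENNReal.mul_inv (by simp) (by simp)]
  simp

theorem Det.shrink {L t1 t2 : ℕ} {B : Set (ℕ → Fin 2)} (h : Det L B) (h1 : L ≤ t1) (h2 : L ≤ t2)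
    (h12 : t1 ≠ t2) : coin.real (B \ {x | x t1 = 1 ∧ x t2 = 0}) = 3 / 4 * coin.real B := by
  classical
  have hind : iIndepFun (fun i (x : ℕ → Fin 2) => x i) coin :=
    iIndepFun_infinitePi (X := fun _ x => x) (by fun_prop)
  have hI := hind.indepFun_finset (Finset.range L) {t1, t2} (by
    simp only [Finset.disjoint_insert_right, Finset.mem_range, Finset.disjoint_singleton_right]
    omega) (by fun_prop)
  have hD : {x : ℕ → Fin 2 | x t1 = 1 ∧ x t2 = 0} =
      (fun x (i : ({t1, t2} : Finset ℕ)) => x i) ⁻¹'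
        {y | y ⟨t1, by simp⟩ = 1 ∧ y ⟨t2, by simp⟩ = 0} := rfl
  have hm := hI.measure_inter_preimage_eq_mul ((fun x (i : Finset.range L) => x i) '' B)
    {y | y ⟨t1, by simp⟩ = 1 ∧ y ⟨t2, by simp⟩ = 0} MeasurableSet.of_discrete
    MeasurableSet.of_discrete
  rw [← h.eq_preimage, ← hD, coin_quarter h12] at hm
  have hDm : MeasurableSet {x : ℕ → Fin 2 | x t1 = 1 ∧ x t2 = 0} := by
    rw [hD]
    exact MeasurableSet.of_discrete.preimage (by fun_prop)
  have h3 := measureReal_inter_add_diff (μ := coin) (s := B) hDm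
  have h4 : coin.real (B ∩ {x | x t1 = 1 ∧ x t2 = 0}) = coin.real B / 4 := by
    simp only [Measure.real, hm, ENNReal.toReal_mul, ENNReal.toReal_inv]
    norm_num
    ring
  linarith

theorem dgjm {m : ℕ} (V Cm : (ℕ → Fin m) → Prop) (G : (ℕ → Fin m) → ℕ → Fin 2)
    (hV : ∀ f w, Cm f → (∀ x, w x ≠ f x) → V w)
    (h2 : ∀ f0 f1, Cm f0 → Cm f1 → ∀ x, ∃ j, j ≠ f0 x ∧ j ≠ f1 x)
    (hG : ∀ L, ∃ l, ∀ w w', V w → V w' → Agree l w w' → Agree L (G w) (G w')) (r : ℕ) :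
    ∃ l L B, Det L B ∧ coin.real B ≤ (3 / 4) ^ r ∧ ∀ f, Cm f → ∃ w, (∀ x, w x ≠ f x) ∧
      ∀ w', V w' → Agree l w w' → G w' ∈ B := by
  classical
  induction r with
  | zero =>
    refine ⟨0, 0, Set.univ, fun _ _ _ _ => trivial, by simp, fun f hf => ?_⟩
    choose w hw using h2 f f hf hf
    exact ⟨w, fun x => (hw x).1, fun _ _ _ => trivial⟩
  | succ r ih =>
    obtain ⟨l, L, B, hB, hmu, hf⟩ := ih
    have hχ : ∀ (t : ℕ) (s : Fin l → Fin m), ∃ a : Fin 2, ∀ f, Cm f → (∀ i : Fin l, s i ≠ f i) →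
        ∃ w : ℕ → Fin m, (∀ i : Fin l, w i = s i) ∧ (∀ x, w x ≠ f x) ∧ G w t = a := by
      intro t s
      by_contra hcon
      push Not at hcon
      obtain ⟨f0, hf0, hs0, h0⟩ := hcon 0
      obtain ⟨f1, hf1, hs1, h1⟩ := hcon 1
      choose v hv using h2 f0 f1 hf0 hf1
      let w : ℕ → Fin m := fun x => if h : x < l then s ⟨x, h⟩ else v x
      have hw : ∀ i : Fin l, w i = s i := fun i => by simp [w]
      have hw0 : ∀ x, w x ≠ f0 x := fun x => by
        simp only [w]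
        split_ifs with h
        · exact hs0 ⟨x, h⟩
        · exact (hv x).1
      have hw1 : ∀ x, w x ≠ f1 x := fun x => by
        simp only [w]
        split_ifs with h
        · exact hs1 ⟨x, h⟩
        · exact (hv x).2
      have a0 := h0 w hw hw0
      have a1 := h1 w hw hw1
      omega
    choose χ hχ using hχ
    obtain ⟨u1, u2, hu, hu'⟩ := Finite.exists_ne_map_eq_of_infinite (fun u : ℕ => χ (L + u))
    obtain ⟨l', hl'⟩ := hG (L + u1 + u2 + 1)
    refine ⟨max l l', L + u1 + u2 + 1, B \ {x | x (L + u1) = 1 ∧ x (L + u2) = 0}, ?_, ?_, ?_⟩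
    · rintro x x' hA ⟨hx1, hx2⟩
      refine ⟨hB x x' (hA.mono (by omega)) hx1, ?_⟩
      simp only [Set.mem_setOf_eq] at hx2 ⊢
      rwa [← hA _ (by omega), ← hA _ (by omega)]
    · rw [hB.shrink (by omega) (by omega) (by omega), pow_succ]
      linarith
    · intro f hCf
      obtain ⟨w0, hw0, hw0'⟩ := hf f hCf
      have key : ∃ w : ℕ → Fin m, (∀ i : Fin l, w i = w0 i) ∧ (∀ x, w x ≠ f x) ∧
          ¬ (G w (L + u1) = 1 ∧ G w (L + u2) = 0) := by
        by_cases h : χ (L + u1) (fun i => w0 i) = 0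
        · obtain ⟨w, h1, h2, h3⟩ := hχ (L + u1) (fun i => w0 i) f hCf (fun i => hw0 i)
          exact ⟨w, h1, h2, by omega⟩
        · obtain ⟨w, h1, h2, h3⟩ := hχ (L + u2) (fun i => w0 i) f hCf (fun i => hw0 i)
          have := congrFun hu' (fun i => w0 i)
          exact ⟨w, h1, h2, by omega⟩
      obtain ⟨w, h1, h2', h3⟩ := key
      refine ⟨w, h2', fun w' hw' hA => ⟨hw0' w' hw' (fun i hi => ?_), ?_⟩⟩
      · rw [← h1 ⟨i, hi⟩]
        exact hA i (by omega)
      · have := hl' w w' (hV f w hCf h2') hw' (hA.mono (le_max_right _ _))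
        simp only [Set.mem_setOf_eq]
        rwa [← this _ (by omega), ← this _ (by omega)]

def AA (r : ℕ → ℕ) : Set (ℕ → Fin 2) := {x | (fun n => (x n : ℕ)) ∈ paths r}

def AN (r : ℕ → ℕ) (N : ℕ) : Set (ℕ → Fin 2) :=
  {x | ∀ i < N, ∀ k, r i ≠ Encodable.encode (pre (fun n => (x n : ℕ)) k) + 1}

theorem AA_eq (r : ℕ → ℕ) : AA r = ⋂ N, AN r N := by
  ext x
  simp only [AA, paths, AN, Set.mem_setOf_eq, Set.mem_iInter]
  exact ⟨fun h N i _ k => h.2 i k, fun h => ⟨fun n => (x n).2, fun i k => h (i + 1) i (by omega) k⟩⟩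

theorem AA_subset (r : ℕ → ℕ) (N : ℕ) : AA r ⊆ AN r N := by
  rw [AA_eq]
  exact Set.iInter_subset _ N

theorem AN_congr {r r' : ℕ → ℕ} {N : ℕ} (h : Agree N r r') : AN r N = AN r' N := by
  ext x
  simp only [AN, Set.mem_setOf_eq]
  exact forall₂_congr fun i hi => by rw [h i hi]

theorem AN_meas (r : ℕ → ℕ) (N : ℕ) : MeasurableSet (AN r N) := by
  have : AN r N = ⋂ i ∈ Set.Iio N, ⋂ k,
      {x : ℕ → Fin 2 | r i ≠ Encodable.encode (pre (fun n => (x n : ℕ)) k) + 1} := by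
    ext x
    simp [AN]
  rw [this]
  refine MeasurableSet.biInter (Set.to_countable _) fun i _ => MeasurableSet.iInter fun k => ?_
  refine Det.measurableSet (L := k) fun x x' hA hx => ?_
  have : Agree k (fun n => (x n : ℕ)) (fun n => (x' n : ℕ)) := fun i hi => congrArg Fin.val (hA i hi)
  simpa only [Set.mem_setOf_eq, this.pre_eq] using hx

theorem AA_meas (r : ℕ → ℕ) : MeasurableSet (AA r) := by
  rw [AA_eq]
  exact MeasurableSet.iInter (AN_meas r)

theorem limit_lt {r : ℕ → ℕ} {a : ℝ} (h : coin.real (AA r) < a) : ∃ N, coin.real (AN r N) < a := by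
  have h1 := tendsto_measure_iInter_atTop (μ := coin) (s := AN r)
    (fun N => (AN_meas r N).nullMeasurableSet)
    (fun N M hNM x hx i hi k => hx i (lt_of_lt_of_le hi hNM) k) ⟨0, measure_ne_top _ _⟩
  have h2 := (ENNReal.tendsto_toReal (measure_ne_top _ _)).comp h1
  rw [← AA_eq] at h2
  exact (h2.eventually (gt_mem_nhds h)).exists

theorem wwkl_dom {ε : ENNReal} (hε : ε ≠ ⊤) {p : ℕ → ℕ} :
    p ∈ (WWKL ε).dom ↔ ε.toReal < coin.real (AA p) :=
  (ENNReal.toReal_lt_toReal hε (measure_ne_top _ _)).symm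

theorem wwkl_pos {ε : ENNReal} {p : ℕ → ℕ} (hp : p ∈ (WWKL ε).dom) : 0 < coin.real (AA p) :=
  ENNReal.toReal_pos (lt_of_le_of_lt bot_le hp).ne' (measure_ne_top _ _)

theorem not_diag_cn_wwkl (ε : ENNReal) (R : CRed DIAG (prod CN (WWKL ε))) : False := by
  obtain ⟨m, p0, hp0, k0, hm⟩ := baire (fun m => {p | (∀ i, R.Φ p (2 * i) ≠ m.unpair.1 + 1) ∧
      1 / ((m.unpair.2 : ℝ) + 1) ≤ coin.real (AA fun n => R.Φ p (2 * n + 1))})
    (fun p hp => by
      obtain ⟨m, hm⟩ := (R.dom p (PP.dom hp)).1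
      obtain ⟨j, hj⟩ := exists_nat_one_div_lt (wwkl_pos (R.dom p (PP.dom hp)).2)
      exact ⟨Nat.pair m j, by simpa using hm, by simpa using hj.le⟩)
    (fun m p hp h => by
      by_cases h1 : ∀ i, R.Φ p (2 * i) ≠ m.unpair.1 + 1
      · have h2 : coin.real (AA fun n => R.Φ p (2 * n + 1)) < 1 / ((m.unpair.2 : ℝ) + 1) := by
          by_contra h2
          exact h ⟨h1, not_lt.1 h2⟩
        obtain ⟨N, hN⟩ := limit_lt h2
        obtain ⟨k, hk⟩ := R.cΦ p (PP.dom hp) (2 * N + 2)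
        refine ⟨k, fun p' hp' hA h' => ?_⟩
        have h3 : AN (fun n => R.Φ p (2 * n + 1)) N = AN (fun n => R.Φ p' (2 * n + 1)) N :=
          AN_congr fun i hi => hk p' (PP.dom hp') hA _ (by omega)
        have h4 := measureReal_mono (μ := coin) (AA_subset (fun n => R.Φ p' (2 * n + 1)) N)
        rw [h3] at hN
        linarith [h'.2]
      · obtain ⟨k, hk⟩ := cn_closed R _ hp h1
        exact ⟨k, fun p' hp' hA h' => hk p' hp' hA h'.1⟩)
  let S : Set ℝ := {a | ∃ p ∈ PP, Agree k0 p0 p ∧ a = coin.real (AA fun n => R.Φ p (2 * n + 1))}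
  have hSne : S.Nonempty := ⟨_, p0, hp0, Agree.refl _ _, rfl⟩
  have hSb : ∀ a ∈ S, 1 / ((m.unpair.2 : ℝ) + 1) ≤ a := by
    rintro a ⟨p, hp, hA, rfl⟩
    exact (hm p hp hA).2
  have hpos : 0 < sInf S := lt_of_lt_of_le (by positivity) (le_csInf hSne hSb)
  obtain ⟨a, ⟨p, hp, hA, rfl⟩, ha⟩ := exists_lt_of_csInf_lt hSne (show sInf S < 2 * sInf S by linarith)
  obtain ⟨N, hN⟩ := limit_lt ha
  obtain ⟨k, hk⟩ := R.cΦ p (PP.dom hp) (2 * N + 2)
  obtain ⟨pa, hpa, pb, hpb, hAa, hAb, h⟩ := split R 2 m.unpair.1 (by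
    intro r _ X hX
    have : ∃ i j, r i = Encodable.encode (pre (fun n => (X n : ℕ)) j) + 1 := by
      by_contra hc
      push Not at hc
      exact hX ⟨fun n => (X n).2, hc⟩
    obtain ⟨i, j, hi⟩ := this
    refine ⟨i + j + 1, fun r' _ X' h1 h2 h => h.2 i j ?_⟩
    have : Agree j (fun n => (X n : ℕ)) (fun n => (X' n : ℕ)) :=
      fun i hi => congrArg Fin.val (h2 i (by omega))
    rw [← h1 i (by omega), hi, this.pre_eq]) hp (max k k0)
    (fun q hq hA' => (hm q hq (hA.trans (hA'.mono (le_max_right _ _)))).1)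
  have hsub : ∀ q ∈ PP, Agree (max k k0) p q →
      AA (fun n => R.Φ q (2 * n + 1)) ⊆ AN (fun n => R.Φ p (2 * n + 1)) N := by
    intro q hq hA'
    rw [AN_congr (r' := fun n => R.Φ q (2 * n + 1))
      fun i hi => hk q (PP.dom hq) (hA'.mono (le_max_left _ _)) _ (by omega)]
    exact AA_subset _ _
  have hlow : ∀ q ∈ PP, Agree (max k k0) p q →
      sInf S ≤ coin.real (AA fun n => R.Φ q (2 * n + 1)) := fun q hq hA' =>
    csInf_le ⟨_, hSb⟩ ⟨q, hq, hA.trans (hA'.mono (le_max_right _ _)), rfl⟩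
  have h1 := measureReal_union (μ := coin) (s₁ := AA fun n => R.Φ pa (2 * n + 1))
    (s₂ := AA fun n => R.Φ pb (2 * n + 1)) (Set.disjoint_left.2 fun X h1 h2 => h X h1 h2)
    (AA_meas _)
  have h2 := measureReal_mono (μ := coin) (Set.union_subset (hsub pa hpa hAa) (hsub pb hpb hAb))
  linarith [hlow pa hpa hAa, hlow pb hpb hAb]

end Pool.Agent.Lib.MP_5e3ef6_lc
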