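import Pool.Agent.Lib.MP_5e3ef6_lc.Tur

namespace Pool.Agent.Lib.MP_5e3ef6_lc

/-- some choice of small sets of colours meets every word of `D` -/
def Blk {κ ι : Type} (D : List κ → Prop) (ρ : κ → ι) (I : Set (Set ι)) : Prop :=
  ∃ K : ℕ → Set ι, (∀ j, K j ∈ I) ∧ ∀ γ, D γ → ∃ j k, γ[j]? = some k ∧ ρ k ∈ K j

@[reducible] noncomputable def finCod (β : Type) [Finite β] : Primcodable β :=
  Primcodable.ofEquiv (Fin (Nat.card β)) (Finite.equivFin β)

theorem ce_not_blk {α κ ι : Type} [Primcodable α] [Primcodable κ] [Finite κ] [Finite ι]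
    {q : ℕ → ℕ} {D : α → List κ → Prop} (hD : CE q fun z : α × List κ => D z.1 z.2) (ρ : κ → ι)
    (I : Set (Set ι)) : CE q fun a => ¬ Blk (D a) ρ I := by
  classical
  let _ := finCod (Set ι)
  let good : Option κ × Option (Set ι) → Bool := fun z =>
    decide (∀ k S, z.1 = some k → z.2 = some S → ρ k ∉ S)
  have hg : PR good := PR.finite _
  have hb : PR fun S : Set ι => decide (S ∉ I) := PR.finite _
  have : CE q fun a => ∀ K : ℕ → Set ι, ∃ k, (fun a (Ks : List (Set ι)) =>
      (Ks.any fun S => decide (S ∉ I)) = true ∨ ∃ γ : List κ, D a γ ∧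
        (decide (γ.length ≤ Ks.length) &&
          (List.range γ.length).all fun j => good (γ[j]?, Ks[j]?)) = true) a
      ((List.range k).map K) := by
    refine UCE.compact (R := fun _ a Ks => (Ks.any fun S => decide (S ∉ I)) = true ∨
      ∃ γ : List κ, D a γ ∧ (decide (γ.length ≤ Ks.length) &&
          (List.range γ.length).all fun j => good (γ[j]?, Ks[j]?)) = true) ?_
    refine UCE.or (UCE.of_bool (PR.any (by fun_prop)
      (hb.comp (f := fun z : (α × List (Set ι)) × Set ι => z.2) (by fun_prop)))) ?_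
    refine UCE.ex ?_
    exact UCE.and (hD.comp (f := fun w : (α × List (Set ι)) × List κ => (w.1.1, w.2))
      (by fun_prop)) (UCE.of_bool (by fun_prop))
  refine this.congr fun a => ?_
  simp only [Blk, not_exists, not_and, not_forall, List.any_eq_true, decide_eq_true_eq,
    Bool.and_eq_true, List.all_eq_true, List.mem_range, List.length_map, List.length_range, good,
    List.mem_map]
  refine forall_congr' fun K => ⟨fun h => ?_, ?_⟩
  · by_cases hK : ∀ j, K j ∈ I
    · obtain ⟨γ, hγ, h⟩ := h hK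
      refine ⟨γ.length, Or.inr ⟨γ, hγ, le_rfl, fun j hj k S h1 h2 => ?_⟩⟩
      have : K j = S := by simpa [hj] using h2
      exact this ▸ h j k h1
    · push Not at hK
      obtain ⟨j, hj⟩ := hK
      exact ⟨j + 1, Or.inl ⟨_, ⟨j, Nat.lt_succ_self j, rfl⟩, hj⟩⟩
  · rintro ⟨k, ⟨S, ⟨j, -, rfl⟩, h⟩ | ⟨γ, hγ, h1, h2⟩⟩ hK
    · exact absurd (hK j) h
    · refine ⟨γ, hγ, fun j k' h => ?_⟩
      have hj : j < γ.length := (List.getElem?_eq_some_iff.1 h).1
      exact h2 j hj k' (K j) h (by simp [show j < k by omega])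

variable {q : ℕ → ℕ} {E : ℕ → ℕ → Prop}

theorem overspill (hE : Equivalence E) (hN : ¬ ∃ g, TRed g q ∧ ∀ x, ¬ E (g x) x) {B : Type}
    [Finite B] (U : B → ℕ → Prop) (hU : ∀ b, CE q (U b)) (u : B → ℕ)
    (hu : ∀ b t, E t (u b) → ¬ U b t) : ∃ t, ∀ b, ¬ U b t := by
  by_contra h
  push Not at h
  have : CE q fun z : ℕ × ℕ => ∃ b, U b z.1 ∧ z.2 = u b :=
    UCE.finEx (U := fun b _ (z : ℕ × ℕ) => U b z.1 ∧ z.2 = u b) fun b =>
      ((hU b).comp (by fun_prop)).and (UCE.of_pr (by fun_prop))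
  obtain ⟨g, hg, hg'⟩ := CE.select (R := fun t v => ∃ b, U b t ∧ v = u b) this fun t =>
    let ⟨b, hb⟩ := h t; ⟨_, b, hb, rfl⟩
  refine hN ⟨g, hg, fun t ht => ?_⟩
  obtain ⟨b, h1, h2⟩ := hg' t
  exact hu b t (hE.symm (h2 ▸ ht)) h1

theorem merge (hE : Equivalence E) (hN : ¬ ∃ g, TRed g q ∧ ∀ x, ¬ E (g x) x) {ι B : Type}
    [Finite ι] [Finite B] (y : ι → ℕ) (I : Set (Set ι)) (D : B → List ℕ → Prop)
    (hD : ∀ b, CE q (D b)) (inv : ∀ b τ τ', D b τ → List.Forall₂ E τ τ' → D b τ')
    (blk : ∀ b, Blk (fun γ : List ι => D b (γ.map y)) id I) :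
    ∃ z : (B → ι) → ℕ, ∀ b, Blk (fun γ : List (B → ι) => D b (γ.map z)) (fun w => w b) I := by
  classical
  let _ := finCod (ι ⊕ (B → ι))
  have key : ∀ S : Finset (B → ι), ∃ z : ι ⊕ (B → ι) → ℕ, (∀ i, z (.inl i) = y i) ∧
      ∀ b, Blk (fun γ : List (ι ⊕ (B → ι)) => (∀ w, .inr w ∈ γ → w ∈ S) ∧ D b (γ.map z))
        (Sum.elim id fun w => w b) I := by
    intro S
    induction S using Finset.induction_on with
    | empty =>
      refine ⟨Sum.elim y 0, fun _ => rfl, fun b => ?_⟩
      obtain ⟨K, hK, h⟩ := blk b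
      refine ⟨K, hK, fun γ ⟨h1, h2⟩ => ?_⟩
      obtain ⟨j, k, h3, h4⟩ := h (γ.map (Sum.elim id fun w => w b)) (by
        beta_reduce
        rw [List.map_map]
        convert h2 using 1
        refine List.map_congr_left fun k hk => ?_
        cases k with
        | inl i => rfl
        | inr w => simpa using h1 w hk)
      rw [List.getElem?_map, Option.map_eq_some_iff] at h3
      obtain ⟨k', h5, rfl⟩ := h3
      exact ⟨j, k', h5, h4⟩
    | insert w S hw ih =>
      obtain ⟨z, hz, h⟩ := ih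
      have hz' : PR z := PR.finite _
      have hS : PR fun k : ι ⊕ (B → ι) => decide (∀ w', k = .inr w' → w' ∈ insert w S) :=
        PR.finite _
      have := overspill hE hN (fun b t => ¬ Blk (fun γ : List (ι ⊕ (B → ι)) =>
          (∀ w', .inr w' ∈ γ → w' ∈ insert w S) ∧
            D b (γ.map fun k => if k = .inr w then t else z k)) (Sum.elim id fun w => w b) I)
        (fun b => ce_not_blk (UCE.and ?_ ((hD b).comp (by fun_prop))) _ _) (fun b => y (w b)) ?_
      · obtain ⟨t, ht⟩ := this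
        refine ⟨fun k => if k = .inr w then t else z k, fun i => by simp [hz], fun b => ?_⟩
        exact not_not.1 (ht b)
      · refine (UCE.of_bool (f := fun x : ℕ × List (ι ⊕ (B → ι)) => x.2.all fun k =>
          decide (∀ w', k = .inr w' → w' ∈ insert w S)) (PR.all (by fun_prop)
            (hS.comp (f := fun x : (ℕ × List (ι ⊕ (B → ι))) × (ι ⊕ (B → ι)) => x.2)
              (by fun_prop)))).of_iff fun _ x => ?_
        simp only [List.all_eq_true, decide_eq_true_eq]
        exact ⟨fun h k hk w' e => h w' (e ▸ hk), fun h w' hw' => h _ hw' w' rfl⟩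
      · intro b t ht
        obtain ⟨K, hK, h⟩ := h b
        refine not_not.2 ⟨K, hK, fun γ ⟨h1, h2⟩ => ?_⟩
        obtain ⟨j, k, h3, h4⟩ := h (γ.map fun k => if k = .inr w then .inl (w b) else k) ⟨by
          intro w' hw'
          obtain ⟨k, hk, e⟩ := List.mem_map.1 hw'
          split_ifs at e with e'
          subst e
          rcases Finset.mem_insert.1 (h1 w' hk) with rfl | h
          · exact absurd rfl e'
          · exact h, inv b _ _ h2 (by
          rw [List.map_map, List.forall₂_map_left_iff, List.forall₂_map_right_iff,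
            List.forall₂_same]
          intro k _
          by_cases e : k = .inr w
          · simpa [e, hz] using ht
          · simpa [e] using hE.refl _)⟩
        rw [List.getElem?_map, Option.map_eq_some_iff] at h3
        obtain ⟨k', h5, rfl⟩ := h3
        refine ⟨j, k', h5, ?_⟩
        by_cases e : k' = .inr w
        · simpa [e] using h4
        · simpa [e] using h4
  let _ := Fintype.ofFinite (B → ι)
  obtain ⟨z, -, h⟩ := key Finset.univ
  refine ⟨fun w => z (.inr w), fun b => ?_⟩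
  obtain ⟨K, hK, h⟩ := h b
  refine ⟨K, hK, fun γ hγ => ?_⟩
  obtain ⟨j, k, h3, h4⟩ := h (γ.map .inr) ⟨fun _ _ => Finset.mem_univ _, by
    rwa [List.map_map]⟩
  rw [List.getElem?_map, Option.map_eq_some_iff] at h3
  obtain ⟨k', h5, rfl⟩ := h3
  exact ⟨j, k', h5, h4⟩

end Pool.Agent.Lib.MP_5e3ef6_lc
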