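import Pool.Agent.Lib.MP_5e3ef6_lc.Transfer

namespace Pool.Agent.Lib.MP_5e3ef6_lc

theorem no_red {P : Problem} (R : CRed P DIAG) {K : ℕ} (hK : 2 ≤ K) {C : Type}
    (pp : C → ℕ → ℕ) (kk : C → ℕ) (Ext : C → (ℕ → ℕ) → Prop) (le : C → C → Prop) (c0 : C)
    (hle : ∀ c c', le c c' → kk c < kk c' ∧ Agree (kk c) (pp c) (pp c'))
    (hlim : ∀ s : ℕ → C, s 0 = c0 → (∀ i, le (s i) (s (i + 1))) → ∀ q,
      (∀ i, Agree (kk (s i)) (pp (s i)) q) → (∀ i, i ≤ kk (s i)) → q ∈ P.dom ∧ ∀ i, Ext (s i) q)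
    (hstep : ∀ c m e, ∃ c', le c c' ∧ ∀ q ∈ P.dom, Ext c' q → ¬ Good K (rel (R.Φ q)) m e) :
    False := by
  obtain ⟨D, hD⟩ := exists_surjective_nat (Σ m : ℕ, Fin m → ℕ)
  obtain ⟨s, hs0, hs1, hs2⟩ := generic le
    (fun i c' => ∀ q ∈ P.dom, Ext c' q → ¬ Good K (rel (R.Φ q)) (D i).1 (D i).2)
    (fun i c => hstep c _ _) c0
  obtain ⟨q, hq1, hq2⟩ := exists_limit (fun i => pp (s i)) (fun i => kk (s i))
    (fun i => (hle _ _ (hs1 i)).1) (fun i => (hle _ _ (hs1 i)).2)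
  obtain ⟨hq, hext⟩ := hlim s hs0 hs1 q hq1 hq2
  obtain ⟨m, e, hg⟩ := exists_good (R.dom q hq).1 (R.dom q hq).2 hK
  obtain ⟨i, hi⟩ := hD ⟨m, e⟩
  have := hs2 i q hq (hext _)
  rw [hi] at this
  exact this hg

structure CondD (K : ℕ∞) where
  p : ℕ → ℕ
  k : ℕ
  F : Finset ℕ
  hp : p ∈ (DNC K).dom
  hF : ∀ n ∈ F, ∀ y, ¬ rel p n y

theorem rel_of_agree {p q : ℕ → ℕ} {k i x y : ℕ} (h : Agree k p q) (hi : i < k)
    (hp : p i = Nat.pair x y + 1) : rel q x y := ⟨i, by rw [← h i hi, hp]⟩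

theorem not_dnc_diag (K : ℕ) (hK : 1 ≤ K) (R : CRed (DNC K) DIAG) : False := by
  classical
  refine no_red R (K := K + 1) (by omega) (C := CondD K) CondD.p CondD.k
    (fun c q => Agree c.k c.p q ∧ ∀ n ∈ c.F, ∀ y, ¬ rel q n y)
    (fun c c' => c.k < c'.k ∧ Agree c.k c.p c'.p ∧ c.F ⊆ c'.F)
    ⟨fun _ => 0, 0, ∅, fun n a b ⟨i, hi⟩ => by simp at hi, by simp⟩
    (fun c c' h => ⟨h.1, h.2.1⟩) ?_ ?_
  · intro s _ hs q hq1 hq2
    have hF : ∀ i j, i ≤ j → (s i).F ⊆ (s j).F := by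
      intro i j hij
      induction j, hij using Nat.le_induction with
      | base => exact subset_rfl
      | succ j _ ih => exact ih.trans (hs j).2.2
    refine ⟨?_, fun i => ⟨hq1 i, ?_⟩⟩
    · rintro n a b ⟨i, hi⟩ ⟨j, hj⟩
      have h1 := hq2 (i + j + 1)
      exact (s (i + j + 1)).hp n a b (rel_of_agree (hq1 _).symm (by omega) hi)
        (rel_of_agree (hq1 _).symm (by omega) hj)
    · rintro n hn y ⟨j, hj⟩
      have h1 := hq2 (i + j + 1)
      exact (s (i + j + 1)).hF n (hF _ _ (by omega) hn) y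
        (rel_of_agree (hq1 _).symm (by omega) hj)
  · intro c m e
    obtain ⟨n, hn1, hn2⟩ : ∃ n, n ∉ c.F ∧ ∀ i < c.k, ∀ y, c.p i ≠ Nat.pair n y + 1 := by
      refine ⟨c.F.sup id + (Finset.range c.k).sup c.p + 1, fun h => ?_, fun i hi y h => ?_⟩
      · have := Finset.le_sup (f := id) h
        simp only [id] at this
        omega
      · have h1 := Finset.le_sup (f := c.p) (Finset.mem_range.2 hi)
        have h2 := Nat.left_le_pair (c.F.sup id + (Finset.range c.k).sup c.p + 1) y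
        omega
    by_cases hw : ∃ pw ∈ (DNC K).dom, Agree c.k c.p pw ∧ (∀ n' ∈ insert n c.F, ∀ y, ¬ rel pw n' y) ∧
        Good (K + 1) (rel (R.Φ pw)) m e
    swap
    · have hsub : ∀ a b, rel (fun i => if i < c.k then c.p i else 0) a b →
          ∃ i < c.k, c.p i = Nat.pair a b + 1 := by
        rintro a b ⟨i, hi⟩
        by_cases h : i < c.k
        · exact ⟨i, h, by simpa [h] using hi⟩
        · simp [h] at hi
      refine ⟨⟨fun i => if i < c.k then c.p i else 0, c.k + 1, insert n c.F, ?_, ?_⟩,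
        ⟨Nat.lt_succ_self _, fun i hi => by simp [hi], Finset.subset_insert _ _⟩, ?_⟩
      · intro n' a b ha hb
        obtain ⟨i, -, hi⟩ := hsub _ _ ha
        obtain ⟨j, -, hj⟩ := hsub _ _ hb
        exact c.hp n' a b ⟨i, hi⟩ ⟨j, hj⟩
      · intro n' hn' y h
        obtain ⟨i, hi, h⟩ := hsub _ _ h
        rcases Finset.mem_insert.1 hn' with rfl | hn'
        · exact hn2 i hi y h
        · exact c.hF n' hn' y ⟨i, h⟩
      · rintro q hq ⟨h1, h2⟩ hg
        refine hw ⟨q, hq, fun i hi => ?_, h2, hg⟩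
        have := h1 i (Nat.lt_succ_of_lt hi)
        simpa [hi] using this
    obtain ⟨pw, hpw, hA, hF, hg⟩ := hw
    obtain ⟨l, hl⟩ := transfer R hpw hg.2.1 e hg.1 (n + 1)
    let l' := max l c.k
    let pc : ℕ → ℕ → ℕ := fun a i => if i < l' then pw i else if i = l' then Nat.pair n a + 1 else 0
    have hsub : ∀ a x y, rel (pc a) x y → rel pw x y ∨ (x = n ∧ y = a) := by
      rintro a x y ⟨i, hi⟩
      simp only [pc] at hi
      split_ifs at hi with h1 h2
      · exact Or.inl ⟨i, hi⟩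
      · right
        have := Nat.pair_eq_pair.1 (Nat.succ_injective hi)
        exact ⟨this.1.symm, this.2.symm⟩
    have hn : ∀ y, ¬ rel pw n y := hF n (Finset.mem_insert_self _ _)
    have hdom : ∀ a, pc a ∈ (DNC K).dom := by
      intro a x y z hy hz
      rcases hsub _ _ _ hy with hy' | ⟨h3, h4⟩ <;> rcases hsub _ _ _ hz with hz' | ⟨h1, h2⟩
      · exact hpw x y z hy' hz'
      · rw [h1] at hy'
        exact absurd hy' (hn _)
      · rw [h3] at hz'
        exact absurd hz' (hn _)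
      · rw [h4, h2]
    have hpcF : ∀ a, ∀ n' ∈ c.F, ∀ y, ¬ rel (pc a) n' y := by
      intro a n' hn' y h
      rcases hsub _ _ _ h with h | ⟨rfl, -⟩
      · exact hF n' (Finset.mem_insert_of_mem hn') y h
      · exact hn1 hn'
    by_contra hcon
    push Not at hcon
    have hex : ∀ a : Fin K, ∃ q ∈ (DNC K).dom, Agree (l' + 1) (pc a) q ∧
        Good (K + 1) (rel (R.Φ q)) m e := by
      intro a
      obtain ⟨q, hq, h1, h2⟩ := hcon ⟨pc a, l' + 1, c.F, hdom a, hpcF a⟩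
        ⟨by simp only [l']; omega, fun i hi => by
          have : i < l' := by simp only [l']; omega
          simp only [pc, this, if_true]
          exact hA i hi, subset_rfl⟩
      exact ⟨q, hq, h1.1, h2⟩
    choose q hq hqA hqg using hex
    have hqA' : ∀ a, Agree l pw (q a) := by
      intro a i hi
      have h1 : i < l' := by simp only [l']; omega
      rw [← hqA a i (by omega)]
      simp [pc, h1]
    choose f hf hf' using fun a => hl (q a) (hq a) (hqA' a) (hqg a).1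
    choose w hw using hg.avoid f hf
    have hE : Equivalence (rel (R.Φ pw)) := (R.dom pw hpw).1
    have hval : e ∘ w ∈ DIAG.sol (R.Φ pw) :=
      (hf ⟨0, by omega⟩).valid hE (fun x => hw x _)
    have hsol := (R.sol pw hpw _ hval n).1
    have hlt : R.Ψ pw (e ∘ w) n < K := by exact_mod_cast hsol
    obtain ⟨r, hr, hr'⟩ := hf' ⟨_, hlt⟩ w (fun x => hw x _)
    refine (hr n).2 ⟨l', ?_⟩
    rw [← hqA _ l' (Nat.lt_succ_self _), ← hr' n (Nat.lt_succ_self _)]
    simp [pc]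

end Pool.Agent.Lib.MP_5e3ef6_lc
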