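import Mathlib

namespace Pool.Agent.Lib.MP_5e3ef6_lc

/-- primitive recursive functions, as a `fun_prop` predicate -/
@[fun_prop]
def PR {α β : Type} [Primcodable α] [Primcodable β] (f : α → β) : Prop := Primrec f

namespace PR

variable {α β γ : Type} [Primcodable α] [Primcodable β] [Primcodable γ]

theorem prim {f : α → β} (h : PR f) : Primrec f := h

theorem of_eq {f g : α → β} (h : PR f) (H : ∀ a, f a = g a) : PR g := Primrec.of_eq h H

@[fun_prop] theorem id : PR fun a : α => a := Primrec.id
@[fun_prop] theorem const (b : β) : PR fun _ : α => b := Primrec.const b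
@[fun_prop] theorem comp {g : β → γ} {f : α → β} (hg : PR g) (hf : PR f) :
    PR fun a => g (f a) := Primrec.comp hg hf
@[fun_prop] theorem prodMk {f : α → β} {g : α → γ} (hf : PR f) (hg : PR g) :
    PR fun a => (f a, g a) := Primrec.pair hf hg
@[fun_prop] theorem fst {f : α → β × γ} (hf : PR f) : PR fun a => (f a).1 := Primrec.fst.comp hf
@[fun_prop] theorem snd {f : α → β × γ} (hf : PR f) : PR fun a => (f a).2 := Primrec.snd.comp hf
@[fun_prop] theorem add {f g : α → ℕ} (hf : PR f) (hg : PR g) : PR fun a => f a + g a :=
  Primrec.nat_add.comp hf hg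
@[fun_prop] theorem sub {f g : α → ℕ} (hf : PR f) (hg : PR g) : PR fun a => f a - g a :=
  Primrec.nat_sub.comp hf hg
@[fun_prop] theorem mul {f g : α → ℕ} (hf : PR f) (hg : PR g) : PR fun a => f a * g a :=
  Primrec.nat_mul.comp hf hg
@[fun_prop] theorem div {f g : α → ℕ} (hf : PR f) (hg : PR g) : PR fun a => f a / g a :=
  Primrec.nat_div.comp hf hg
@[fun_prop] theorem mod {f g : α → ℕ} (hf : PR f) (hg : PR g) : PR fun a => f a % g a :=
  Primrec.nat_mod.comp hf hg
@[fun_prop] theorem natPair {f g : α → ℕ} (hf : PR f) (hg : PR g) :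
    PR fun a => Nat.pair (f a) (g a) := Primrec₂.natPair.comp hf hg
@[fun_prop] theorem unpair {f : α → ℕ} (hf : PR f) : PR fun a => Nat.unpair (f a) :=
  Primrec.unpair.comp hf
@[fun_prop] theorem cond {c : α → Bool} {f g : α → β} (hc : PR c) (hf : PR f) (hg : PR g) :
    PR fun a => cond (c a) (f a) (g a) := Primrec.cond hc hf hg
@[fun_prop] theorem ite {p : α → Prop} [DecidablePred p] {f g : α → β}
    (hc : PR fun a => decide (p a)) (hf : PR f) (hg : PR g) :
    PR fun a => if p a then f a else g a :=
  (cond hc hf hg).of_eq fun a => by by_cases h : p a <;> simp [h]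
@[fun_prop] theorem not {f : α → Bool} (hf : PR f) : PR fun a => !(f a) := Primrec.not.comp hf
@[fun_prop] theorem and {f g : α → Bool} (hf : PR f) (hg : PR g) : PR fun a => (f a && g a) :=
  Primrec.and.comp hf hg
@[fun_prop] theorem or {f g : α → Bool} (hf : PR f) (hg : PR g) : PR fun a => (f a || g a) :=
  Primrec.or.comp hf hg
@[fun_prop] theorem dec_eq [DecidableEq β] {f g : α → β} (hf : PR f) (hg : PR g) :
    PR fun a => decide (f a = g a) := (Primrec.eq.comp hf hg).decide
@[fun_prop] theorem dec_le {f g : α → ℕ} (hf : PR f) (hg : PR g) :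
    PR fun a => decide (f a ≤ g a) := (Primrec.nat_le.comp hf hg).decide
@[fun_prop] theorem dec_lt {f g : α → ℕ} (hf : PR f) (hg : PR g) :
    PR fun a => decide (f a < g a) := (Primrec.nat_lt.comp hf hg).decide
@[fun_prop] theorem dec_and {p q : α → Prop} [DecidablePred p] [DecidablePred q]
    (hp : PR fun a => decide (p a)) (hq : PR fun a => decide (q a)) :
    PR fun a => decide (p a ∧ q a) := (hp.and hq).of_eq fun a => by simp
@[fun_prop] theorem dec_or {p q : α → Prop} [DecidablePred p] [DecidablePred q]
    (hp : PR fun a => decide (p a)) (hq : PR fun a => decide (q a)) :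
    PR fun a => decide (p a ∨ q a) := (hp.or hq).of_eq fun a => by simp
@[fun_prop] theorem dec_not {p : α → Prop} [DecidablePred p]
    (hp : PR fun a => decide (p a)) : PR fun a => decide (¬ p a) :=
  hp.not.of_eq fun a => by simp
@[fun_prop] theorem dec_true {f : α → Bool} (hf : PR f) : PR fun a => decide (f a = true) :=
  hf.of_eq fun a => by simp
@[fun_prop] theorem some {f : α → β} (hf : PR f) : PR fun a => some (f a) :=
  Primrec.option_some.comp hf
@[fun_prop] theorem bind {f : α → Option β} {g : α → β → Option γ} (hf : PR f)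
    (hg : PR fun x : α × β => g x.1 x.2) : PR fun a => (f a).bind (g a) :=
  Primrec.option_bind hf hg
@[fun_prop] theorem optGetD {f : α → Option β} {g : α → β} (hf : PR f) (hg : PR g) :
    PR fun a => (f a).getD (g a) := Primrec.option_getD.comp hf hg
@[fun_prop] theorem decode {f : α → ℕ} (hf : PR f) :
    PR fun a => (Encodable.decode (f a) : Option β) := Primrec.decode.comp hf
@[fun_prop] theorem encode {f : α → β} (hf : PR f) :
    PR fun a => Encodable.encode (f a) := Primrec.encode.comp hf
@[fun_prop] theorem length {f : α → List β} (hf : PR f) : PR fun a => (f a).length :=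
  Primrec.list_length.comp hf
@[fun_prop] theorem getD {f : α → List β} {g : α → ℕ} (d : β) (hf : PR f) (hg : PR g) :
    PR fun a => (f a).getD (g a) d := (Primrec.list_getD d).comp hf hg
@[fun_prop] theorem take {f : α → List β} {g : α → ℕ} (hf : PR f) (hg : PR g) :
    PR fun a => (f a).take (g a) := Primrec.list_take.comp hg hf
@[fun_prop] theorem range {g : α → ℕ} (hg : PR g) : PR fun a => List.range (g a) :=
  Primrec.list_range.comp hg
@[fun_prop] theorem map {f : α → List β} {g : α → β → γ} (hf : PR f)
    (hg : PR fun x : α × β => g x.1 x.2) : PR fun a => (f a).map (g a) :=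
  Primrec.list_map hf hg
@[fun_prop] theorem foldl {f : α → List β} {g : α → γ} {h : α → γ → β → γ} (hf : PR f) (hg : PR g)
    (hh : PR fun x : α × γ × β => h x.1 x.2.1 x.2.2) :
    PR fun a => (f a).foldl (h a) (g a) :=
  Primrec.list_foldl (h := fun a x => h a x.1 x.2) hf hg hh
@[fun_prop] theorem any {f : α → List β} {g : α → β → Bool} (hf : PR f)
    (hg : PR fun x : α × β => g x.1 x.2) : PR fun a => (f a).any (g a) := by
  have : PR fun a => (f a).foldl (fun b x => b || g a x) false := by
    refine foldl (h := fun a b x => b || g a x) hf (const _) ?_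
    exact or (fst (snd id)) (comp hg (prodMk (fst id) (snd (snd id))))
  refine this.of_eq fun a => ?_
  have : ∀ (l : List β) (b : Bool), l.foldl (fun b x => b || g a x) b = (b || l.any (g a)) := by
    intro l
    induction l with
    | nil => simp
    | cons x l ih => intro b; simp [ih, Bool.or_assoc]
  simp [this]
@[fun_prop] theorem all {f : α → List β} {g : α → β → Bool} (hf : PR f)
    (hg : PR fun x : α × β => g x.1 x.2) : PR fun a => (f a).all (g a) := by
  have : PR fun a => !((f a).any (fun x => !g a x)) := not (any hf (not hg))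
  exact this.of_eq fun a => by simp [List.all_eq_not_any_not]
@[fun_prop] theorem dec_mem [DecidableEq β] {f : α → β} {g : α → List β} (hf : PR f) (hg : PR g) :
    PR fun a => decide (f a ∈ g a) := by
  have : PR fun a => (g a).any (fun x => decide (f a = x)) :=
    any hg (dec_eq (comp hf (fst id)) (snd id))
  exact this.of_eq fun a => by
    rw [Bool.eq_iff_iff]
    simp

theorem computable₂ {f : α → β → γ} (h : PR fun x : α × β => f x.1 x.2) : Computable₂ f :=
  Primrec₂.to_comp (f := f) h

end PR

end Pool.Agent.Lib.MP_5e3ef6_lc
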