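import Pool.Agent.Lib.MP_5e3ef6_lc.FcPos
import Pool.Agent.Lib.MP_5e3ef6_lc.Avoid

namespace Pool.Agent.Lib.MP_5e3ef6_lc

theorem WRed.intro' {P Q : Problem} (Φ : P.dom → ℕ → ℕ) (hΦ : UC (fun x : P.dom => x.1) Φ)
    (hd : ∀ x, Φ x ∈ Q.dom)
    (Ψ : {z : P.dom × (ℕ → ℕ) // z.2 ∈ Q.sol (Φ z.1)} → ℕ → ℕ)
    (hΨ : UC (fun x => join x.1.1.1 x.1.2) Ψ) (hs : ∀ x, Ψ x ∈ P.sol x.1.1.1) : WRed P Q := by
  obtain ⟨c, hc, h1⟩ := hΦ.computes
  obtain ⟨d, hd', h2⟩ := hΨ.computes
  exact ⟨c, d, hc, hd', fun p hp => ⟨Φ ⟨p, hp⟩, hd _, h1 ⟨p, hp⟩,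
    fun q hq => ⟨Ψ ⟨(⟨p, hp⟩, q), hq⟩, hs ⟨(⟨p, hp⟩, q), hq⟩, h2 ⟨(⟨p, hp⟩, q), hq⟩⟩⟩⟩

theorem UCE.sel {O : Type} {o : O → ℕ → ℕ} {R : O → ℕ → ℕ → Prop}
    (h : UCE o fun x (z : ℕ × ℕ) => R x z.1 z.2) (ht : ∀ x n, ∃ v, R x n v) :
    ∃ F, UC o F ∧ ∀ x n, R x n (F x n) := by
  obtain ⟨c, hc, h⟩ := h.select ht
  choose F h1 h2 using h
  exact ⟨F, UCE.of_computes hc h1, h2⟩

theorem joinL_eq {τ : List ℕ} {p q : ℕ → ℕ} (h : ∀ i < τ.length, τ.getD i 0 = p i) {k : ℕ}
    (hk : k ≤ τ.length) : joinL τ (pre q τ.length) k = pre (join p q) k := by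
  refine List.map_congr_left fun i hi => ?_
  have := List.mem_range.1 hi
  rw [getD_pre q (by omega), h _ (by omega)]
  rfl

theorem quot {P Q : Problem} {S : Set (ℕ → ℕ)} (hS : S ⊆ P.dom) (hP : Rich ⟨S, P.sol⟩)
    (V : ℕ → List ℕ → Bool) (hV : PR fun z : ℕ × List ℕ => V z.1 z.2)
    (ext : ∀ n τ, V n τ = true → ∃ p ∈ S, ∀ i < τ.length, τ.getD i 0 = p i)
    (dense : ∀ p ∈ S, ∀ n k, ∃ τ, V n τ = true ∧ k ≤ τ.length ∧ ∀ i < k, τ.getD i 0 = p i)
    (lim : ∀ p : ℕ → ℕ, (∀ n, ∃ τ, V n τ = true ∧ n ≤ τ.length ∧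
      ∀ i < τ.length, τ.getD i 0 = p i) → p ∈ P.dom) (h : WRed (prod P Q) DIAG) : WRed Q CN := by
  classical
  obtain ⟨R, h1, h2⟩ := h.elim
  have hrel : UCE (fun x : (prod P Q).dom => x.1) fun x (z : ℕ × ℕ) => rel (R.Φ x.1) z.1 z.2 :=
    UCE.trans h1 UCE.rel
  obtain ⟨c, hc, hc1, hc2⟩ := id hrel
  let o : Q.dom → ℕ → ℕ := fun x => x.1
  obtain ⟨p0, hp0⟩ := hP.ne
  let W : List ℕ → ℕ → Bool := fun l n =>
    c l (n.unpair.1, n.unpair.2.unpair.1) || c l (n.unpair.1, n.unpair.2.unpair.2) ||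
      c l (n.unpair.2.unpair.1, n.unpair.2.unpair.2)
  have hW : PR fun z : List ℕ × ℕ => W z.1 z.2 := by
    simp only [W]
    fun_prop
  obtain ⟨τ0, hτ0, -⟩ := dense p0 hp0 0 0
  have key : ∀ (x : Q.dom) n m, ∀ τ, V m τ = true → ∃ τ', V (n + 1) τ' = true ∧ τ.length < τ'.length ∧
      (∀ i < τ.length, τ.getD i 0 = τ'.getD i 0) ∧
        ∃ k ≤ τ'.length, W (joinL τ' (pre x.1 τ'.length) k) n = true := by
    intro x n m τ hτ
    obtain ⟨p1, hp1, hA⟩ := ext m τ hτ
    obtain ⟨s, hs, h3⟩ := (hP.cone τ.length hp1 (sol' := fun t => (prod P Q).sol (join t x.1))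
      (fun n => 2 * n) (fun n => by omega) fun t _ r hr => by
        simpa only [join_ev] using hr.1).two
      (R.pull _ (fun t => join t x.1) (fun t ht => join_mem_prod (hS ht.1) x.2)
        fun _ _ _ h => h.join (Agree.refl _ _))
    have hd := join_mem_prod (hS hs.1) x.2
    have hE := (R.dom _ hd).1
    obtain ⟨k, hk⟩ : ∃ k, W (pre (join s x.1) k) n = true := by
      by_contra h
      push Not at h
      simp only [W, ne_eq, Bool.or_eq_true, not_or] at h
      have a1 := (hc2 ⟨_, hd⟩ (n.unpair.1, n.unpair.2.unpair.1)).not.2 fun ⟨k, hk⟩ => (h k).1.1 hk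
      have a2 := (hc2 ⟨_, hd⟩ (n.unpair.1, n.unpair.2.unpair.2)).not.2 fun ⟨k, hk⟩ => (h k).1.2 hk
      have a3 := (hc2 ⟨_, hd⟩ (n.unpair.2.unpair.1, n.unpair.2.unpair.2)).not.2
        fun ⟨k, hk⟩ => (h k).2 hk
      exact (full_of_two hE a3 h3 _).elim a1 a2
    obtain ⟨τ', h4, h5, h6⟩ := dense s hs.1 (n + 1) (τ.length + k + 1)
    refine ⟨τ', h4, by omega, fun i hi => by rw [h6 i (by omega), hA i hi, hs.2 i hi], k,
      by omega, ?_⟩
    rw [joinL_eq (p := fun i => τ'.getD i 0) (fun _ _ => rfl) (by omega), ← hk]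
    congr 1
    exact Agree.pre_eq (Agree.join (fun i hi => h6 i (by omega)) (Agree.refl _ _))
  obtain ⟨F, hF, hF'⟩ := UCE.sel (o := o) (R := fun x a v =>
    V a.unpair.1 (dl a.unpair.2) = true →
      (V (a.unpair.1 + 1) (dl v) = true ∧ (dl a.unpair.2).length < (dl v).length ∧
        ∀ i < (dl a.unpair.2).length, (dl a.unpair.2).getD i 0 = (dl v).getD i 0) ∧
        ∃ m : List ℕ, m = pre x.1 m.length ∧ ∃ k, (m.length = (dl v).length ∧ k ≤ (dl v).length) ∧
          W (joinL (dl v) m k) a.unpair.1 = true) (by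
    refine UCE.imp (UCE.and (UCE.and (UCE.of_bool (by fun_prop)) (UCE.and (UCE.of_pr
      (by fun_prop)) (UCE.blt (UCE.of_pr (by fun_prop)) (by fun_prop)))) (UCE.ex ?_)) (by fun_prop)
    refine (UCE.isPre.comp (f := fun w : (ℕ × ℕ) × List ℕ => w.2) (by fun_prop)).and (UCE.ex ?_)
    exact (UCE.of_pr (by fun_prop)).and (UCE.of_bool (by fun_prop))) (by
    intro x a
    by_cases h : V a.unpair.1 (dl a.unpair.2) = true
    · obtain ⟨τ', h1, h2, h3, k, h4, h5⟩ := key x a.unpair.1 _ _ h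
      exact ⟨Encodable.encode τ', fun _ => by
        simp only [dl_encode]
        exact ⟨⟨h1, h2, h3⟩, pre x.1 τ'.length, by simp, k, ⟨by simp, h4⟩, h5⟩⟩
    · exact ⟨0, fun h' => absurd h' h⟩)
  let G : Q.dom → ℕ → ℕ := fun x n =>
    (Nat.rec (Encodable.encode τ0) (fun n m => F x (Nat.pair n m)) n : ℕ)
  have hG : UC o G := UC.rec (G := fun x n m => F x (Nat.pair n m))
    (hF.comp (f := fun z : (ℕ × ℕ) × ℕ => (Nat.pair z.1.1 z.1.2, z.2)) (by fun_prop)) _
  have hG1 : ∀ x n, V n (dl (G x n)) = true := by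
    intro x n
    induction n with
    | zero => simpa [G] using hτ0
    | succ n ih =>
      have := hF' x (Nat.pair n (G x n))
      simp only [Nat.unpair_pair] at this
      exact (this ih).1.1
  have hG2 : ∀ x n, ((dl (G x n)).length < (dl (G x (n + 1))).length ∧
      ∀ i < (dl (G x n)).length, (dl (G x n)).getD i 0 = (dl (G x (n + 1))).getD i 0) ∧
      ∃ k ≤ (dl (G x (n + 1))).length,
        W (joinL (dl (G x (n + 1))) (pre x.1 (dl (G x (n + 1))).length) k) n = true := by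
    intro x n
    have := hF' x (Nat.pair n (G x n))
    simp only [Nat.unpair_pair] at this
    obtain ⟨⟨-, h3⟩, m, h4, k, ⟨h5, h6⟩, h7⟩ := this (hG1 x n)
    exact ⟨h3, k, h6, by rwa [h4, h5] at h7⟩
  let N : Q.dom → ℕ → ℕ := fun x n => (dl (G x (n + 1))).getD n 0
  have hN : UC o N := by
    have : UCE o fun x (z : ℕ × ℕ) => ∃ v, G x (z.1 + 1) = v ∧ (dl v).getD z.1 0 = z.2 := by
      refine UCE.ex ?_
      exact (hG.comp (f := fun w : (ℕ × ℕ) × ℕ => (w.1.1 + 1, w.2)) (by fun_prop)).and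
        (UCE.of_pr (by fun_prop))
    exact this.of_iff fun x z => by simp [N]
  have hN1 : ∀ x n, n ≤ (dl (G x n)).length ∧
      ∀ i < (dl (G x n)).length, (dl (G x n)).getD i 0 = N x i := by
    intro x n
    have hm : StrictMono fun n => (dl (G x n)).length :=
      strictMono_nat_of_lt_succ fun n => (hG2 x n).1.1
    have hij : ∀ i j, i ≤ j → ∀ t < (dl (G x i)).length,
        (dl (G x i)).getD t 0 = (dl (G x j)).getD t 0 := by
      intro i j hij
      induction j, hij using Nat.le_induction with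
      | base => exact fun _ _ => rfl
      | succ j hij ih =>
        exact fun t ht => (ih t ht).trans ((hG2 x j).1.2 t (ht.trans_le (hm.monotone hij)))
    refine ⟨hm.le_apply, fun i hi => ?_⟩
    rcases le_total n (i + 1) with h | h
    · exact hij _ _ h i hi
    · exact (hij _ _ h i (lt_of_lt_of_le (Nat.lt_succ_self i) hm.le_apply)).symm
  have hd : ∀ x : Q.dom, join (N x) x.1 ∈ (prod P Q).dom := fun x =>
    join_mem_prod (lim _ fun n => ⟨_, hG1 x n, hN1 x n⟩) x.2
  have htwo : ∀ (x : Q.dom) a b, ¬ rel (R.Φ (join (N x) x.1)) a b → ∀ y,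
      rel (R.Φ (join (N x) x.1)) y a ∨ rel (R.Φ (join (N x) x.1)) y b := by
    intro x a b hab y
    obtain ⟨k, hk, h⟩ := (hG2 x (Nat.pair y (Nat.pair a b))).2
    rw [joinL_eq (hN1 x (Nat.pair y (Nat.pair a b) + 1)).2 hk] at h
    simp only [W, Nat.unpair_pair, Bool.or_eq_true] at h
    rcases h with (h | h) | h
    · exact Or.inl ((hc2 ⟨_, hd x⟩ (y, a)).2 ⟨k, h⟩)
    · exact Or.inr ((hc2 ⟨_, hd x⟩ (y, b)).2 ⟨k, h⟩)
    · exact absurd ((hc2 ⟨_, hd x⟩ (a, b)).2 ⟨k, h⟩) hab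
  have hJ : UC o fun x => join (N x) x.1 := hN.join UC.refl
  have hE : UCE o fun x (z : ℕ × ℕ) => rel (R.Φ (join (N x) x.1)) z.1 z.2 :=
    UCE.trans hJ (hrel.pull fun x => ⟨_, hd x⟩)
  obtain ⟨C, hC, hC'⟩ := hE.enum'
  let O := {z : Q.dom × (ℕ → ℕ) // z.2 ∈ CN.sol (C z.1)}
  have hab : ∀ z : O, ¬ rel (R.Φ (join (N z.1.1) z.1.1.1)) (z.1.2 0).unpair.1 (z.1.2 0).unpair.2 := by
    intro z h
    rw [← hC'] at h
    obtain ⟨i, hi⟩ := h
    exact z.2 i (by rw [hi, Nat.pair_unpair])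
  have hl : UC (fun z : O => join z.1.1.1 z.1.2) fun z => z.1.1.1 := UC.left
  have hr : UC (fun z : O => join z.1.1.1 z.1.2) fun z => z.1.2 := UC.right
  have hE' := UCE.trans hl (hE.pull fun z : O => z.1.1)
  obtain ⟨g, hg, hg'⟩ := UCE.sel (o := fun z : O => join z.1.1.1 z.1.2) (R := fun z y v =>
    ∃ u, z.1.2 0 = u ∧ (rel (R.Φ (join (N z.1.1) z.1.1.1)) y u.unpair.1 ∧ v = u.unpair.2 ∨
      rel (R.Φ (join (N z.1.1) z.1.1.1)) y u.unpair.2 ∧ v = u.unpair.1)) (by
    refine UCE.ex ?_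
    exact (hr.comp (f := fun w : (ℕ × ℕ) × ℕ => (0, w.2)) (by fun_prop)).and
      (((hE'.comp (f := fun w : (ℕ × ℕ) × ℕ => (w.1.1, w.2.unpair.1)) (by fun_prop)).and
        (UCE.of_pr (by fun_prop))).or
      ((hE'.comp (f := fun w : (ℕ × ℕ) × ℕ => (w.1.1, w.2.unpair.2)) (by fun_prop)).and
        (UCE.of_pr (by fun_prop))))) fun z y =>
    (htwo _ _ _ (hab z) y).elim (fun h => ⟨_, _, rfl, Or.inl ⟨h, rfl⟩⟩)
      fun h => ⟨_, _, rfl, Or.inr ⟨h, rfl⟩⟩
  have hsol : ∀ z : O, g z ∈ DIAG.sol (R.Φ (join (N z.1.1) z.1.1.1)) := by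
    intro z y hy
    have hE := (R.dom _ (hd z.1.1)).1
    obtain ⟨_, rfl, ⟨h, e⟩ | ⟨h, e⟩⟩ := hg' z y <;> rw [e] at hy
    · exact hab z (hE.symm (hE.trans hy h))
    · exact hab z (hE.trans hy h)
  refine WRed.intro' C hC (fun x => ?_)
    (fun z n => R.Ψ (join (N z.1.1) z.1.1.1) (g z) (2 * n + 1)) (UC.od (UC.trans
      (h2.pull fun z : O => ⟨(_, g z), hd z.1.1, hsol z⟩)
      ((UC.trans (hJ.pull fun z : O => z.1.1) hl).join hg))) fun z => ?_
  · obtain ⟨a, b, h⟩ := (R.dom _ (hd x)).2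
    rw [← hC'] at h
    exact ⟨_, fun i hi => h ⟨i, hi⟩⟩
  · simpa only [join_od] using (R.sol _ (hd z.1.1) _ (hsol z)).2

theorem mem_words' (n : ℕ) (l : List ℕ) :
    l ∈ UCE.words [0, 1] n ↔ l.length = n ∧ ∀ b ∈ l, b < 2 := by
  induction n generalizing l with
  | zero =>
    simp only [UCE.words, Nat.rec_zero, List.mem_singleton, List.length_eq_zero_iff]
    exact ⟨fun h => by simp [h], And.left⟩
  | succ n ih =>
    show l ∈ (UCE.words [0, 1] n).flatMap _ ↔ _
    simp only [List.mem_flatMap, List.mem_map, ih]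
    constructor
    · rintro ⟨w, hw, b, hb, rfl⟩
      simp only [List.mem_cons, List.not_mem_nil, or_false] at hb
      simp only [List.length_cons, hw.1, List.mem_cons, forall_eq_or_imp, true_and]
      exact ⟨by omega, hw.2⟩
    · intro h
      cases l with
      | nil => simp at h
      | cons b w =>
        simp only [List.length_cons, Nat.add_right_cancel_iff, List.mem_cons,
          forall_eq_or_imp] at h
        exact ⟨w, ⟨h.1, h.2.2⟩, b, by simp; omega, rfl⟩

theorem encode_dl (c : ℕ) : Encodable.encode (dl c) = c := by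
  simp [dl]

def bw (m : ℕ) : List (List ℕ) := UCE.words [0, 1] m

@[fun_prop] theorem pr_bw {α : Type} [Primcodable α] {f : α → ℕ} (hf : PR f) :
    PR fun a => bw (f a) := (UCE.pr_words [0, 1]).comp hf

def fcA (τ σ : List ℕ) (m : ℕ) : Bool :=
  τ.all fun v => decide (v = 0 ∨ ¬ (σ.take (dl (v - 1)).length = dl (v - 1) ∨
    (dl (v - 1)).take m = σ))

@[fun_prop] theorem pr_fcA {α : Type} [Primcodable α] {f g : α → List ℕ} {h : α → ℕ} (hf : PR f)
    (hg : PR g) (hh : PR h) : PR fun a => fcA (f a) (g a) (h a) := by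
  unfold fcA
  fun_prop

def fcB (τ σ : List ℕ) (m : ℕ) : Bool :=
  (bw m).all fun l => decide (l = σ) || decide (Encodable.encode l + 1 ∈ τ)

@[fun_prop] theorem pr_fcB {α : Type} [Primcodable α] {f g : α → List ℕ} {h : α → ℕ} (hf : PR f)
    (hg : PR g) (hh : PR h) : PR fun a => fcB (f a) (g a) (h a) := by
  unfold fcB
  fun_prop

def fcV (n : ℕ) (τ : List ℕ) : Bool :=
  (List.range (τ.length + 1)).any fun m => decide (n ≤ m) && (bw m).any fun σ =>
    fcA τ σ m && fcB τ σ m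

theorem fcV_spec {n : ℕ} {τ : List ℕ} (h : fcV n τ = true) :
    ∃ p ∈ (FC 2).dom, (∀ i < τ.length, τ.getD i 0 = p i) ∧
      ∀ x, Cons p τ.length x → ∃ y ∈ paths p, Agree n y x := by
  simp only [fcV, fcA, fcB, bw, Bool.or_eq_true, List.any_eq_true, List.mem_range, Bool.and_eq_true, decide_eq_true_eq,
    List.all_eq_true, mem_words'] at h
  obtain ⟨m, -, hm, σ, ⟨rfl, h1⟩, h2, h3⟩ := h
  have e : pre (fun i => σ.getD i 0) σ.length = σ := List.ext_getElem (by simp) fun i h1 h2 => by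
    simp [pre, h2]
  obtain ⟨p, hp, hA, h4⟩ := exists_fc (K := 2) (fun i => τ.getD i 0) τ.length
    (fun i => σ.getD i 0) [] (by simp) (by
      simp only [List.mem_singleton, forall_eq]
      refine ⟨fun i => ?_, fun t ht j hj => ?_⟩
      · beta_reduce
        rcases lt_or_ge i σ.length with hi | hi
        · rw [List.getD_eq_getElem _ _ hi]
          exact h1 _ (List.getElem_mem hi)
        · rw [List.getD_eq_default _ _ hi]
          omega
      · have := h2 _ (List.getElem_mem ht)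
        beta_reduce at hj
        rw [← List.getD_eq_getElem _ 0 ht, hj] at this
        simp only [Nat.add_sub_cancel, dl_encode, length_pre] at this
        refine this.elim (by omega) fun h => h ?_
        rcases le_total j σ.length with h | h
        · left
          rw [← take_pre _ h, e]
        · right
          rw [take_pre _ h, e])
  refine ⟨p, hp, hA, fun x hx => ⟨fun i => σ.getD i 0, by simp [h4], ?_⟩⟩
  rcases h3 (pre x σ.length) ⟨by simp, fun b hb => by
    obtain ⟨i, -, rfl⟩ := mem_pre.1 hb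
    exact hx.1 i⟩ with h | h
  · exact (agree_of_pre' (e.trans h.symm)).mono hm
  · obtain ⟨t, ht, h⟩ := List.getElem_of_mem h
    exact absurd (by rw [← hA t ht, ← h]; exact List.getD_eq_getElem _ _ ht) (hx.2 t ht σ.length)

theorem fc_quot {Q : Problem} (h : WRed (prod (FC 2) Q) DIAG) : WRed Q CN := by
  refine quot subset_rfl fc_rich fcV (by unfold fcV; fun_prop)
    (fun n τ h => let ⟨p, hp, h, _⟩ := fcV_spec h; ⟨p, hp, h⟩) ?_
    (fun q hq => fc_lim fun i => ?_) h
  · rintro p ⟨⟨y, hy⟩, -⟩ n k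
    let m := n + (Finset.range k).sup p
    refine ⟨pre p k ++ ((UCE.words [0, 1] m).map (fun l => if l = pre y m then 0 else
      Encodable.encode l + 1) ++ List.replicate m 0), ?_, by simp, fun i hi => by
        rw [List.getD_append _ _ _ _ (by simpa using hi), getD_pre p hi]⟩
    simp only [fcV, fcA, fcB, bw, Bool.or_eq_true, List.any_eq_true, List.mem_range, Bool.and_eq_true, decide_eq_true_eq,
      List.all_eq_true, mem_words', List.mem_append, List.mem_map, List.mem_replicate]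
    refine ⟨m, by simp; omega, by omega, pre y m, ⟨by simp, fun b hb => by
      obtain ⟨i, -, rfl⟩ := mem_pre.1 hb
      exact hy.1 i⟩, ?_, fun l hl => ?_⟩
    · rintro v (hv | ⟨l, hl, rfl⟩ | ⟨-, rfl⟩)
      · obtain ⟨t, ht, rfl⟩ := mem_pre.1 hv
        rw [or_iff_not_imp_left]
        intro h0 h
        have h1 := Encodable.length_le_encode (dl (p t - 1))
        have h2 := Finset.le_sup (f := p) (Finset.mem_range.2 ht)
        rw [encode_dl] at h1
        have h3 : (dl (p t - 1)).length ≤ m := by omega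
        refine hy.2 t (dl (p t - 1)).length ?_
        rcases h with h | h
        · rw [← take_pre y h3, h, encode_dl]
          omega
        · rw [List.take_of_length_le h3] at h
          rw [h, length_pre, ← h, encode_dl]
          omega
      · split_ifs with h
        · exact Or.inl rfl
        · right
          simp only [Nat.add_sub_cancel, dl_encode, hl.1, take_pre y le_rfl,
            List.take_of_length_le hl.1.le]
          exact fun h' => h (h'.elim Eq.symm id)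
      · exact Or.inl rfl
    · by_cases h : l = pre y m
      · exact Or.inl h
      · exact Or.inr (Or.inr (Or.inl ⟨l, hl, if_neg h⟩))
  · obtain ⟨τ, h1, h2, h3⟩ := hq i
    obtain ⟨p, hp, h4, h5⟩ := fcV_spec h1
    exact ⟨p, hp, _, h2, h5, fun t ht => (h4 t ht).symm.trans (h3 t ht)⟩

theorem prod_comm (P Q : Problem) : WRed (prod P Q) (prod Q P) :=
  WRed.intro (fun p => join (fun n => p (2 * n + 1)) fun n => p (2 * n))
    (fun _ q => join (fun n => q (2 * n + 1)) fun n => q (2 * n))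
    (UC.refl.od.join UC.refl.ev) (UC.right.od.join UC.right.ev)
    (fun _ hp => join_mem_prod hp.2 hp.1) fun p _ q hq =>
      ⟨by simpa only [join_ev, join_od] using hq.2, by simpa only [join_ev, join_od] using hq.1⟩

theorem quotient {P : Problem} (h1 : WRed (FC 2) P) (h2 : WRed P DIAG) (Q : Problem) :
    WRed (prod Q P) DIAG ↔ WRed Q CN :=
  ⟨fun h => fc_quot ((prod_comm _ _).trans (((WRed.refl Q).prod h1).trans h)),
    fun h => (h.prod h2).trans cn_diag_le⟩

end Pool.Agent.Lib.MP_5e3ef6_lc
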