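import Pool.Agent.Lib.MP_5e3ef6_lc.Quot

namespace Pool.Agent.Lib.MP_5e3ef6_lc

def ivA (v w : ℕ) : Bool :=
  (!decide (0 < v ∧ (v - 1).unpair.1 = 0) || decide (dlt (v - 1).unpair.2 (Nat.pair 1 0))) &&
  (!decide (0 < w ∧ (w - 1).unpair.1 = 1) || decide (dlt (Nat.pair 0 0) (w - 1).unpair.2)) &&
  (!decide (0 < v ∧ (v - 1).unpair.1 = 0) || !decide (0 < w ∧ (w - 1).unpair.1 = 1) ||
    decide (dlt (v - 1).unpair.2 (w - 1).unpair.2))

@[fun_prop] theorem pr_ivA {α : Type} [Primcodable α] {f g : α → ℕ} (hf : PR f) (hg : PR g) :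
    PR fun a => ivA (f a) (g a) := by
  unfold ivA
  fun_prop

theorem mem_SI {p : ℕ → ℕ} : p ∈ SI ↔ ∀ i j, ivA (p i) (p j) = true := by
  have e : ∀ v a, (0 < v ∧ (v - 1).unpair.1 = a) → v = Nat.pair a (v - 1).unpair.2 + 1 := by
    rintro v a ⟨h, rfl⟩
    rw [Nat.pair_unpair]
    omega
  simp only [ivA, Bool.and_eq_true, Bool.or_eq_true, Bool.not_eq_true', decide_eq_false_iff_not,
    decide_eq_true_eq, dlt_iff, dy_pair, or_assoc]
  simp only [← imp_iff_not_or]
  constructor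
  · rintro ⟨h1, h2, h3⟩ i j
    exact ⟨⟨fun h => by simpa using h1 _ ⟨i, e _ _ h⟩, fun h => by simpa using h2 _ ⟨j, e _ _ h⟩⟩,
      fun h h' => h3 _ _ ⟨i, e _ _ h⟩ ⟨j, e _ _ h'⟩⟩
  · intro h
    refine ⟨?_, ?_, ?_⟩
    · rintro l ⟨i, hi⟩
      simpa [hi] using (h i i).1.1
    · rintro l ⟨i, hi⟩
      simpa [hi] using (h i i).1.2
    · rintro l u ⟨i, hi⟩ ⟨j, hj⟩
      simpa [hi, hj] using (h i j).2

theorem ivt_quot {Q : Problem} (h : WRed (prod IVT Q) DIAG) : WRed Q CN := by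
  refine quot SI.sub SI.rich (fun _ τ => (0 :: τ).all fun v => (0 :: τ).all fun w => ivA v w)
    (by fun_prop) (fun _ τ h => ⟨fun i => τ.getD i 0, mem_SI.2 fun i j => ?_, fun _ _ => rfl⟩)
    (fun p hp _ k => ⟨pre p k, ?_, by simp, fun i hi => getD_pre p hi⟩)
    (fun q hq => SI.sub (mem_SI.2 fun i j => ?_)) h
  · have : ∀ i, τ.getD i 0 ∈ 0 :: τ := fun i => by
      rcases lt_or_ge i τ.length with hi | hi
      · rw [List.getD_eq_getElem _ _ hi]
        exact List.mem_cons_of_mem _ (List.getElem_mem hi)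
      · rw [List.getD_eq_default _ _ hi]
        exact List.mem_cons_self
    simp only [List.all_eq_true] at h
    exact h _ (this i) _ (this j)
  · have hp' : (fun i => if i = 0 then 0 else p (i - 1)) ∈ SI := by
      have : ∀ a b, rel (fun i => if i = 0 then 0 else p (i - 1)) a b → rel p a b := by
        rintro a b ⟨i, hi⟩
        dsimp only at hi
        split_ifs at hi
        exact ⟨_, hi⟩
      exact ⟨fun l h => hp.1 l (this _ _ h), fun l h => hp.2.1 l (this _ _ h),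
        fun l u h h' => hp.2.2 l u (this _ _ h) (this _ _ h')⟩
    have : ∀ v ∈ 0 :: pre p k, ∃ i, (if i = 0 then 0 else p (i - 1)) = v := by
      intro v hv
      rcases List.mem_cons.1 hv with rfl | hv
      · exact ⟨0, rfl⟩
      · obtain ⟨i, -, rfl⟩ := mem_pre.1 hv
        exact ⟨i + 1, by simp⟩
    simp only [List.all_eq_true]
    intro v hv w hw
    obtain ⟨i, rfl⟩ := this v hv
    obtain ⟨j, rfl⟩ := this w hw
    exact mem_SI.1 hp' i j
  · obtain ⟨τ, h1, h2, h3⟩ := hq (i + j + 1)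
    simp only [List.all_eq_true] at h1
    rw [← h3 i (by omega), ← h3 j (by omega), List.getD_eq_getElem _ _ (by omega),
      List.getD_eq_getElem _ _ (by omega)]
    exact h1 _ (List.mem_cons_of_mem _ (List.getElem_mem _)) _
      (List.mem_cons_of_mem _ (List.getElem_mem _))

theorem quotients (P : Problem) (hP : P = FC 2 ∨ P = IVT ∨ P = DIAG) (Q : Problem) :
    WRed (prod Q P) DIAG ↔ WRed Q CN := by
  rcases hP with rfl | rfl | rfl
  · exact quotient (WRed.refl _) fc2_le_diag Q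
  · exact ⟨fun h => ivt_quot ((prod_comm _ _).trans h),
      fun h => (h.prod ivt_le_diag).trans cn_diag_le⟩
  · exact quotient fc2_le_diag (WRed.refl _) Q

end Pool.Agent.Lib.MP_5e3ef6_lc
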