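import Pool.Agent.Lib.MP_5e3ef6_lc.Ivt

namespace Pool.Agent.Lib.MP_5e3ef6_lc

/-- sets of names that are complete for a system `M` of milestones -/
def Cplt (S : Set (ℕ → ℕ)) : Prop :=
  ∃ M : ℕ → (ℕ → ℕ) → ℕ → Prop, (∀ i, ∀ p ∈ S, ∃ k, ∀ j, k ≤ j → M i p j) ∧
    ∀ q, (∀ i, ∃ p ∈ S, ∃ j, i ≤ j ∧ M i p j ∧ Agree j p q) → q ∈ S

theorem Cplt.of_closed {S : Set (ℕ → ℕ)} (h : ∀ q, (∀ k, ∃ p ∈ S, Agree k p q) → q ∈ S) :
    Cplt S := ⟨fun _ _ _ => True, fun _ _ _ => ⟨0, fun _ _ => trivial⟩, fun q hq => h q fun k =>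
      let ⟨p, hp, _, hj, _, hA⟩ := hq k; ⟨p, hp, hA.mono hj⟩⟩

theorem Cplt.cone {S : Set (ℕ → ℕ)} (h : Cplt S) (k : ℕ) (p1 : ℕ → ℕ) :
    Cplt {t ∈ S | Agree k p1 t} := by
  obtain ⟨M, h1, h2⟩ := h
  refine ⟨M, fun i p hp => h1 i p hp.1, fun q hq => ⟨h2 q fun i => ?_, ?_⟩⟩
  · obtain ⟨p, hp, h⟩ := hq i
    exact ⟨p, hp.1, h⟩
  · obtain ⟨p, hp, j, hj, -, hA⟩ := hq k
    exact hp.2.trans (hA.mono hj)

theorem Cplt.prod {S T : Set (ℕ → ℕ)} (h : Cplt S) (h' : Cplt T) :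
    Cplt {p | (fun n => p (2 * n)) ∈ S ∧ (fun n => p (2 * n + 1)) ∈ T} := by
  obtain ⟨M, h1, h2⟩ := h
  obtain ⟨N, h3, h4⟩ := h'
  refine ⟨fun i p j => i ≤ j / 2 ∧ M i (fun n => p (2 * n)) (j / 2) ∧
    N i (fun n => p (2 * n + 1)) (j / 2), fun i p hp => ?_, fun q hq => ⟨h2 _ fun i => ?_,
      h4 _ fun i => ?_⟩⟩
  · obtain ⟨k, hk⟩ := h1 i _ hp.1
    obtain ⟨k', hk'⟩ := h3 i _ hp.2
    exact ⟨2 * (i + k + k'), fun j hj => ⟨by omega, hk _ (by omega), hk' _ (by omega)⟩⟩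
  · obtain ⟨p, hp, j, -, h, hA⟩ := hq i
    exact ⟨_, hp.1, j / 2, h.1, h.2.1, fun n hn => hA _ (by omega)⟩
  · obtain ⟨p, hp, j, -, h, hA⟩ := hq i
    exact ⟨_, hp.2, j / 2, h.1, h.2.2, fun n hn => hA _ (by omega)⟩

theorem baireC {S : Set (ℕ → ℕ)} (hS : Cplt S) (hne : S.Nonempty) {ι : Type} [Countable ι]
    (A : ι → Set (ℕ → ℕ)) (hcov : ∀ p ∈ S, ∃ m, p ∈ A m)
    (hcl : ∀ m, ∀ p ∈ S, p ∉ A m → ∃ k, ∀ p' ∈ S, Agree k p p' → p' ∉ A m) :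
    ∃ m, ∃ p ∈ S, ∃ k, ∀ p' ∈ S, Agree k p p' → p' ∈ A m := by
  by_contra hcon
  push Not at hcon
  obtain ⟨M, hM, hS⟩ := hS
  obtain ⟨p0, hp0⟩ := hne
  have : Nonempty ι := ⟨(hcov p0 hp0).choose⟩
  obtain ⟨D, hD⟩ := exists_surjective_nat ι
  obtain ⟨s, -, hs1, hs2⟩ := generic (C := S × ℕ)
    (fun c c' => c.2 < c'.2 ∧ Agree c.2 c.1.1 c'.1.1)
    (fun i c' => M i c'.1.1 c'.2 ∧ ∀ q ∈ S, Agree c'.2 c'.1.1 q → q ∉ A (D i)) (by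
      intro i c
      obtain ⟨p', hp', hA, hn⟩ := hcon (D i) c.1.1 c.1.2 c.2
      obtain ⟨k1, hk1⟩ := hcl _ p' hp' hn
      obtain ⟨k2, hk2⟩ := hM i p' hp'
      exact ⟨(⟨p', hp'⟩, c.2 + 1 + k1 + k2), ⟨by dsimp only; omega, hA⟩, hk2 _ (by omega),
        fun q hq h => hk1 q hq (h.mono (by dsimp only; omega))⟩) (⟨p0, hp0⟩, 0)
  obtain ⟨q, hq1, hq2⟩ := exists_limit (fun i => (s i).1.1) (fun i => (s i).2)
    (fun i => (hs1 i).1) (fun i => (hs1 i).2)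
  have hq : q ∈ S := hS q fun i =>
    ⟨_, (s (i + 1)).1.2, _, (Nat.le_succ i).trans (hq2 _), (hs2 i).1, hq1 _⟩
  obtain ⟨m, hm⟩ := hcov q hq
  obtain ⟨i, rfl⟩ := hD m
  exact (hs2 i).2 q hq (hq1 _) hm

/-- `p` has arbitrarily close neighbours without a common approximate solution -/
def Split (P : Problem) (p : ℕ → ℕ) : Prop :=
  ∃ L, ∀ l, ∃ p' ∈ P.dom, ∃ p'' ∈ P.dom, Agree l p p' ∧ Agree l p p'' ∧
    ∀ r' ∈ P.sol p', ∀ r'' ∈ P.sol p'', ¬ Agree L r' r''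

structure Rich (P : Problem) : Prop where
  ne : P.dom.Nonempty
  cl : Cplt P.dom
  dense : ∀ p ∈ P.dom, ∀ k, ∃ p0 ∈ P.dom, Agree k p p0 ∧ Split P p0

theorem visible1 {P Q : Problem} (R : CRed P Q) {p : ℕ → ℕ} (hp : p ∈ P.dom) {a b : ℕ}
    (h : rel (R.Φ p) a b) : ∃ k, ∀ p' ∈ P.dom, Agree k p p' → rel (R.Φ p') a b := by
  obtain ⟨k, hk⟩ := visible R hp {(a, b)}
  exact ⟨k, fun p' hp' hA => hk p' hp' hA (a, b) (by simp) h⟩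

theorem Split.not_good {P : Problem} (R : CRed P DIAG) {p : ℕ → ℕ} (hp : p ∈ P.dom)
    (hs : Split P p) {m k : ℕ} {e : Fin m → ℕ} (hg : Good 3 (rel (R.Φ p)) m e) :
    ¬ ∀ p' ∈ P.dom, Agree k p p' → ∀ i j, rel (R.Φ p') (e i) (e j) → i = j := by
  intro h
  obtain ⟨L, hL⟩ := hs
  obtain ⟨l, hl⟩ := transfer R hp hg.2.1 e hg.1 L
  obtain ⟨p', hp', p'', hp'', h1, h2, h3⟩ := hL (max l k)
  obtain ⟨f', hf', h4⟩ := hl p' hp' (h1.mono (le_max_left _ _))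
    (h p' hp' (h1.mono (le_max_right _ _)))
  obtain ⟨f'', hf'', h5⟩ := hl p'' hp'' (h2.mono (le_max_left _ _))
    (h p'' hp'' (h2.mono (le_max_right _ _)))
  choose w hw using hg.avoid ![f', f''] (by
    intro c
    fin_cases c
    · exact hf'
    · exact hf'')
  obtain ⟨r', hr', h6⟩ := h4 w fun x => hw x 0
  obtain ⟨r'', hr'', h7⟩ := h5 w fun x => hw x 1
  exact h3 r' hr' r'' hr'' (h6.symm.trans h7)

theorem Rich.two {P : Problem} (hP : Rich P) (R : CRed P DIAG) :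
    ∃ p ∈ P.dom, ∀ e : Fin 3 → ℕ, ¬ ∀ i j, rel (R.Φ p) (e i) (e j) → i = j := by
  by_contra hcon
  push Not at hcon
  obtain ⟨e, p, hp, k, h⟩ := baireC hP.cl hP.ne
    (fun e : Fin 3 → ℕ => {p | ∀ i j, rel (R.Φ p) (e i) (e j) → i = j}) hcon (by
      intro e p hp h
      simp only [Set.mem_ofPred_eq, not_forall] at h
      obtain ⟨i, j, h, hij⟩ := h
      obtain ⟨k, hk⟩ := visible1 R hp h
      exact ⟨k, fun p' hp' hA h => hij (h i j (hk p' hp' hA))⟩)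
  obtain ⟨p0, hp0, hA, hs⟩ := hP.dense p hp k
  exact hs.not_good R hp0 (k := k) ⟨h p0 hp0 hA, by omega, Or.inl rfl⟩
    fun p' hp' hA' => h p' hp' (hA.trans hA')

theorem full_of_two {E : ℕ → ℕ → Prop} (hE : Equivalence E) {a b : ℕ} (hab : ¬ E a b)
    (h : ∀ e : Fin 3 → ℕ, ¬ ∀ i j, E (e i) (e j) → i = j) (x : ℕ) : E x a ∨ E x b := by
  by_contra hx
  push Not at hx
  refine h ![x, a, b] fun i j => ?_
  have h1 : ¬ E a x := fun h => hx.1 (hE.symm h)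
  have h2 : ¬ E b x := fun h => hx.2 (hE.symm h)
  have h3 : ¬ E b a := fun h => hab (hE.symm h)
  fin_cases i <;> fin_cases j <;> simp [hx.1, hx.2, h1, h2, h3, hab]

theorem inj_two {E : ℕ → ℕ → Prop} (hE : Equivalence E) {a b : ℕ} (hab : ¬ E a b) (i j : Fin 2) :
    E (![a, b] i) (![a, b] j) → i = j := by
  have h3 : ¬ E b a := fun h => hab (hE.symm h)
  fin_cases i <;> fin_cases j <;> simp [h3, hab]

/-- restriction of a reduction along a map of names -/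
def CRed.pull {P Q : Problem} (R : CRed P Q) (T : Set (ℕ → ℕ)) (N : (ℕ → ℕ) → ℕ → ℕ)
    (hN : ∀ t ∈ T, N t ∈ P.dom) (hc : ∀ k t t', Agree k t t' → Agree k (N t) (N t')) :
    CRed ⟨T, fun t => P.sol (N t)⟩ Q where
  Φ t := R.Φ (N t)
  Ψ t q := R.Ψ (N t) q
  dom t ht := R.dom _ (hN t ht)
  sol t ht := R.sol _ (hN t ht)
  cΦ t ht n := let ⟨k, hk⟩ := R.cΦ _ (hN t ht) n
    ⟨k, fun t' ht' hA => hk _ (hN t' ht') (hc _ _ _ hA)⟩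
  cΨ t ht q hq n := let ⟨k, hk⟩ := R.cΨ _ (hN t ht) q hq n
    ⟨k, fun t' ht' q' hq' hA hB => hk _ (hN t' ht') q' hq' (hc _ _ _ hA) hB⟩

theorem Split.cone {S : Set (ℕ → ℕ)} {sol sol' : (ℕ → ℕ) → Set (ℕ → ℕ)} {p p1 : ℕ → ℕ} {k : ℕ}
    (h : Split ⟨S, sol⟩ p) (hp : Agree k p1 p) (u : ℕ → ℕ) (hu : ∀ n, u n ≤ 2 * n + 1)
    (hs : ∀ t ∈ S, ∀ r ∈ sol' t, (fun n => r (u n)) ∈ sol t) :
    Split ⟨{t ∈ S | Agree k p1 t}, sol'⟩ p := by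
  obtain ⟨L, hL⟩ := h
  refine ⟨2 * L, fun l => ?_⟩
  obtain ⟨p', hp', p'', hp'', h1, h2, h3⟩ := hL (max l k)
  refine ⟨p', ⟨hp', hp.trans (h1.mono (le_max_right _ _))⟩, p'',
    ⟨hp'', hp.trans (h2.mono (le_max_right _ _))⟩, h1.mono (le_max_left _ _),
    h2.mono (le_max_left _ _), fun r' hr' r'' hr'' h => h3 _ (hs _ hp' _ hr') _ (hs _ hp'' _ hr'')
      fun i hi => h _ ?_⟩
  have := hu i
  omega

theorem Rich.cone {S : Set (ℕ → ℕ)} {sol sol' : (ℕ → ℕ) → Set (ℕ → ℕ)} {p1 : ℕ → ℕ} (k : ℕ)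
    (h : Rich ⟨S, sol⟩) (hp : p1 ∈ S) (u : ℕ → ℕ) (hu : ∀ n, u n ≤ 2 * n + 1)
    (hs : ∀ t ∈ S, ∀ r ∈ sol' t, (fun n => r (u n)) ∈ sol t) :
    Rich ⟨{t ∈ S | Agree k p1 t}, sol'⟩ := by
  refine ⟨⟨p1, hp, Agree.refl _ _⟩, h.cl.cone k p1, fun p hp' j => ?_⟩
  · obtain ⟨p0, hp0, hA, hs'⟩ := h.dense p hp'.1 (max j k)
    have := hp'.2.trans (hA.mono (le_max_right _ _))
    exact ⟨p0, ⟨hp0, this⟩, hA.mono (le_max_left _ _), hs'.cone this u hu hs⟩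

theorem join_mem_prod {P Q : Problem} {p q : ℕ → ℕ} (hp : p ∈ P.dom) (hq : q ∈ Q.dom) :
    join p q ∈ (prod P Q).dom := ⟨by rwa [join_ev], by rwa [join_od]⟩

theorem join_ev_od (p : ℕ → ℕ) : join (fun n => p (2 * n)) (fun n => p (2 * n + 1)) = p := by
  funext n
  simp only [join]
  split_ifs <;> congr 1 <;> omega

theorem not_prod_rich {P Q : Problem} {S T : Set (ℕ → ℕ)} (hS : S ⊆ P.dom) (hT : T ⊆ Q.dom)
    (hP : Rich ⟨S, P.sol⟩) (hQ : Rich ⟨T, Q.sol⟩) (R : CRed (prod P Q) DIAG) : False := by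
  obtain ⟨⟨a, b⟩, p1, hp1, k, h⟩ := baireC
    (S := {p | (fun n => p (2 * n)) ∈ S ∧ (fun n => p (2 * n + 1)) ∈ T}) (hP.cl.prod hQ.cl)
    (let ⟨p, hp⟩ := hP.ne; let ⟨q, hq⟩ := hQ.ne
      ⟨join p q, by rwa [join_ev], by rwa [join_od]⟩)
    (fun z : ℕ × ℕ => {p | ¬ rel (R.Φ p) z.1 z.2})
    (fun p hp => let ⟨x, y, h⟩ := (R.dom p ⟨hS hp.1, hT hp.2⟩).2; ⟨(x, y), h⟩) (by
      intro z p hp h
      obtain ⟨k, hk⟩ := visible1 R (p := p) ⟨hS hp.1, hT hp.2⟩ (not_not.1 h)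
      exact ⟨k, fun p' hp' hA h => h (hk p' ⟨hS hp'.1, hT hp'.2⟩ hA)⟩)
  have hab : ∀ s ∈ S, ∀ t ∈ T, Agree k (fun n => p1 (2 * n)) s →
      Agree k (fun n => p1 (2 * n + 1)) t → ¬ rel (R.Φ (join s t)) a b := fun s hs t ht h1 h2 =>
    h _ ⟨by rwa [join_ev], by rwa [join_od]⟩ (by simpa only [join_ev_od] using h1.join h2)
  obtain ⟨J, hJ, hA, hs⟩ := hQ.dense _ hp1.2 k
  obtain ⟨s, hs1, h2⟩ := (hP.cone k hp1.1 (sol' := fun t => (prod P Q).sol (join t J))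
    (fun n => 2 * n) (fun n => by omega) fun t _ r hr => by simpa only [join_ev] using hr.1).two
    (R.pull _ (fun t => join t J) (fun t ht => join_mem_prod (hS ht.1) (hT hJ))
      fun _ _ _ h => h.join (Agree.refl _ _))
  have hE := (R.dom _ (join_mem_prod (hS hs1.1) (hT hJ))).1
  refine (hs.cone hA (sol' := fun t => (prod P Q).sol (join s t)) (fun n => 2 * n + 1)
    (fun n => le_rfl) fun t _ r hr => by simpa only [join_od] using hr.2).not_good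
    (R.pull _ (fun t => join s t) (fun t ht => join_mem_prod (hS hs1.1) (hT ht.1))
      fun _ _ _ h => (Agree.refl _ _).join h) (And.intro hJ hA) (k := 0) (e := ![a, b])
    ⟨inj_two hE (hab s hs1.1 J hJ hs1.2 hA), le_rfl, Or.inr fun x => ?_⟩
    fun t ht _ => inj_two (R.dom _ (join_mem_prod (hS hs1.1) (hT ht.1))).1
      (hab s hs1.1 t ht.1 hs1.2 ht.2)
  rcases full_of_two hE (hab s hs1.1 J hJ hs1.2 hA) h2 x with h | h
  · exact ⟨0, h⟩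
  · exact ⟨1, h⟩

theorem not_prod_non {P : Problem} {S : Set (ℕ → ℕ)} (hS : S ⊆ P.dom) (hP : Rich ⟨S, P.sol⟩) :
    ¬ WRed (prod P NON) DIAG := by
  intro h
  obtain ⟨R, h1, h2⟩ := h.elim
  have hd : ∀ t ∈ S, join t t ∈ (prod P NON).dom := fun t ht => join_mem_prod (hS ht) trivial
  obtain ⟨p1, hp1⟩ := hP.ne
  obtain ⟨s, hs, h3⟩ := (hP.cone 0 hp1 (sol' := fun t => (prod P NON).sol (join t t))
    (fun n => 2 * n) (fun n => by omega) fun t _ r hr => by simpa only [join_ev] using hr.1).two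
    (R.pull _ (fun t => join t t) (fun t ht => hd t ht.1) fun _ _ _ h => h.join h)
  obtain ⟨hE, a, b, hab⟩ := R.dom _ (hd s hs.1)
  have h4 : TRed (join s s) s := (TRed.refl s).join (TRed.refl s)
  have h5 : CE s fun z : ℕ × ℕ => rel (R.Φ (join s s)) z.1 z.2 :=
    CE.trans UCE.rel ((h1.tred ⟨_, hd s hs.1⟩).trans h4)
  obtain ⟨g, hg, hg'⟩ := CE.select (p := s) (R := fun x y =>
    (rel (R.Φ (join s s)) x a ∧ y = b) ∨ (rel (R.Φ (join s s)) x b ∧ y = a))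
    (((h5.comp (f := fun z : ℕ × ℕ => (z.1, a)) (by fun_prop)).and (UCE.of_pr (by fun_prop))).or
      ((h5.comp (f := fun z : ℕ × ℕ => (z.1, b)) (by fun_prop)).and (UCE.of_pr (by fun_prop))))
    fun x => (full_of_two hE hab h3 x).elim (fun h => ⟨b, Or.inl ⟨h, rfl⟩⟩)
      fun h => ⟨a, Or.inr ⟨h, rfl⟩⟩
  have hsol : g ∈ DIAG.sol (R.Φ (join s s)) := fun x hx => by
    rcases hg' x with ⟨h, e⟩ | ⟨h, e⟩ <;> rw [e] at hx
    · exact hab (hE.symm (hE.trans hx h))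
    · exact hab (hE.trans hx h)
  have h6 := (R.sol _ (hd s hs.1) g hsol).2
  rw [join_od] at h6
  exact h6 (((h2.tred ⟨(_, g), hd s hs.1, hsol⟩).trans (h4.join hg)).comp (by fun_prop))

end Pool.Agent.Lib.MP_5e3ef6_lc
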