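import Pool.Agent.Lib.MP_5e3ef6_lc.Cont

namespace Pool.Agent.Lib.MP_5e3ef6_lc

/-- `e` lists pairwise inequivalent elements: `K` of them, or a full system of representatives -/
def Good (K : ℕ) (E : ℕ → ℕ → Prop) (m : ℕ) (e : Fin m → ℕ) : Prop :=
  (∀ i j, E (e i) (e j) → i = j) ∧ 2 ≤ m ∧ (m = K ∨ ∀ x, ∃ j, E x (e j))

theorem exists_good {E : ℕ → ℕ → Prop} (hE : Equivalence E) (h2 : ∃ x y, ¬ E x y) {K : ℕ}
    (hK : 2 ≤ K) : ∃ m e, Good K E m e := by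
  have key : ∀ n, (∃ e : Fin (n + 2) → ℕ, ∀ i j, E (e i) (e j) → i = j) ∨
      ∃ m e, Good K E m e := by
    intro n
    induction n with
    | zero =>
      obtain ⟨x, y, hxy⟩ := h2
      left
      refine ⟨![x, y], fun i j => ?_⟩
      fin_cases i <;> fin_cases j <;> simp
      · exact hxy
      · exact fun h => hxy (hE.symm h)
    | succ n ih =>
      rcases ih with ⟨e, he⟩ | h
      · by_cases hc : ∀ x, ∃ j, E x (e j)
        · exact Or.inr ⟨n + 2, e, he, by omega, Or.inr hc⟩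
        · push Not at hc
          obtain ⟨x, hx⟩ := hc
          left
          refine ⟨Fin.cons x e, fun i j => ?_⟩
          refine Fin.cases ?_ (fun i => ?_) i <;> refine Fin.cases ?_ (fun j => ?_) j
          · simp
          · simp only [Fin.cons_zero, Fin.cons_succ]
            exact fun h => absurd h (hx j)
          · simp only [Fin.cons_zero, Fin.cons_succ]
            exact fun h => absurd (hE.symm h) (hx i)
          · simp only [Fin.cons_succ]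
            exact fun h => by rw [he i j h]
      · exact Or.inr h
  obtain ⟨n, rfl⟩ : ∃ n, K = n + 2 := ⟨K - 2, by omega⟩
  rcases key n with ⟨e, he⟩ | h
  · exact ⟨n + 2, e, he, by omega, Or.inl rfl⟩
  · exact h

def Comp (E : ℕ → ℕ → Prop) {m : ℕ} (e : Fin m → ℕ) (f : ℕ → Fin m) : Prop :=
  ∀ x j, E x (e j) → f x = j

theorem exists_ne_fin {m : ℕ} (hm : 2 ≤ m) (a : Fin m) : ∃ b : Fin m, b ≠ a := by
  have : Nontrivial (Fin m) := Fin.nontrivial_iff_two_le.2 hm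
  exact exists_ne a

theorem exists_valid {E : ℕ → ℕ → Prop} (hE : Equivalence E) {m : ℕ} (hm : 2 ≤ m) {e : Fin m → ℕ}
    (he : ∀ i j, E (e i) (e j) → i = j) (x : ℕ) : ∃ j, ¬ E (e j) x := by
  by_contra h
  push Not at h
  obtain ⟨b, hb⟩ := exists_ne_fin hm ⟨0, by omega⟩
  exact hb (he _ _ (hE.trans (h b) (hE.symm (h _))))

theorem Comp.valid {E : ℕ → ℕ → Prop} (hE : Equivalence E) {m : ℕ} {e : Fin m → ℕ}
    {f w : ℕ → Fin m} (hf : Comp E e f) (hw : ∀ x, w x ≠ f x) (x : ℕ) : ¬ E (e (w x)) x :=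
  fun h => hw x (hf x _ (hE.symm h)).symm

theorem visible {P Q : Problem} (R : CRed P Q) {p : ℕ → ℕ} (hp : p ∈ P.dom) (S : Finset (ℕ × ℕ)) :
    ∃ k, ∀ p' ∈ P.dom, Agree k p p' → ∀ a ∈ S, rel (R.Φ p) a.1 a.2 → rel (R.Φ p') a.1 a.2 := by
  classical
  have : ∀ a : ℕ × ℕ, ∃ i, rel (R.Φ p) a.1 a.2 → R.Φ p i = Nat.pair a.1 a.2 + 1 := by
    intro a
    by_cases h : rel (R.Φ p) a.1 a.2
    · obtain ⟨i, hi⟩ := h
      exact ⟨i, fun _ => hi⟩
    · exact ⟨0, fun h' => absurd h' h⟩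
  choose I hI using this
  obtain ⟨k, hk⟩ := R.cΦ p hp (S.sup I + 1)
  refine ⟨k, fun p' hp' hA a ha h => ⟨I a, ?_⟩⟩
  rw [← hk p' hp' hA (I a) (Nat.lt_succ_of_le (Finset.le_sup (f := I) ha)), hI a h]

theorem unif_aux {P : Problem} (R : CRed P DIAG) {p : ℕ → ℕ} (hp : p ∈ P.dom) {m : ℕ}
    (e : Fin m → ℕ) (L : ℕ) :
    ∃ l, ∀ w : ℕ → Fin m, e ∘ w ∈ DIAG.sol (R.Φ p) → ∀ p' ∈ P.dom, ∀ q' ∈ DIAG.sol (R.Φ p'),
      Agree l p p' → Agree l (e ∘ w) q' → Agree L (R.Ψ p (e ∘ w)) (R.Ψ p' q') := by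
  obtain ⟨l, hl⟩ := uniform (α := Fin m) (fun w k => (e ∘ w ∈ DIAG.sol (R.Φ p) ∧
      ∀ p' ∈ P.dom, ∀ q' ∈ DIAG.sol (R.Φ p'), Agree k p p' → Agree k (e ∘ w) q' →
        Agree L (R.Ψ p (e ∘ w)) (R.Ψ p' q')) ∨
      ∀ w', Agree k w w' → e ∘ w' ∉ DIAG.sol (R.Φ p)) (by
    intro w
    by_cases hw : e ∘ w ∈ DIAG.sol (R.Φ p)
    · obtain ⟨k, hk⟩ := R.cΨ p hp _ hw L
      exact ⟨k, Or.inl ⟨hw, hk⟩⟩
    · have : ∃ x, rel (R.Φ p) (e (w x)) x := by
        by_contra h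
        push Not at h
        exact hw h
      obtain ⟨x, hx⟩ := this
      refine ⟨x + 1, Or.inr fun w' hA hw' => hw' x ?_⟩
      show rel (R.Φ p) (e (w' x)) x
      rw [← hA x (Nat.lt_succ_self x)]
      exact hx)
  refine ⟨l, fun w hw p' hp' q' hq' hA hB => ?_⟩
  obtain ⟨w0, k, hk, h | h, hw0⟩ := hl w
  · have h0 : Agree k (e ∘ w0) (e ∘ w) := fun i hi => congrArg e (hw0 i hi)
    exact (h.2 p hp _ hw (Agree.refl _ _) h0).symm.trans
      (h.2 p' hp' q' hq' (hA.mono hk) (h0.trans (hB.mono hk)))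
  · exact absurd hw (h w hw0)

theorem transfer {P : Problem} (R : CRed P DIAG) {p : ℕ → ℕ} (hp : p ∈ P.dom) {m : ℕ}
    (hm : 2 ≤ m) (e : Fin m → ℕ) (he : ∀ i j, rel (R.Φ p) (e i) (e j) → i = j) (L : ℕ) :
    ∃ l, ∀ p' ∈ P.dom, Agree l p p' → (∀ i j, rel (R.Φ p') (e i) (e j) → i = j) →
      ∃ f, Comp (rel (R.Φ p)) e f ∧ ∀ w : ℕ → Fin m, (∀ x, w x ≠ f x) →
        ∃ r ∈ P.sol p', Agree L (R.Ψ p (e ∘ w)) r := by
  classical
  obtain ⟨l1, hl1⟩ := unif_aux R hp e L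
  obtain ⟨l2, hl2⟩ := visible R hp
    ((Finset.range l1) ×ˢ (Finset.univ.image e))
  have hE : Equivalence (rel (R.Φ p)) := (R.dom p hp).1
  refine ⟨max l1 l2, fun p' hp' hA he' => ?_⟩
  have hE' : Equivalence (rel (R.Φ p')) := (R.dom p' hp').1
  have hf : ∀ x, ∃ j : Fin m, (∀ i, rel (R.Φ p) x (e i) → j = i) ∧
      (x < l1 → ∀ i, rel (R.Φ p') x (e i) → j = i) := by
    intro x
    by_cases h : ∃ j, rel (R.Φ p) x (e j)
    · obtain ⟨j, hj⟩ := h
      refine ⟨j, fun i hi => he _ _ (hE.trans (hE.symm hj) hi), fun hx i hi => ?_⟩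
      have := hl2 p' hp' (hA.mono (le_max_right _ _)) (x, e j) (by simp [hx]) hj
      exact he' _ _ (hE'.trans (hE'.symm this) hi)
    · by_cases h' : ∃ j, rel (R.Φ p') x (e j)
      · obtain ⟨j, hj⟩ := h'
        exact ⟨j, fun i hi => absurd ⟨i, hi⟩ h,
          fun _ i hi => he' _ _ (hE'.trans (hE'.symm hj) hi)⟩
      · exact ⟨⟨0, by omega⟩, fun i hi => absurd ⟨i, hi⟩ h, fun _ i hi => absurd ⟨i, hi⟩ h'⟩
  choose f hf1 hf2 using hf
  have hC : Comp (rel (R.Φ p)) e f := hf1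
  refine ⟨f, hC, fun w hw => ?_⟩
  choose v hv using exists_valid hE' hm he'
  let w' : ℕ → Fin m := fun x => if x < l1 then w x else v x
  have hw' : e ∘ w' ∈ DIAG.sol (R.Φ p') := by
    intro x
    show ¬ rel (R.Φ p') (e (w' x)) x
    simp only [w']
    split_ifs with hx
    · exact fun h => hw x (hf2 x hx _ (hE'.symm h)).symm
    · exact hv x
  refine ⟨R.Ψ p' (e ∘ w'), R.sol p' hp' _ hw', ?_⟩
  refine hl1 w (hC.valid hE hw) p' hp' _ hw' (hA.mono (le_max_left _ _)) ?_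
  intro i hi
  simp [w', hi]

/-- finitely many compatible forbidding functions can be avoided -/
theorem Good.avoid {K : ℕ} {E : ℕ → ℕ → Prop} {m : ℕ} {e : Fin m → ℕ} (h : Good (K + 1) E m e)
    (f : Fin K → ℕ → Fin m) (hf : ∀ c, Comp E e (f c)) (x : ℕ) : ∃ j, ∀ c, j ≠ f c x := by
  by_cases hx : ∃ j, E x (e j)
  · obtain ⟨j, hj⟩ := hx
    obtain ⟨b, hb⟩ := exists_ne_fin h.2.1 j
    exact ⟨b, fun c => by rw [hf c x j hj]; exact hb⟩
  · rcases h.2.2 with hm | hc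
    · by_contra hcon
      push Not at hcon
      have : Function.Surjective (fun c => f c x) := fun j => by
        obtain ⟨c, hc⟩ := hcon j
        exact ⟨c, hc.symm⟩
      have := Fintype.card_le_of_surjective _ this
      simp at this
      omega
    · exact absurd (hc x) hx

end Pool.Agent.Lib.MP_5e3ef6_lc
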