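import Pool.Agent.Lib.MP_5e3ef6_lc.CE

namespace Pool.Agent.Lib.MP_5e3ef6_lc

variable {α β : Type} [Primcodable α] [Primcodable β]

/-- predicates c.e. in the oracle `p` -/
abbrev CE (p : ℕ → ℕ) (R : α → Prop) : Prop := UCE (fun _ : Unit => p) fun _ => R

theorem CE.congr {p : ℕ → ℕ} {R S : α → Prop} (h : CE p R) (H : ∀ a, S a ↔ R a) : CE p S :=
  UCE.of_iff h fun _ => H

theorem CE.comp {p : ℕ → ℕ} {R : α → Prop} (h : CE p R) {f : β → α} (hf : PR f) :
    CE p fun b => R (f b) := UCE.comp h hf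

theorem TRed.ce {f p : ℕ → ℕ} (h : TRed f p) : CE p fun z : ℕ × ℕ => f z.1 = z.2 := by
  obtain ⟨c, hc, h⟩ := h
  exact UCE.of_computes (F := fun _ => f) hc fun _ => h

theorem TRed.of_ce {f p : ℕ → ℕ} (h : CE p fun z : ℕ × ℕ => f z.1 = z.2) : TRed f p := by
  obtain ⟨c, hc, h⟩ := UCE.computes (F := fun _ => f) h
  exact ⟨c, hc, h ()⟩

theorem CE.trans {p q : ℕ → ℕ} {R : α → Prop} (h : CE q R) (hq : TRed q p) : CE p R :=
  UCE.trans (F := fun _ => q) hq.ce h

theorem TRed.refl (p : ℕ → ℕ) : TRed p p := TRed.of_ce UCE.oracle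

theorem TRed.trans {f q p : ℕ → ℕ} (h : TRed f q) (h' : TRed q p) : TRed f p :=
  TRed.of_ce (h.ce.trans h')

theorem TRed.comp {f p : ℕ → ℕ} (h : TRed f p) {u : ℕ → ℕ} (hu : PR u) :
    TRed (fun n => f (u n)) p :=
  TRed.of_ce (h.ce.comp (f := fun z : ℕ × ℕ => (u z.1, z.2)) (by fun_prop))

theorem TRed.of_computable {f : ℕ → ℕ} (h : Computable f) (p : ℕ → ℕ) : TRed f p :=
  TRed.of_ce (UCE.graph h)

theorem TRed.ite {f g p : ℕ → ℕ} (hf : TRed f p) (hg : TRed g p) {S : ℕ → Prop}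
    [DecidablePred S] (hS : PR fun n => decide (S n)) :
    TRed (fun n => if S n then f n else g n) p := by
  refine TRed.of_ce (CE.congr (R := fun z : ℕ × ℕ => (S z.1 → f z.1 = z.2) ∧
    (¬ S z.1 → g z.1 = z.2)) ?_ fun z => by by_cases h : S z.1 <;> simp [h])
  have h1 : PR fun z : ℕ × ℕ => decide (S z.1) := hS.comp (f := fun z : ℕ × ℕ => z.1) (by fun_prop)
  exact (hf.ce.imp h1).and (hg.ce.imp h1.dec_not)

theorem TRed.join {f g p : ℕ → ℕ} (hf : TRed f p) (hg : TRed g p) : TRed (join f g) p :=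
  TRed.ite (hf.comp (u := fun n => n / 2) (by fun_prop)) (hg.comp (u := fun n => n / 2)
    (by fun_prop)) (S := fun n => n % 2 = 0) (by fun_prop)

theorem TRed.left (p q : ℕ → ℕ) : TRed p (MP_5e3ef6_lc.join p q) := by
  have := (TRed.refl (MP_5e3ef6_lc.join p q)).comp (u := fun n => 2 * n) (by fun_prop)
  rwa [join_ev] at this

theorem TRed.right (p q : ℕ → ℕ) : TRed q (MP_5e3ef6_lc.join p q) := by
  have := (TRed.refl (MP_5e3ef6_lc.join p q)).comp (u := fun n => 2 * n + 1) (by fun_prop)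
  rwa [join_od] at this

theorem CE.select {p : ℕ → ℕ} {R : ℕ → ℕ → Prop} (h : CE p fun z : ℕ × ℕ => R z.1 z.2)
    (ht : ∀ n, ∃ v, R n v) : ∃ f, TRed f p ∧ ∀ n, R n (f n) := by
  obtain ⟨c, hc, h⟩ := UCE.select (R := fun _ => R) h fun _ => ht
  obtain ⟨f, hf, h⟩ := h ()
  exact ⟨f, ⟨c, hc, hf⟩, h⟩

theorem CE.enum {p : ℕ → ℕ} {S : ℕ → Prop} (h : CE p S) :
    ∃ r, TRed r p ∧ ∀ v, (∃ i, r i = v + 1) ↔ S v := by
  obtain ⟨c, hc, h⟩ := UCE.enum h
  obtain ⟨r, hr, h⟩ := h ()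
  exact ⟨r, ⟨c, hc, hr⟩, h⟩

theorem UCE.rel {O : Type} {o : O → ℕ → ℕ} :
    UCE o fun x (z : ℕ × ℕ) => rel (o x) z.1 z.2 := by
  refine UCE.ex ?_
  exact UCE.oracle.comp (f := fun w : (ℕ × ℕ) × ℕ => (w.2, Nat.pair w.1.1 w.1.2 + 1))
    (by fun_prop)

theorem UCE.finEx {O B : Type} [Finite B] {o : O → ℕ → ℕ} {U : B → O → α → Prop}
    (h : ∀ b, UCE o (U b)) : UCE o fun x a => ∃ b, U b x a := by
  obtain ⟨s, -, hs⟩ := Finite.exists_univ_list B
  have : ∀ l : List B, UCE o fun x a => ∃ b ∈ l, U b x a := by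
    intro l
    induction l with
    | nil => exact (UCE.of_bool (f := fun _ => false) (by fun_prop)).of_iff fun _ _ => by simp
    | cons b l ih => exact ((h b).or ih).of_iff fun _ _ => by simp
  exact (this s).of_iff fun _ _ => by simp [hs]

theorem TRed.computable {f p : ℕ → ℕ} (h : TRed f p) (hp : Computable p) : Computable f := by
  obtain ⟨c, hc, h⟩ := h
  have h1 : Computable fun k => pre p k := by
    have : Computable fun k : ℕ => (Nat.rec [] (fun n l => l ++ [p n]) k : List ℕ) :=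
      Computable.nat_rec (f := fun k : ℕ => k) (g := fun _ => ([] : List ℕ))
        (h := fun _ z => z.2 ++ [p z.1]) Computable.id (Computable.const _)
        (Computable.list_concat.comp (Computable.snd.comp Computable.snd)
          (hp.comp (Computable.fst.comp Computable.snd))).to₂
    refine this.of_eq fun k => ?_
    induction k with
    | zero => rfl
    | succ k ih => simp [pre, List.range_succ] at ih ⊢; exact ih
  have h2 : Computable₂ fun n k => c (pre p k) n :=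
    hc.comp (h1.comp Computable.snd) Computable.fst
  refine (Partrec.rfindOpt h2).of_eq_tot fun n => ?_
  obtain ⟨k, hk, hk'⟩ := h n
  simp only [Nat.rfindOpt, Part.mem_bind_iff, Nat.mem_rfind]
  refine ⟨k, ⟨by simp [hk], fun {m} hm => by simp [hk' m hm]⟩, by simp [hk]⟩

theorem exists_enum : ∃ e : ℕ → List ℕ → ℕ → Option ℕ, ∀ c, Computable₂ c → ∃ i, e i = c := by
  have : Countable {c : List ℕ → ℕ → Option ℕ // Computable₂ c} := by
    have h : ∀ c : {c : List ℕ → ℕ → Option ℕ // Computable₂ c}, ∃ e : Nat.Partrec.Code,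
        ∀ z : List ℕ × ℕ, Encodable.encode (c.1 z.1 z.2) ∈ e.eval (Encodable.encode z) := by
      intro c
      obtain ⟨e, he⟩ := Nat.Partrec.Code.exists_code.1 c.2
      refine ⟨e, fun z => ?_⟩
      rw [he]
      simp only [Encodable.encodek]
      simp
    choose e he using h
    refine Function.Injective.countable (f := e) fun c c' h => Subtype.ext ?_
    funext l n
    exact Encodable.encode_injective (Part.mem_unique (he c (l, n)) (h ▸ he c' (l, n)))
  have : Nonempty {c : List ℕ → ℕ → Option ℕ // Computable₂ c} :=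
    ⟨⟨fun _ _ => none, PR.computable₂ (by fun_prop)⟩⟩
  obtain ⟨e, he⟩ := exists_surjective_nat {c : List ℕ → ℕ → Option ℕ // Computable₂ c}
  refine ⟨fun i => (e i).1, fun c hc => ?_⟩
  obtain ⟨i, hi⟩ := he ⟨c, hc⟩
  exact ⟨i, by simp [hi]⟩

theorem Computes.unique {c : List ℕ → ℕ → Option ℕ} {p f g : ℕ → ℕ} (h : Computes c p f)
    (h' : Computes c p g) : f = g := by
  funext n
  obtain ⟨k, hk⟩ := h.local n
  exact hk p g h' (Agree.refl _ _)

end Pool.Agent.Lib.MP_5e3ef6_lc
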