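import Pool.Agent.Lib.MP_5e3ef6_lc.Baire
import Pool.Agent.Lib.MP_5e3ef6_lc.PR

namespace Pool.Agent.Lib.MP_5e3ef6_lc

@[simp] theorem length_pre (p : ℕ → ℕ) (k : ℕ) : (pre p k).length = k := by simp [pre]

theorem getD_pre (p : ℕ → ℕ) {k i : ℕ} (h : i < k) : (pre p k).getD i 0 = p i := by
  simp [pre, List.getD_eq_getElem?_getD, h]

theorem take_pre (p : ℕ → ℕ) {k s : ℕ} (h : s ≤ k) : (pre p k).take s = pre p s := by
  simp [pre, ← List.map_take, List.take_range, min_eq_left h]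

theorem mem_pre {p : ℕ → ℕ} {k a : ℕ} : a ∈ pre p k ↔ ∃ i < k, p i = a := by
  simp [pre]

theorem computes_of {c : List ℕ → ℕ → Option ℕ} {p q : ℕ → ℕ}
    (h1 : ∀ n, ∃ k, c (pre p k) n ≠ none) (h2 : ∀ k n v, c (pre p k) n = some v → v = q n) :
    Computes c p q := by
  classical
  intro n
  refine ⟨Nat.find (h1 n), ?_, fun j hj => by simpa using Nat.find_min (h1 n) hj⟩
  obtain ⟨v, hv⟩ := Option.ne_none_iff_exists'.1 (Nat.find_spec (h1 n))
  rw [hv, h2 _ _ _ hv]

theorem computes_use (u G : List ℕ → ℕ → ℕ) {p q : ℕ → ℕ} (h1 : ∀ n, ∃ k, u (pre p k) n < k)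
    (h2 : ∀ k n, u (pre p k) n < k → G (pre p k) n = q n) :
    Computes (fun l n => if u l n < l.length then some (G l n) else none) p q := by
  refine computes_of (fun n => ?_) (fun k n v h => ?_)
  · obtain ⟨k, hk⟩ := h1 n
    exact ⟨k, by simp [hk]⟩
  · simp only [length_pre] at h
    split_ifs at h with hk
    rw [← Option.some.inj h, h2 k n hk]

theorem computes_take (F : List ℕ → ℕ → ℕ) (p : ℕ → ℕ) :
    Computes (fun l n => if n < l.length then some (F (l.take (n + 1)) n) else none) p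
      (fun n => F (pre p (n + 1)) n) :=
  computes_use (fun _ n => n) (fun l n => F (l.take (n + 1)) n)
    (fun n => ⟨n + 1, Nat.lt_succ_self n⟩) (fun k n h => by rw [take_pre p h])

def upG (l : List ℕ) (n s : ℕ) : ℕ :=
  if l.getD s 0 = Nat.pair n.unpair.2 n.unpair.1.unpair.1 + 1 ∧
      ¬ Nat.pair n.unpair.2 n.unpair.1.unpair.2 + 1 ∈ l.take (s + 1) then Nat.pair n 0 + 1
  else if l.getD s 0 = Nat.pair n.unpair.2 n.unpair.1.unpair.2 + 1 ∧
      ¬ Nat.pair n.unpair.2 n.unpair.1.unpair.1 + 1 ∈ l.take (s + 1) then Nat.pair n 1 + 1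
  else 0

def upF (l : List ℕ) (i : ℕ) : ℕ :=
  if i % 2 = 0 then l.getD (i / 2) 0 else upG l (i / 2).unpair.1 (i / 2).unpair.2

theorem pr_upF : PR fun x : List ℕ × ℕ => upF x.1 x.2 := by
  unfold upF upG
  fun_prop

theorem upG_rel (p : ℕ → ℕ) (n j : ℕ) :
    rel (fun i => upF (pre p (2 * i + 1 + 1)) (2 * i + 1)) n j ↔
      (j = 0 ∧ ∃ s, p s = Nat.pair n.unpair.2 n.unpair.1.unpair.1 + 1 ∧
        ∀ t ≤ s, p t ≠ Nat.pair n.unpair.2 n.unpair.1.unpair.2 + 1) ∨
      (j = 1 ∧ ∃ s, p s = Nat.pair n.unpair.2 n.unpair.1.unpair.2 + 1 ∧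
        ∀ t ≤ s, p t ≠ Nat.pair n.unpair.2 n.unpair.1.unpair.1 + 1) := by
  have key : ∀ i, upF (pre p (2 * i + 1 + 1)) (2 * i + 1) =
      upG (pre p (i.unpair.2 + 1)) i.unpair.1 i.unpair.2 := by
    intro i
    have h1 : (2 * i + 1) % 2 = 1 := by omega
    have h2 : (2 * i + 1) / 2 = i := by omega
    have h3 := Nat.unpair_right_le i
    have h4 : i.unpair.2 < 2 * i + 1 + 1 := by omega
    have h5 : i.unpair.2 + 1 ≤ 2 * i + 1 + 1 := by omega
    simp only [upF, h1, h2, upG, getD_pre p h4, getD_pre p (Nat.lt_succ_self _), take_pre p h5,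
      take_pre p le_rfl]
    rfl
  have hm : ∀ s a, (¬ a ∈ (pre p (s + 1)).take (s + 1)) ↔ ∀ t ≤ s, p t ≠ a := by
    intro s a
    rw [take_pre p le_rfl, mem_pre]
    simp [Nat.lt_succ_iff]
  constructor
  · rintro ⟨i, hi⟩
    simp only [key, upG, hm, getD_pre p (Nat.lt_succ_self _)] at hi
    split_ifs at hi with h1 h2
    · obtain ⟨rfl, rfl⟩ := Nat.pair_eq_pair.1 (Nat.succ_injective hi)
      exact Or.inl ⟨rfl, _, h1⟩
    · obtain ⟨rfl, rfl⟩ := Nat.pair_eq_pair.1 (Nat.succ_injective hi)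
      exact Or.inr ⟨rfl, _, h2⟩
  · rintro (⟨rfl, s, h⟩ | ⟨rfl, s, h⟩)
    · refine ⟨Nat.pair n s, ?_⟩
      simp only [key, upG, hm, getD_pre p (Nat.lt_succ_self _), Nat.unpair_pair]
      rw [if_pos h]
    · refine ⟨Nat.pair n s, ?_⟩
      simp only [key, upG, hm, getD_pre p (Nat.lt_succ_self _), Nat.unpair_pair]
      rw [if_neg (fun h' => h'.2 s le_rfl h.1), if_pos h]

theorem join_two_mul (p q : ℕ → ℕ) (n : ℕ) : join p q (2 * n) = p n := congrFun (join_ev p q) n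
theorem join_two_mul_add (p q : ℕ → ℕ) (n : ℕ) : join p q (2 * n + 1) = q n :=
  congrFun (join_od p q) n

theorem diag_le_cn_dnc2 : WRed DIAG (prod CN (DNC 2)) := by
  refine ⟨fun l n => if n < l.length then some (upF (l.take (n + 1)) n) else none,
    fun l n => if 2 * (2 * Nat.pair (l.getD 1 0) n + 1) + 1 < l.length then
      some (if l.getD (2 * (2 * Nat.pair (l.getD 1 0) n + 1) + 1) 0 = 0 then (l.getD 1 0).unpair.1
        else (l.getD 1 0).unpair.2) else none, ?_, ?_, ?_⟩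
  · have := pr_upF
    apply PR.computable₂
    fun_prop
  · apply PR.computable₂
    fun_prop
  rintro p ⟨hE, x0, y0, h0⟩
  have hev : (fun n => upF (pre p (2 * n + 1)) (2 * n)) = p := by
    funext n
    simp only [upF, Nat.mul_mod_right, if_true]
    rw [Nat.mul_div_cancel_left _ (by norm_num), getD_pre p (by omega)]
  refine ⟨_, ⟨?_, ?_⟩, computes_take upF p, ?_⟩
  · rw [hev]
    exact ⟨Nat.pair x0 y0, fun i hi => h0 ⟨i, hi⟩⟩
  · intro n a b ha hb
    rw [upG_rel] at ha hb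
    rcases ha with ⟨rfl, s, h1, h2⟩ | ⟨rfl, s, h1, h2⟩ <;>
      rcases hb with ⟨rfl, t, h3, h4⟩ | ⟨rfl, t, h3, h4⟩
    · rfl
    · rcases le_total s t with h | h
      · exact absurd h1 (h4 s h)
      · exact absurd h3 (h2 t h)
    · rcases le_total s t with h | h
      · exact absurd h1 (h4 s h)
      · exact absurd h3 (h2 t h)
    · rfl
  · rintro q ⟨hq1, hq2⟩
    rw [hev] at hq1
    have hab : ¬ rel p (q 0).unpair.1 (q 0).unpair.2 := by
      rintro ⟨i, hi⟩
      rw [Nat.pair_unpair] at hi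
      exact hq1 i hi
    refine ⟨fun n => if q (2 * Nat.pair (q 0) n + 1) = 0 then (q 0).unpair.1 else (q 0).unpair.2,
      fun n => ?_, ?_⟩
    · obtain ⟨h1, h2⟩ := hq2 (Nat.pair (q 0) n)
      rw [upG_rel] at h2
      simp only [Nat.unpair_pair] at h2
      have h1' : q (2 * Nat.pair (q 0) n + 1) < 2 := by exact_mod_cast h1
      dsimp only
      split_ifs with h
      · intro h'
        obtain ⟨s, hs⟩ := hE.symm h'
        exact h2 (Or.inl ⟨h, s, hs, fun t _ ht => hab (hE.trans h' ⟨t, ht⟩)⟩)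
      · intro h'
        obtain ⟨s, hs⟩ := hE.symm h'
        exact h2 (Or.inr ⟨by omega, s, hs,
          fun t _ ht => hab (hE.trans (hE.symm ⟨t, ht⟩) (hE.symm h'))⟩)
    · have h1 : join p q 1 = q 0 := join_two_mul_add p q 0
      refine computes_use (fun l n => 2 * (2 * Nat.pair (l.getD 1 0) n + 1) + 1) _
        (fun n => ⟨2 * (2 * Nat.pair (q 0) n + 1) + 2, ?_⟩) (fun k n h => ?_)
      · rw [getD_pre _ (by omega), h1]
        omega
      · have hk : 1 < k := by omega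
        rw [getD_pre _ h, getD_pre _ hk, h1, join_two_mul_add]

end Pool.Agent.Lib.MP_5e3ef6_lc
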