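import Pool.Agent.Lib.MP_5e3ef6_lc.Tur
import Pool.Agent.Lib.MP_5e3ef6_lc.Main

namespace Pool.Agent.Lib.MP_5e3ef6_lc

variable {O : Type}

/-- `F x` is computable from `o x`, uniformly in `x` -/
abbrev UC (o F : O → ℕ → ℕ) : Prop := UCE o fun x (z : ℕ × ℕ) => F x z.1 = z.2

namespace UC

variable {o F G H : O → ℕ → ℕ}

theorem refl : UC o o := UCE.oracle

theorem trans (h : UC G F) (h' : UC o G) : UC o F := UCE.trans h' h

theorem reindex (h : UC o F) {u : ℕ → ℕ} (hu : PR u) : UC o fun x n => F x (u n) :=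
  h.comp (f := fun z : ℕ × ℕ => (u z.1, z.2)) (by fun_prop)

theorem ite (hf : UC o F) (hg : UC o G) {S : ℕ → Prop} [DecidablePred S]
    (hS : PR fun n => decide (S n)) : UC o fun x n => if S n then F x n else G x n := by
  have h1 : PR fun z : ℕ × ℕ => decide (S z.1) := hS.comp (f := fun z : ℕ × ℕ => z.1) (by fun_prop)
  exact ((hf.imp h1).and (hg.imp h1.dec_not)).of_iff fun x z => by by_cases h : S z.1 <;> simp [h]

theorem join (hf : UC o F) (hg : UC o G) : UC o fun x => join (F x) (G x) :=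
  ite (hf.reindex (u := fun n => n / 2) (by fun_prop)) (hg.reindex (u := fun n => n / 2)
    (by fun_prop)) (S := fun n => n % 2 = 0) (by fun_prop)

theorem ev (h : UC o F) : UC o fun x n => F x (2 * n) := h.reindex (by fun_prop)

theorem od (h : UC o F) : UC o fun x n => F x (2 * n + 1) := h.reindex (by fun_prop)

theorem left : UC (fun x => MP_5e3ef6_lc.join (F x) (G x)) F := by
  simpa only [join_two_mul] using ev (refl (o := fun x => MP_5e3ef6_lc.join (F x) (G x)))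

theorem right : UC (fun x => MP_5e3ef6_lc.join (F x) (G x)) G := by
  simpa only [join_two_mul_add] using od (refl (o := fun x => MP_5e3ef6_lc.join (F x) (G x)))

theorem tred (h : UC o F) (x : O) : TRed (F x) (o x) := TRed.of_ce (h.pull fun _ : Unit => x)

end UC

/-- pairs of an instance and a solution of the translated instance -/
abbrev Back (P Q : Problem) (Φ : (ℕ → ℕ) → ℕ → ℕ) : Type :=
  {z : (ℕ → ℕ) × (ℕ → ℕ) // z.1 ∈ P.dom ∧ z.2 ∈ Q.sol (Φ z.1)}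

theorem WRed.intro {P Q : Problem} (Φ : (ℕ → ℕ) → ℕ → ℕ) (Ψ : (ℕ → ℕ) → (ℕ → ℕ) → ℕ → ℕ)
    (hΦ : UC (fun x : P.dom => x.1) fun x => Φ x.1)
    (hΨ : UC (fun x : Back P Q Φ => join x.1.1 x.1.2) fun x => Ψ x.1.1 x.1.2)
    (hd : ∀ p ∈ P.dom, Φ p ∈ Q.dom) (hs : ∀ p ∈ P.dom, ∀ q ∈ Q.sol (Φ p), Ψ p q ∈ P.sol p) :
    WRed P Q := by
  obtain ⟨c, hc, h1⟩ := hΦ.computes
  obtain ⟨d, hd', h2⟩ := hΨ.computes
  exact ⟨c, d, hc, hd', fun p hp => ⟨Φ p, hd p hp, h1 ⟨p, hp⟩,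
    fun q hq => ⟨Ψ p q, hs p hp q hq, h2 ⟨(p, q), hp, hq⟩⟩⟩⟩

theorem WRed.elim {P Q : Problem} (h : WRed P Q) : ∃ R : CRed P Q,
    UC (fun x : P.dom => x.1) (fun x => R.Φ x.1) ∧
    UC (fun x : Back P Q R.Φ => join x.1.1 x.1.2) fun x => R.Ψ x.1.1 x.1.2 := by
  classical
  obtain ⟨c, d, hc', hd', h⟩ := h
  choose! Φ hΦ hc hd using h
  choose! Ψ hΨ hd using hd
  refine ⟨⟨Φ, Ψ, hΦ, hΨ, ?_, ?_⟩, UCE.of_computes hc' fun x => hc _ x.2,
    UCE.of_computes hd' fun x => hd _ x.2.1 _ x.2.2⟩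
  · intro p hp n
    refine agree_of_pointwise (S := fun p' => p' ∈ P.dom) (fun p' k => Agree k p p')
      (fun a k j hkj h => h.mono hkj) (Φ p) Φ ?_ n
    intro n
    obtain ⟨k, hk⟩ := (hc p hp).local n
    exact ⟨k, fun p' hp' hA => hk p' _ (hc p' hp') hA⟩
  · intro p hp q hq n
    have := agree_of_pointwise
      (S := fun a : (ℕ → ℕ) × (ℕ → ℕ) => a.1 ∈ P.dom ∧ a.2 ∈ Q.sol (Φ a.1))
      (fun a k => Agree k p a.1 ∧ Agree k q a.2)
      (fun a k j hkj h => ⟨h.1.mono hkj, h.2.mono hkj⟩) (Ψ p q) (fun a => Ψ a.1 a.2) ?_ n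
    · obtain ⟨k, hk⟩ := this
      exact ⟨k, fun p' hp' q' hq' h1 h2 => hk (p', q') ⟨hp', hq'⟩ ⟨h1, h2⟩⟩
    · intro n
      obtain ⟨k, hk⟩ := (hd p hp q hq).local n
      exact ⟨k, fun a ha hA => hk _ _ (hd a.1 ha.1 a.2 ha.2) (hA.1.join hA.2)⟩

theorem WRed.refl (P : Problem) : WRed P P :=
  WRed.intro (fun p => p) (fun _ q => q) UC.refl UC.right (fun _ h => h) fun _ _ _ h => h

theorem WRed.trans {P Q S : Problem} (h : WRed P Q) (h' : WRed Q S) : WRed P S := by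
  obtain ⟨R, h1, h2⟩ := h.elim
  obtain ⟨R', h3, h4⟩ := h'.elim
  refine WRed.intro (fun p => R'.Φ (R.Φ p)) (fun p q => R.Ψ p (R'.Ψ (R.Φ p) q))
    (UC.trans (h3.pull fun x : P.dom => ⟨R.Φ x.1, R.dom _ x.2⟩) h1) ?_
    (fun p hp => R'.dom _ (R.dom p hp))
    fun p hp q hq => R.sol p hp _ (R'.sol _ (R.dom p hp) q hq)
  refine UC.trans (h2.pull fun x : Back P S fun p => R'.Φ (R.Φ p) =>
    ⟨(x.1.1, R'.Ψ (R.Φ x.1.1) x.1.2), x.2.1, R'.sol _ (R.dom _ x.2.1) _ x.2.2⟩)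
    (UC.left.join ?_)
  refine UC.trans (h4.pull fun x : Back P S fun p => R'.Φ (R.Φ p) =>
    ⟨(R.Φ x.1.1, x.1.2), R.dom _ x.2.1, x.2.2⟩) (UC.join ?_ UC.right)
  exact UC.trans (h1.pull fun x : Back P S fun p => R'.Φ (R.Φ p) => ⟨x.1.1, x.2.1⟩) UC.left

theorem WRed.prod {P Q P' Q' : Problem} (h : WRed P P') (h' : WRed Q Q') :
    WRed (prod P Q) (prod P' Q') := by
  obtain ⟨R, h1, h2⟩ := h.elim
  obtain ⟨R', h3, h4⟩ := h'.elim
  let Φ : (ℕ → ℕ) → ℕ → ℕ := fun p => join (R.Φ fun n => p (2 * n)) (R'.Φ fun n => p (2 * n + 1))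
  have e1 : ∀ x : Back (MP_5e3ef6_lc.prod P Q) (MP_5e3ef6_lc.prod P' Q') Φ,
      (fun n => x.1.2 (2 * n)) ∈ P'.sol (R.Φ fun n => x.1.1 (2 * n)) := fun x => by
    have := x.2.2.1
    simpa only [Φ, join_ev] using this
  have e2 : ∀ x : Back (MP_5e3ef6_lc.prod P Q) (MP_5e3ef6_lc.prod P' Q') Φ,
      (fun n => x.1.2 (2 * n + 1)) ∈ Q'.sol (R'.Φ fun n => x.1.1 (2 * n + 1)) := fun x => by
    have := x.2.2.2
    simpa only [Φ, join_od] using this
  refine WRed.intro Φ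
    (fun p q => join (R.Ψ (fun n => p (2 * n)) fun n => q (2 * n))
      (R'.Ψ (fun n => p (2 * n + 1)) fun n => q (2 * n + 1)))
    (UC.join (UC.trans (h1.pull fun x : (MP_5e3ef6_lc.prod P Q).dom => ⟨_, x.2.1⟩) UC.refl.ev)
      (UC.trans (h3.pull fun x : (MP_5e3ef6_lc.prod P Q).dom => ⟨_, x.2.2⟩) UC.refl.od))
    (UC.join
      (UC.trans (h2.pull fun x => ⟨(_, _), x.2.1.1, e1 x⟩) (UC.left.ev.join UC.right.ev))
      (UC.trans (h4.pull fun x => ⟨(_, _), x.2.1.2, e2 x⟩) (UC.left.od.join UC.right.od)))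
    (fun p hp => ⟨?_, ?_⟩) fun p hp q hq => ⟨?_, ?_⟩
  · simpa only [Φ, join_ev] using R.dom _ hp.1
  · simpa only [Φ, join_od] using R'.dom _ hp.2
  · simpa only [join_ev] using R.sol _ hp.1 _ (e1 ⟨(p, q), hp, hq⟩)
  · simpa only [join_od] using R'.sol _ hp.2 _ (e2 ⟨(p, q), hp, hq⟩)

theorem UCE.enum' {o : O → ℕ → ℕ} {S : O → ℕ → ℕ → Prop}
    (h : UCE o fun x (z : ℕ × ℕ) => S x z.1 z.2) : 
    ∃ F, UC o F ∧ ∀ x, MP_5e3ef6_lc.rel (F x) = S x := by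
  obtain ⟨c, hc, h⟩ := (h.comp (f := Nat.unpair) (by fun_prop)).enum
  choose F h1 h2 using h
  refine ⟨F, UCE.of_computes hc h1, fun x => ?_⟩
  funext a b
  exact propext (by simpa [MP_5e3ef6_lc.rel] using h2 x (Nat.pair a b))

theorem WRed.intro_diag {P : Problem} (S : (ℕ → ℕ) → ℕ → ℕ → Prop)
    (Ψ : (ℕ → ℕ) → (ℕ → ℕ) → ℕ → ℕ)
    (hS : UCE (fun x : P.dom => x.1) fun x (z : ℕ × ℕ) => S x.1 z.1 z.2)
    (hΨ : UC (fun x : (ℕ → ℕ) × (ℕ → ℕ) => join x.1 x.2) fun x => Ψ x.1 x.2)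
    (hd : ∀ p ∈ P.dom, Equivalence (S p) ∧ ∃ x y, ¬ S p x y)
    (hs : ∀ p ∈ P.dom, ∀ g : ℕ → ℕ, (∀ x, ¬ S p (g x) x) → Ψ p g ∈ P.sol p) : WRed P DIAG := by
  classical
  obtain ⟨F, h1, h2⟩ := hS.enum'
  have e : ∀ p (hp : p ∈ P.dom), rel (if h : p ∈ P.dom then F ⟨p, h⟩ else p) = S p :=
    fun p hp => by rw [dif_pos hp, h2]
  refine WRed.intro (fun p => if h : p ∈ P.dom then F ⟨p, h⟩ else p) Ψ
    (by simpa using h1) (hΨ.pull fun x : Back P DIAG _ => x.1) (fun p hp => ?_) fun p hp g hg => hs p hp g ?_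
  · show Equivalence _ ∧ _
    rw [e p hp]
    exact hd p hp
  · rw [← e p hp]
    exact hg

theorem cn_diag_le : WRed (prod CN DIAG) DIAG := by
  let Z : (ℕ → ℕ) → ℕ → Prop := fun p z => z = 0 ∨
    (∃ s, (z - 1).unpair.1 ≤ s ∧ ¬ Alive p s (z - 1).unpair.1) ∨
      rel (fun n => p (2 * n + 1)) (z - 1).unpair.2 0
  have hr : UCE (fun x : (prod CN DIAG).dom => x.1)
      fun x (z : ℕ × ℕ) => rel (fun n => x.1 (2 * n + 1)) z.1 z.2 :=
    UCE.trans UC.refl.od UCE.rel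
  have hZ : UCE (fun x : (prod CN DIAG).dom => x.1) fun x z => Z x.1 z := by
    refine (UCE.of_pr (by fun_prop)).or (UCE.or ?_
      (hr.comp (f := fun z : ℕ => ((z - 1).unpair.2, 0)) (by fun_prop)))
    have : UCE (fun x : (prod CN DIAG).dom => x.1) fun x z => ∃ l : List ℕ,
        l = pre x.1 l.length ∧ (decide ((z - 1).unpair.1 ≤ l.length) &&
          !aliveB l (z - 1).unpair.1) = true := by
      refine UCE.ex ?_
      exact (UCE.isPre.comp (f := fun w : ℕ × List ℕ => w.2) (by fun_prop)).and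
        (UCE.of_bool (by fun_prop))
    refine this.of_iff fun x z => ⟨fun ⟨s, h1, h2⟩ => ⟨pre x.1 s, by simp, ?_⟩, ?_⟩
    · simpa [h1, ← aliveB_iff _ h1] using h2
    · rintro ⟨l, h1, h2⟩
      simp only [Bool.and_eq_true, decide_eq_true_eq, Bool.not_eq_true'] at h2
      refine ⟨l.length, h2.1, ?_⟩
      rw [← aliveB_iff _ h2.1, ← h1, h2.2]
      simp
  have key : ∀ p ∈ (prod CN DIAG).dom, ∃ c0, (∀ s, Alive p s c0) ∧ ∀ z z',
      ((0 < z ∧ 0 < z' ∧ (z - 1).unpair.1 = (z' - 1).unpair.1) ∧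
        rel (fun n => p (2 * n + 1)) (z - 1).unpair.2 (z' - 1).unpair.2 ∨ Z p z ∧ Z p z') ↔
      rel (fun n => p (2 * n + 1))
        (if 0 < z ∧ (z - 1).unpair.1 = c0 then (z - 1).unpair.2 else 0)
        (if 0 < z' ∧ (z' - 1).unpair.1 = c0 then (z' - 1).unpair.2 else 0) := by
    intro p hp
    obtain ⟨c0, hc0⟩ := exists_survivor hp.1
    have hE := hp.2.1
    have hZ1 : ∀ z, ¬ (0 < z ∧ (z - 1).unpair.1 = c0) → Z p z := by
      intro z h
      rcases Nat.eq_zero_or_pos z with h0 | h0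
      · exact Or.inl h0
      · refine Or.inr (Or.inl ⟨(z - 1).unpair.1 + c0, by omega, fun h' => h ⟨h0, ?_⟩⟩)
        exact h'.unique (hc0 _) (by omega) (by omega)
    have hZ2 : ∀ z, 0 < z ∧ (z - 1).unpair.1 = c0 →
        (Z p z ↔ rel (fun n => p (2 * n + 1)) (z - 1).unpair.2 0) := by
      rintro z ⟨h0, h⟩
      refine ⟨?_, fun h => Or.inr (Or.inr h)⟩
      rintro (h1 | ⟨s, -, h1⟩ | h1)
      · omega
      · exact absurd (h ▸ hc0 s) h1
      · exact h1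
    refine ⟨c0, hc0, fun z z' => ?_⟩
    split_ifs with h1 h2 h2
    · rw [hZ2 z h1, hZ2 z' h2]
      exact ⟨fun h => h.elim And.right fun h => hE.trans h.1 (hE.symm h.2),
        fun h => Or.inl ⟨⟨h1.1, h2.1, h1.2.trans h2.2.symm⟩, h⟩⟩
    · rw [hZ2 z h1]
      exact ⟨fun h => h.elim (fun h => absurd ⟨h.1.2.1, h.1.2.2 ▸ h1.2⟩ h2) And.left,
        fun h => Or.inr ⟨h, hZ1 z' h2⟩⟩
    · rw [hZ2 z' h2]
      exact ⟨fun h => h.elim (fun h => absurd ⟨h.1.1, h.1.2.2.trans h2.2⟩ h1)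
        fun h => hE.symm h.2, fun h => Or.inr ⟨hZ1 z h1, hE.symm h⟩⟩
    · exact ⟨fun _ => hE.refl 0, fun _ => Or.inr ⟨hZ1 z h1, hZ1 z' h2⟩⟩
  refine WRed.intro_diag (fun p z z' =>
      (0 < z ∧ 0 < z' ∧ (z - 1).unpair.1 = (z' - 1).unpair.1) ∧
        rel (fun n => p (2 * n + 1)) (z - 1).unpair.2 (z' - 1).unpair.2 ∨ Z p z ∧ Z p z')
    (fun _ g => join (fun _ => (g 0 - 1).unpair.1.unpair.2) fun x =>
      if 0 < g (Nat.pair (g 0 - 1).unpair.1 x + 1) ∧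
        (g (Nat.pair (g 0 - 1).unpair.1 x + 1) - 1).unpair.1 = (g 0 - 1).unpair.1 then
      (g (Nat.pair (g 0 - 1).unpair.1 x + 1) - 1).unpair.2 else 0) ?_ ?_ ?_ ?_
  · exact ((UCE.of_pr (by fun_prop)).and (hr.comp
      (f := fun z : ℕ × ℕ => ((z.1 - 1).unpair.2, (z.2 - 1).unpair.2)) (by fun_prop))).or
      ((hZ.comp (by fun_prop)).and (hZ.comp (by fun_prop)))
  · have hg : UC (fun x : (ℕ → ℕ) × (ℕ → ℕ) => join x.1 x.2) fun x => x.2 := UC.right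
    refine UC.join ?_ ?_
    · have : UCE (fun x : (ℕ → ℕ) × (ℕ → ℕ) => join x.1 x.2) fun x (z : ℕ × ℕ) =>
          ∃ a, x.2 0 = a ∧ (a - 1).unpair.1.unpair.2 = z.2 := by
        refine UCE.ex ?_
        exact (hg.comp (f := fun w : (ℕ × ℕ) × ℕ => (0, w.2)) (by fun_prop)).and
          (UCE.of_pr (by fun_prop))
      exact this.of_iff fun x z => by simp
    · have : UCE (fun x : (ℕ → ℕ) × (ℕ → ℕ) => join x.1 x.2) fun x (z : ℕ × ℕ) =>
          ∃ a, x.2 0 = a ∧ ∃ b, x.2 (Nat.pair (a - 1).unpair.1 z.1 + 1) = b ∧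
            (if 0 < b ∧ (b - 1).unpair.1 = (a - 1).unpair.1 then (b - 1).unpair.2 else 0) =
              z.2 := by
        refine UCE.ex ?_
        refine (hg.comp (f := fun w : (ℕ × ℕ) × ℕ => (0, w.2)) (by fun_prop)).and ?_
        refine UCE.ex ?_
        exact (hg.comp (f := fun w : ((ℕ × ℕ) × ℕ) × ℕ =>
          (Nat.pair (w.1.2 - 1).unpair.1 w.1.1.1 + 1, w.2)) (by fun_prop)).and
          (UCE.of_pr (by fun_prop))
      exact this.of_iff fun x z => by simp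
  · intro p hp
    obtain ⟨c0, -, h⟩ := key p hp
    have hE := hp.2.1
    obtain ⟨x, y, hxy⟩ := hp.2.2
    refine ⟨⟨fun z => (h z z).2 (hE.refl _), fun h1 => (h _ _).2 (hE.symm ((h _ _).1 h1)),
      fun h1 h2 => (h _ _).2 (hE.trans ((h _ _).1 h1) ((h _ _).1 h2))⟩,
      Nat.pair c0 x + 1, Nat.pair c0 y + 1, ?_⟩
    rw [h]
    simpa using hxy
  · intro p hp g hg
    obtain ⟨c0, hc0, h⟩ := key p hp
    have hE := hp.2.1
    simp only [h] at hg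
    have h0 : (g 0 - 1).unpair.1 = c0 := by
      by_contra h0
      have := hg 0
      simp only [h0, and_false, if_false, lt_self_iff_false, false_and] at this
      exact this (hE.refl 0)
    refine ⟨?_, ?_⟩
    · rw [join_ev, h0]
      exact fun i hi => (hc0 (2 * i + 1)).1 ⟨i, by omega, hi⟩
    · rw [join_od, h0]
      intro x
      simpa using hg (Nat.pair c0 x + 1)

end Pool.Agent.Lib.MP_5e3ef6_lc
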